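import Pool.Agent.SBL.Stmts

/-!
# Module ARC: the total length of the arcs
-/

set_option autoImplicit false

namespace Pool.Agent.SBL

open Filter Pool.Agent.SBT

namespace ARC_

theorem pre {u : ℕ → ℕ} {m x y : ℕ} (h : blk u m (x + 1) = blk u m (y + 1)) (h0 : u x = u y) :
    blk u (m + 1) x = blk u (m + 1) y := by
  funext t
  obtain ⟨t, ht⟩ := t
  rcases t with _ | t
  · simpa [blk] using h0
  · have := congrFun h ⟨t, by omega⟩
    simp only [blk] at this ⊢
    rw [show x + (t + 1) = x + 1 + t by ring, show y + (t + 1) = y + 1 + t by ring]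
    exact this

theorem shorter {u : ℕ → ℕ} {m x y : ℕ} (h : blk u (m + 1) x = blk u (m + 1) y) :
    blk u m x = blk u m y := by
  funext t
  have := congrFun h ⟨t.1, by omega⟩
  simpa [blk] using this

theorem nod_of {u : ℕ → ℕ} {m X x y : ℕ} (hx : Nod u m X x) (hy : y < X)
    (h : blk u m x = blk u m y) : Nod u m X y := by
  refine ⟨hy, ?_⟩
  rw [← h]
  exact hx.2

theorem not_nod {u : ℕ → ℕ} {m X K : ℕ} {β : ℕ → ℕ}
    (hm : ∀ i j, i < j → j < K → β i < β j) (hN : ∀ x, Nod u m X x ↔ ∃ k < K, β k = x)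
    {k x : ℕ} (hk : k + 1 < K) (h1 : β k < x) (h2 : x < β (k + 1)) : ¬ Nod u m X x := by
  intro h
  obtain ⟨i, hi, rfl⟩ := (hN x).1 h
  rcases lt_trichotomy i k with h | h | h
  · have := hm i k h (by omega)
    omega
  · subst h
    omega
  · rcases Nat.lt_or_ge i (k + 1) with h' | h'
    · omega
    · rcases Nat.lt_or_ge (k + 1) i with h'' | h''
      · have := hm (k + 1) i h'' hi
        omega
      · have : i = k + 1 := by omega
        subst this
        omega

theorem back {u : ℕ → ℕ} {m X x y : ℕ} (hx : x < X) (hy : y < X)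
    (hn : ¬ Nod u m X (x + 1)) (hx1 : x + 1 < X) (h : blk u m (x + 1) = blk u m (y + 1)) :
    u x = u y := by
  by_contra hne
  exact hn ⟨hx1, Or.inr ⟨x, hx, y, hy, rfl, h.symm, hne⟩⟩

theorem key {u : ℕ → ℕ} {m X K : ℕ} {β : ℕ → ℕ}
    (hm : ∀ i j, i < j → j < K → β i < β j) (hN : ∀ x, Nod u m X x ↔ ∃ k < K, β k = x)
    {k l j j' : ℕ} (hk : k + 1 < K) (hl : l + 1 < K) (hj : 1 ≤ j) (hjk : j < β (k + 1) - β k)
    (hjl : j' < β (l + 1) - β l) (hjj : j ≤ j')
    (h : blk u m (β k + j) = blk u m (β l + j')) :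
    j = j' ∧ blk u (m + 1) (β k) = blk u (m + 1) (β l) := by
  have hkX : β (k + 1) < X := ((hN _).2 ⟨k + 1, hk, rfl⟩).1
  have hlX : β (l + 1) < X := ((hN _).2 ⟨l + 1, hl, rfl⟩).1
  have main : ∀ i, i < j → blk u m (β k + (j - i)) = blk u m (β l + (j' - i)) ∧
      blk u (m + 1) (β k + (j - i - 1)) = blk u (m + 1) (β l + (j' - i - 1)) := by
    intro i
    induction i with
    | zero =>
      intro _
      refine ⟨by simpa using h, ?_⟩
      have e1 : β k + (j - 0 - 1) + 1 = β k + j := by omega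
      have e2 : β l + (j' - 0 - 1) + 1 = β l + j' := by omega
      have h' : blk u m (β k + (j - 0 - 1) + 1) = blk u m (β l + (j' - 0 - 1) + 1) := by
        rw [e1, e2]
        exact h
      refine pre h' (back (X := X) (by omega) (by omega) ?_ (by omega) h')
      rw [e1]
      exact not_nod hm hN hk (by omega) (by omega)
    | succ i ih =>
      intro hi
      have ih' := shorter (ih (by omega)).2
      have e0 : j - i - 1 = j - (i + 1) := by omega
      have e0' : j' - i - 1 = j' - (i + 1) := by omega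
      rw [e0, e0'] at ih'
      refine ⟨ih', ?_⟩
      have e1 : β k + (j - (i + 1) - 1) + 1 = β k + (j - (i + 1)) := by omega
      have e2 : β l + (j' - (i + 1) - 1) + 1 = β l + (j' - (i + 1)) := by omega
      have h' : blk u m (β k + (j - (i + 1) - 1) + 1) = blk u m (β l + (j' - (i + 1) - 1) + 1) := by
        rw [e1, e2]
        exact ih'
      refine pre h' (back (X := X) (by omega) (by omega) ?_ (by omega) h')
      rw [e1]
      exact not_nod hm hN hk (by omega) (by omega)
  have hlast := (main (j - 1) (by omega)).2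
  have e1 : β k + (j - (j - 1) - 1) = β k := by omega
  have e2 : β l + (j' - (j - 1) - 1) = β l + (j' - j) := by omega
  rw [e1, e2] at hlast
  have hnod : Nod u m X (β l + (j' - j)) :=
    nod_of ((hN _).2 ⟨k, by omega, rfl⟩) (by omega) (shorter hlast)
  have hjj' : j = j' := by
    by_contra hne
    exact not_nod hm hN hl (by omega) (by omega) hnod
  subst hjj'
  refine ⟨rfl, ?_⟩
  simpa using hlast

end ARC_

open ARC_ in
theorem arc_proof : Stmt_ARC := by
  intro u m X K β J _ hm hN hJ hJi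
  classical
  set S := J.sigma (fun k => Finset.Ico 1 (β (k + 1) - β k)) with hS
  have hcard : S.card = ∑ k ∈ J, (β (k + 1) - β k - 1) := by
    rw [hS, Finset.card_sigma]
    simp
  rw [← hcard]
  have hfin : (Set.image (blk u m) (Set.Iio X)).Finite := (Set.finite_Iio X).image _
  unfold nbl
  rw [Set.ncard_eq_toFinset_card _ hfin]
  refine Finset.card_le_card_of_injOn (fun p : Σ _ : ℕ, ℕ => blk u m (β p.1 + p.2)) ?_ ?_
  · rintro ⟨k, j⟩ hp
    have hp' : k ∈ J ∧ 1 ≤ j ∧ j < β (k + 1) - β k := by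
      simpa [hS, Finset.mem_sigma] using hp
    have hkX : β (k + 1) < X := ((hN _).2 ⟨k + 1, hJ k hp'.1, rfl⟩).1
    simp only [Set.Finite.coe_toFinset]
    exact ⟨β k + j, by simp only [Set.mem_Iio]; omega, rfl⟩
  · rintro ⟨k, j⟩ hp ⟨l, j'⟩ hp2 h
    have hp' : k ∈ J ∧ 1 ≤ j ∧ j < β (k + 1) - β k := by
      simpa [hS, Finset.mem_sigma] using hp
    have hp2' : l ∈ J ∧ 1 ≤ j' ∧ j' < β (l + 1) - β l := by
      simpa [hS, Finset.mem_sigma] using hp2
    simp only at h
    have : k = l ∧ j = j' := by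
      rcases Nat.le_total j j' with hle | hle
      · obtain ⟨h1, h2⟩ := key hm hN (hJ k hp'.1) (hJ l hp2'.1) hp'.2.1 hp'.2.2 hp2'.2.2 hle h
        exact ⟨hJi k hp'.1 l hp2'.1 h2, h1⟩
      · obtain ⟨h1, h2⟩ := key hm hN (hJ l hp2'.1) (hJ k hp'.1) hp2'.2.1 hp2'.2.2 hp'.2.2 hle h.symm
        exact ⟨hJi k hp'.1 l hp2'.1 h2.symm, h1.symm⟩
    obtain ⟨rfl, rfl⟩ := this
    rfl

end Pool.Agent.SBL
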