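import Pool.Agent.SBL.Stmts

set_option autoImplicit false

namespace Pool.Agent.SBL

open Filter Pool.Agent.SBT

namespace CPL_

theorem cnt_eq (b : ℕ) (x : ℝ) (n X : ℕ) :
    cnt b x n X =
      (Set.image (fun i : ℕ => fun j : Fin n => dig b x (i + 1 + j)) (Set.Iio X)).ncard := by
  rw [cnt]
  congr 1
  ext w
  rw [Set.mem_image]
  constructor
  · rintro ⟨i, hi, h⟩
    exact ⟨i, hi, funext fun j => (h j).symm⟩
  · rintro ⟨i, hi, rfl⟩
    exact ⟨i, hi, fun j => rfl⟩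

theorem cnt_mono (b : ℕ) (x : ℝ) {n n' X X' : ℕ} (hn : n ≤ n') (hX : X ≤ X') :
    cnt b x n X ≤ cnt b x n' X' := by
  rw [cnt_eq, cnt_eq]
  have h1 : (Set.image (fun i : ℕ => fun j : Fin n => dig b x (i + 1 + j)) (Set.Iio X)) =
      (fun (w : Fin n' → ℤ) (j : Fin n) => w (Fin.castLE hn j)) ''
        (Set.image (fun i : ℕ => fun j : Fin n' => dig b x (i + 1 + j)) (Set.Iio X)) := by
    rw [Set.image_image]
    rfl
  rw [h1]
  refine (Set.ncard_image_le ((Set.finite_Iio X).image _)).trans ?_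
  exact Set.ncard_le_ncard (Set.image_mono (Set.Iio_subset_Iio hX))
    ((Set.finite_Iio X').image _)

end CPL_

open CPL_ in
theorem cpl_proof (hCPC : Stmt_CPC) (hMHD : Stmt_MHD) (hTYC : Pool.Agent.SBT.Stmt_TYC)
    (hDGT : Stmt_DGT) : Stmt_CPL := by
  intro a b ξ μ ha hb hI hM
  obtain ⟨K, hK, hC⟩ := hCPC a b ξ μ ha hb hI hM
  have hD := hMHD a ξ μ ha hM
  have hKr : (1 : ℝ) ≤ K := by exact_mod_cast hK
  obtain ⟨c', hc'⟩ : ∃ c' : ℝ, c' = 1 / (2 * (2 * μ + 3) * K) := ⟨_, rfl⟩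
  have hμ : (0 : ℝ) ≤ μ := Nat.cast_nonneg μ
  have hc0 : 0 < c' := by
    rw [hc']
    positivity
  have hmul : c' * (2 * (2 * μ + 3) * K) = 1 := by
    rw [hc']
    field_simp
  have part1 : ∀ Λ : ℕ, 1 ≤ Λ → ∀ᶠ n : ℕ in atTop,
      c' * (Λ * n : ℕ) ≤ cnt a ξ n (Λ * n) + cnt b ξ n (Λ * n) := by
    intro Λ hΛ
    rcases Nat.lt_or_ge Λ K with h | h
    · filter_upwards [hD] with n hn
      have h1 : cnt a ξ n n ≤ cnt a ξ n (Λ * n) := cnt_mono a ξ le_rfl (by nlinarith)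
      have h2 : (n : ℝ) ≤ (2 * μ + 3) * cnt a ξ n (Λ * n) := by
        have h3 : n ≤ (2 * μ + 3) * cnt a ξ n (Λ * n) :=
          hn.trans (Nat.mul_le_mul_left _ h1)
        exact_mod_cast h3
      have h4 : (Λ : ℝ) ≤ K := by exact_mod_cast h.le
      have h5 : (0 : ℝ) ≤ cnt b ξ n (Λ * n) := Nat.cast_nonneg _
      have h6 : (0 : ℝ) ≤ cnt a ξ n (Λ * n) := Nat.cast_nonneg _
      have h7 : (0 : ℝ) ≤ n := Nat.cast_nonneg _
      push_cast
      calc c' * ((Λ : ℝ) * n) ≤ c' * (K * n) := by gcongr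
        _ ≤ c' * (K * ((2 * μ + 3) * cnt a ξ n (Λ * n))) := by gcongr
        _ = (c' * (2 * (2 * μ + 3) * K)) * (cnt a ξ n (Λ * n)) / 2 := by ring
        _ ≤ cnt a ξ n (Λ * n) + cnt b ξ n (Λ * n) := by
            rw [hmul]
            linarith
    · obtain ⟨C, hCe⟩ : ∃ C : ℕ, C = Λ / K := ⟨_, rfl⟩
      have hC1 : 1 ≤ C := by
        rw [hCe]
        exact (Nat.one_le_div_iff (by omega)).2 h
      have hC2 : K * C ≤ Λ := by
        rw [hCe]
        exact Nat.mul_div_le Λ K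
      have hC3 : Λ < K * (C + 1) := by
        rw [hCe]
        exact Nat.lt_mul_div_succ Λ (by omega)
      filter_upwards [hC C Λ hC1 hC2] with n hn
      have h1 : (C : ℝ) * n ≤ cnt a ξ n (Λ * n) + cnt b ξ n (Λ * n) := by
        exact_mod_cast hn.le
      have h2 : (Λ : ℝ) ≤ 2 * K * C := by
        have h3 : Λ ≤ 2 * K * C := by nlinarith
        exact_mod_cast h3
      have h7 : (0 : ℝ) ≤ n := Nat.cast_nonneg _
      have h8 : (0 : ℝ) ≤ C := Nat.cast_nonneg _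
      have h9 : (0 : ℝ) ≤ (C : ℝ) * n := by positivity
      push_cast
      calc c' * ((Λ : ℝ) * n) ≤ c' * (2 * K * C * n) := by gcongr
        _ = (c' * (2 * (2 * μ + 3) * K)) * (C * n) / (2 * μ + 3) := by field_simp
        _ = C * n / (2 * μ + 3) := by rw [hmul, one_mul]
        _ ≤ C * n := div_le_self h9 (by linarith)
        _ ≤ _ := h1
  refine ⟨c' / 2, by positivity, ?_, ?_⟩
  · intro Λ hΛ
    filter_upwards [part1 Λ hΛ] with n hn
    refine le_trans ?_ hn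
    have : (0 : ℝ) ≤ ((Λ * n : ℕ) : ℝ) := Nat.cast_nonneg _
    nlinarith
  · intro ε hε
    obtain ⟨Λ, hΛ⟩ : ∃ Λ : ℕ, Λ = ⌈1 / ε⌉₊ := ⟨_, rfl⟩
    have hΛ1 : 1 ≤ Λ := by
      rw [hΛ]
      exact Nat.ceil_pos.2 (by positivity)
    have hΛ2 : 1 ≤ ε * Λ := by
      have h1 : 1 / ε ≤ Λ := by rw [hΛ]; exact Nat.le_ceil _
      rw [div_le_iff₀ hε] at h1
      linarith
    obtain ⟨n₁, hn₁⟩ := eventually_atTop.1 (part1 Λ hΛ1)
    filter_upwards [eventually_ge_atTop (2 * Λ + Λ * n₁)] with N hN n hn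
    have hq : n₁ ≤ N / Λ := by
      rw [Nat.le_div_iff_mul_le (by omega)]
      nlinarith
    have h1 := hn₁ (N / Λ) hq
    have h2 : Λ * (N / Λ) ≤ N := Nat.mul_div_le N Λ
    have h3 : N < Λ * (N / Λ + 1) := Nat.lt_mul_div_succ N (by omega)
    obtain ⟨q, hqe⟩ : ∃ q : ℕ, q = N / Λ := ⟨_, rfl⟩
    rw [← hqe] at h1 h2 h3
    have h4 : q ≤ n := by
      have h5 : (q : ℝ) ≤ n := by
        refine le_trans ?_ hn
        have h6 : (Λ : ℝ) * q ≤ N := by exact_mod_cast h2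
        have h7 : (0 : ℝ) ≤ q := Nat.cast_nonneg q
        calc (q : ℝ) = 1 * q := (one_mul _).symm
          _ ≤ (ε * Λ) * q := by gcongr
          _ = ε * (Λ * q) := by ring
          _ ≤ ε * N := by gcongr
      exact_mod_cast h5
    have h5 : cnt a ξ q (Λ * q) ≤ cnt a ξ n N := cnt_mono a ξ h4 h2
    have h6 : cnt b ξ q (Λ * q) ≤ cnt b ξ n N := cnt_mono b ξ h4 h2
    have h5r : (cnt a ξ q (Λ * q) : ℝ) ≤ cnt a ξ n N := by exact_mod_cast h5
    have h6r : (cnt b ξ q (Λ * q) : ℝ) ≤ cnt b ξ n N := by exact_mod_cast h6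
    have h7 : N ≤ 2 * (Λ * q) := by nlinarith
    have h7r : (N : ℝ) ≤ 2 * ((Λ * q : ℕ) : ℝ) := by exact_mod_cast h7
    have h8 : c' / 2 * (N : ℝ) ≤ c' * ((Λ * q : ℕ) : ℝ) := by nlinarith
    linarith

end Pool.Agent.SBL
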