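import Pool.Agent.SBL.Stmts

set_option autoImplicit false

namespace Pool.Agent.SBL

open Filter Pool.Agent.SBT

theorem dtn_proof : Stmt_DTN := by
  intro u m X i j t hb hit hjt ht hns
  have key : ∀ s, 1 ≤ s → s ≤ t → ∀ x, x < m + s → u (i + x) = u (j + x) := by
    intro s hs
    induction s, hs using Nat.le_induction with
    | base =>
      intro _ x hx
      have := congrFun hb ⟨x, hx⟩
      simpa [blk] using this
    | succ s hs ih =>
      intro hst x hx
      have ih' := ih (by omega)
      rcases Nat.lt_or_ge x (m + s) with h | h
      · exact ih' x h
      · obtain rfl : x = m + s := by omega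
        have h1 := hns s hs (by omega)
        by_contra hne
        apply h1
        refine ⟨by omega, Or.inl ⟨i + s, by omega, j + s, by omega, rfl, ?_, ?_⟩⟩
        · funext y
          have := ih' (s + y) (by have := y.2; omega)
          simpa [blk, add_assoc] using this.symm
        · have e1 : i + s + m = i + (m + s) := by omega
          have e2 : j + s + m = j + (m + s) := by omega
          rw [e1, e2]
          exact hne
  have kt := key t ht le_rfl
  have hbm : blk u m (i + t) = blk u m (j + t) := by
    funext y
    have := kt (t + y) (by have := y.2; omega)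
    simpa [blk, add_assoc] using this
  refine ⟨?_, ?_⟩
  · funext y
    simpa [blk] using kt y y.2
  · unfold Nod
    rw [hbm]
    exact ⟨fun h => ⟨hjt, h.2⟩, fun h => ⟨hit, h.2⟩⟩

end Pool.Agent.SBL
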