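import Pool.Agent.SBL.Stmts
import Pool.Agent.SBT.EL1

/-!
# ELX: elimination in one step, with individual exponents
-/

set_option autoImplicit false

namespace Pool.Agent.SBL

open Filter Pool.Agent.SBT

namespace ELX_

open Pool.Agent.SBT.EL1

theorem ev_sum {r : ℕ} {J : Type} [Fintype J] (g : Fin r → ℕ → ℚ) (n : ℕ)
    (P : J → MvPolynomial (Fin r) ℚ) : ev g n (∑ j, P j) = ∑ j, ev g n (P j) := by
  simp [ev]

theorem ev_neg {r : ℕ} (g : Fin r → ℕ → ℚ) (n : ℕ) (P : MvPolynomial (Fin r) ℚ) :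
    ev g n (-P) = -ev g n P := by simp [ev]

theorem ev_add {r : ℕ} (g : Fin r → ℕ → ℚ) (n : ℕ) (P Q : MvPolynomial (Fin r) ℚ) :
    ev g n (P + Q) = ev g n P + ev g n Q := by simp [ev]

theorem ev_C {r : ℕ} (g : Fin r → ℕ → ℚ) (n : ℕ) (c : ℚ) :
    ev g n (MvPolynomial.C c) = c := by simp [ev]

/-- the bound of one monomial at all places -/
theorem all_places {U : Ultrafilter ℕ} {S : Finset ℕ} {T : ℕ → ℝ} {r k : ℕ}
    {g : Fin r → ℕ → ℚ} (hS : PS S) (hunit : ∀ i n, IsU S (g i n))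
    (H : Fin k → MvPolynomial (Fin r) ℚ) (c : ℝ)
    (hht : ∀ e : ℕ → (Fin r →₀ ℕ), (∀ v ∈ pl S, ∃ i, e v ∈ (H i).support) →
      ∀ᶠ n in (U : Filter ℕ), ∏ v ∈ pl S, av v (mon g (e v) n) ≤ Real.exp (c * T n))
    (j₀ : Fin k) (e₁ : Fin r →₀ ℕ) (he₁ : e₁ ∈ (H j₀).support) (i : Fin k) (e : Fin r →₀ ℕ)
    (he : e ∈ (H i).support) : ∀ᶠ n in (U : Filter ℕ), ∀ v ∈ pl S,
      av v (mon g e n) ≤ Real.exp (c * T n) * av v (mon g e₁ n) := by
  classical
  have hμ1 : ∀ n, IsU S (mon g e₁ n) := fun n =>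
    isU_prod hS _ _ fun i _ => (hunit i n).pow hS _
  rw [Filter.eventually_all_finset]
  intro v hv
  have h1 := hht (fun w => if w = v then e else e₁) (by
    intro w hw
    by_cases hwv : w = v
    · simp only [hwv, if_true]
      exact ⟨i, he⟩
    · simp only [hwv, if_false]
      exact ⟨j₀, he₁⟩)
  filter_upwards [h1] with n hn1
  have h2 := (hμ1 n).2
  rw [← Finset.mul_prod_erase _ _ hv] at hn1 h2
  rw [if_pos rfl] at hn1
  have h3 : ∏ w ∈ (pl S).erase v, av w (mon g (if w = v then e else e₁) n) =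
      ∏ w ∈ (pl S).erase v, av w (mon g e₁ n) := by
    refine Finset.prod_congr rfl fun w hw => ?_
    rw [if_neg (Finset.ne_of_mem_erase hw)]
  rw [h3] at hn1
  have h5 : 0 ≤ av v (mon g e₁ n) := av_nonneg _ _
  calc av v (mon g e n) =
        av v (mon g e n) * (∏ w ∈ (pl S).erase v, av w (mon g e₁ n)) * av v (mon g e₁ n) := by
        rw [mul_assoc, mul_comm (∏ w ∈ (pl S).erase v, av w (mon g e₁ n)), h2, mul_one]
    _ ≤ _ := mul_le_mul_of_nonneg_right hn1 h5

end ELX_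

open ELX_ Pool.Agent.SBT.EL1 in
/-- module ELX -/
theorem elx_proof (hS1X : Stmt_S1X) (hGEN : Stmt_GEN) (hPRM : Stmt_PRM) : Stmt_ELX := by
  classical
  intro U S T r d ι g bs Z R B B₀ hGd hB hZ hD
  have hS := hGd.prime
  obtain ⟨d', f, D, β, hf, hI, hD0, hrel, hprim⟩ := hPRM U S T r d g Z hGd
  obtain ⟨c, hc1, hc2⟩ := hGEN r (Fin d) (Fin d') D β hD0 hprim
  refine ⟨d', f, hf, hI, ?_⟩
  set σ : Fin d' → MvPolynomial (Fin r) ℚ :=
    fun i => ∑ j, MvPolynomial.C (c j : ℚ) * β j i with hσ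
  set Y : ℕ → ℤ := fun n => ∑ j, c j * Z j n with hY
  set sb : ℝ := ∑ j, B j with hsb
  have hsb0 : 0 ≤ sb := Finset.sum_nonneg fun j _ => hB j
  have hBsb : ∀ j, B j ≤ sb := fun j =>
    Finset.single_le_sum (f := B) (fun i _ => hB i) (Finset.mem_univ j)
  have hfsum : ∑ i, B (f i) ≤ sb := by
    rw [hsb]
    calc ∑ i, B (f i) = ∑ j ∈ Finset.univ.map ⟨f, hf⟩, B j := by
          rw [Finset.sum_map]
          rfl
      _ ≤ ∑ j, B j := Finset.sum_le_sum_of_subset_of_nonneg (Finset.subset_univ _)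
          fun j _ _ => hB j
  -- the relation of `Y`
  have hYrel : ∀ᶠ n in (U : Filter ℕ), ev g n D * (Y n : ℚ) =
      ∑ i, ev g n (σ i) * (Z (f i) n : ℚ) := by
    filter_upwards [Filter.eventually_all.2 hrel] with n hn
    have e1 : ev g n D * (Y n : ℚ) = ∑ j, (c j : ℚ) * (ev g n D * (Z j n : ℚ)) := by
      simp only [hY]
      push_cast
      rw [Finset.mul_sum]
      refine Finset.sum_congr rfl fun j _ => ?_
      ring
    rw [e1]
    have e2 : ∀ j, (c j : ℚ) * (ev g n D * (Z j n : ℚ)) =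
        ∑ i, (c j : ℚ) * (ev g n (β j i) * (Z (f i) n : ℚ)) := by
      intro j
      rw [hn j, Finset.mul_sum]
    rw [Finset.sum_congr rfl fun j _ => e2 j, Finset.sum_comm]
    refine Finset.sum_congr rfl fun i _ => ?_
    rw [hσ]
    simp only
    rw [ev_sum, Finset.sum_mul]
    refine Finset.sum_congr rfl fun j _ => ?_
    rw [ev_mul, ev_C]
    ring
  -- the size of `Y`
  have hYle : ∀ᶠ n in (U : Filter ℕ), |(Y n : ℝ)| ≤ Real.exp ((sb + 1 / 4) * T n) := by
    filter_upwards [hZ, ev_pos hGd.lim, ev_const_le_exp hGd.lim (by norm_num : (0:ℝ) < 1 / 4)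
      (∑ j, |(c j : ℝ)|)] with n hn hT hcn
    have e1 : |(Y n : ℝ)| ≤ ∑ j, |(c j : ℝ)| * Real.exp (sb * T n) := by
      simp only [hY]
      push_cast
      refine (Finset.abs_sum_le_sum_abs _ _).trans (Finset.sum_le_sum fun j _ => ?_)
      rw [abs_mul]
      refine mul_le_mul_of_nonneg_left ((hn j).trans ?_) (abs_nonneg _)
      exact Real.exp_le_exp.mpr (mul_le_mul_of_nonneg_right (hBsb j) hT.le)
    refine e1.trans ?_
    rw [← Finset.sum_mul]
    calc (∑ j, |(c j : ℝ)|) * Real.exp (sb * T n)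
        ≤ Real.exp (1 / 4 * T n) * Real.exp (sb * T n) :=
          mul_le_mul_of_nonneg_right hcn (Real.exp_pos _).le
      _ = Real.exp ((sb + 1 / 4) * T n) := by
          rw [← Real.exp_add]
          ring_nf
  -- the primitive relation
  set Z1 : Fin (d' + 1) → ℕ → ℤ := Fin.cons Y (fun i => Z (f i)) with hZ1
  set H : Fin (d' + 1) → MvPolynomial (Fin r) ℚ := Fin.cons D (fun i => -σ i) with hH
  set B1 : Fin (d' + 1) → ℝ := Fin.cons (sb + 1 / 4) (fun i => B (f i)) with hB1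
  have hH0 : H 0 = D := rfl
  have hHs : ∀ i : Fin d', H i.succ = -σ i := fun i => rfl
  have hZ0 : Z1 0 = Y := rfl
  have hZs : ∀ i : Fin d', Z1 i.succ = Z (f i) := fun i => rfl
  have hB1s : ∑ i, B1 i ≤ 2 * sb + 1 / 4 := by
    rw [Fin.sum_univ_succ]
    have : B1 0 = sb + 1 / 4 := rfl
    have h2 : ∀ i : Fin d', B1 i.succ = B (f i) := fun i => rfl
    rw [this, Finset.sum_congr rfl fun i _ => h2 i]
    linarith
  have key := hS1X U S T r (d' + 1) g Z1 B1 (1 / 4) H hGd
  have hB1n : ∀ i, 0 ≤ B1 i := by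
    intro i
    refine Fin.cases ?_ (fun i => ?_) i
    · show 0 ≤ sb + 1 / 4
      positivity
    · exact hB (f i)
  have hZ1le : ∀ᶠ n in (U : Filter ℕ), ∀ i, |(Z1 i n : ℝ)| ≤ Real.exp (B1 i * T n) := by
    filter_upwards [hZ, hYle] with n hn hYn i
    refine Fin.cases ?_ (fun i => ?_) i
    · exact hYn
    · exact hn (f i)
  have hrel1 : ∀ᶠ n in (U : Filter ℕ), ∑ i, ev g n (H i) * (Z1 i n : ℚ) = 0 := by
    filter_upwards [hYrel] with n hn
    rw [Fin.sum_univ_succ, hH0, hZ0, hn, ← Finset.sum_add_distrib]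
    refine Finset.sum_eq_zero fun i _ => ?_
    rw [hHs, hZs, ev_neg]
    ring
  have hprim1 : ∀ A, (∀ i, A ∣ H i) → IsUnit A := by
    intro A hA
    refine hc1 A (hA 0) fun i => ?_
    have := hA i.succ
    rw [hHs, dvd_neg] at this
    exact this
  have hrank : ∀ G : Fin (d' + 1) → MvPolynomial (Fin r) ℚ,
      (∀ᶠ n in (U : Filter ℕ), ∑ i, ev g n (G i) * (Z1 i n : ℚ) = 0) →
      ∀ i j, G i * H j = G j * H i := by
    intro G hG
    have e1 : (fun i : Fin d' => G 0 * σ i + D * G i.succ) = 0 := by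
      apply hI
      filter_upwards [hG, hYrel] with n hn1 hn2
      rw [Fin.sum_univ_succ, hZ0] at hn1
      have e2 : ∑ i, ev g n (G 0 * σ i + D * G i.succ) * (Z (f i) n : ℚ) =
          ev g n (G 0) * (∑ i, ev g n (σ i) * (Z (f i) n : ℚ)) +
            ev g n D * ∑ i : Fin d', ev g n (G i.succ) * (Z1 i.succ n : ℚ) := by
        rw [Finset.mul_sum, Finset.mul_sum, ← Finset.sum_add_distrib]
        refine Finset.sum_congr rfl fun i _ => ?_
        rw [ev_add, ev_mul, ev_mul, hZs]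
        ring
      rw [e2, ← hn2]
      linear_combination (ev g n D) * hn1
    have e3 : ∀ k, G 0 * H k = D * G k := by
      intro k
      refine Fin.cases ?_ (fun i => ?_) k
      · rw [hH0]
        ring
      · have := congrFun e1 i
        change G 0 * σ i + D * G i.succ = 0 at this
        rw [hHs]
        linear_combination -this
    intro i j
    apply mul_left_cancel₀ hD0
    calc D * (G i * H j) = (D * G i) * H j := by ring
      _ = G 0 * H i * H j := by rw [e3 i]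
      _ = H i * (G 0 * H j) := by ring
      _ = H i * (D * G j) := by rw [e3 j]
      _ = D * (G j * H i) := by ring
  have hht := key hB1n (by norm_num) hZ1le hrel1 hprim1 hrank
  have hht' : ∀ e : ℕ → (Fin r →₀ ℕ), (∀ v ∈ pl S, ∃ i, e v ∈ (H i).support) →
      ∀ᶠ n in (U : Filter ℕ),
        ∏ v ∈ pl S, av v (mon g (e v) n) ≤ Real.exp ((2 * sb + 1) * T n) := by
    intro e he
    filter_upwards [hht e he, ev_pos hGd.lim] with n hn hT
    refine hn.trans (Real.exp_le_exp.mpr (mul_le_mul_of_nonneg_right ?_ hT.le))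
    linarith
  -- the unit of the relation
  obtain ⟨e₁, he₁⟩ : ∃ e, e ∈ D.support :=
    Finset.nonempty_iff_ne_empty.2 (fun hc => hD0 (MvPolynomial.support_eq_empty.1 hc))
  have hμ1 : ∀ n, IsU S (mon g e₁ n) := fun n =>
    isU_prod hS _ _ fun i _ => (hGd.unit i n).pow hS _
  have hallD : ∀ e ∈ D.support, ∀ᶠ n in (U : Filter ℕ), ∀ v ∈ pl S,
      av v (mon g e n) ≤ Real.exp ((2 * sb + 1) * T n) * av v (mon g e₁ n) := fun e he =>
    all_places hS hGd.unit H _ hht' 0 e₁ he₁ 0 e he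
  have hallβ : ∀ j i, ∀ e ∈ (β j i).support, ∀ᶠ n in (U : Filter ℕ), ∀ v ∈ pl S,
      av v (mon g e n) ≤ Real.exp ((2 * sb + 1) * T n) * av v (mon g e₁ n) := by
    intro j i e he
    refine all_places hS hGd.unit H _ hht' 0 e₁ he₁ i.succ e ?_
    rw [hHs, MvPolynomial.support_neg]
    exact hc2 j i e he
  intro t
  obtain ⟨P₀, P, ν, hP₀, hν, hrelt, hb1, hb2⟩ := hD t
  have hexp : ∀ n, (B₀ + 2 * sb + 1) * T n = B₀ * T n + (2 * sb + 1) * T n := by
    intro n
    ring
  refine ⟨D * P₀, fun i => ∑ j, P j * β j i, fun n => ν n * mon g e₁ n,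
    mul_ne_zero hD0 hP₀, fun n => (hν n).mul hS (hμ1 n), ?_, ?_, ?_⟩
  · filter_upwards [hrelt, Filter.eventually_all.2 hrel] with n hn1 hn2
    have e1 : ev g n (D * P₀) * (R t n : ℚ) =
        ∑ j, ev g n (P j) * (ev g n D * (Z j n : ℚ)) := by
      rw [ev_mul]
      calc ev g n D * ev g n P₀ * (R t n : ℚ) = ev g n D * (ev g n P₀ * (R t n : ℚ)) := by ring
        _ = ev g n D * ∑ j, ev g n (P j) * (Z j n : ℚ) := by rw [hn1]
        _ = _ := by
            rw [Finset.mul_sum]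
            refine Finset.sum_congr rfl fun j _ => ?_
            ring
    rw [e1]
    have e2 : ∀ j, ev g n (P j) * (ev g n D * (Z j n : ℚ)) =
        ∑ i, ev g n (P j) * (ev g n (β j i) * (Z (f i) n : ℚ)) := by
      intro j
      rw [hn2 j, Finset.mul_sum]
    rw [Finset.sum_congr rfl fun j _ => e2 j, Finset.sum_comm]
    refine Finset.sum_congr rfl fun i _ => ?_
    rw [ev_sum, Finset.sum_mul]
    refine Finset.sum_congr rfl fun j _ => ?_
    rw [ev_mul]
    ring
  · intro e he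
    obtain ⟨a, ha, b, hb, rfl⟩ := mem_support_mul _ _ _ he
    filter_upwards [hallD a ha, hb1 b hb] with n hn2 hn1 v hv
    have hpp := place_of_mem hS hv
    rw [mon_add, av_mul hpp, av_mul hpp]
    calc av v (mon g a n) * av v (mon g b n)
        ≤ (Real.exp ((2 * sb + 1) * T n) * av v (mon g e₁ n)) *
          (Real.exp (B₀ * T n) * av v (ν n)) :=
          mul_le_mul (hn2 v hv) (hn1 v hv) (av_nonneg _ _)
            (mul_nonneg (Real.exp_pos _).le (av_nonneg _ _))
      _ = Real.exp ((B₀ + 2 * sb + 1) * T n) * (av v (ν n) * av v (mon g e₁ n)) := by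
          rw [hexp, Real.exp_add]
          ring
  · intro i e he
    have h1 := MvPolynomial.support_sum he
    rw [Finset.mem_biUnion] at h1
    obtain ⟨j, -, hj⟩ := h1
    obtain ⟨a, ha, b, hb, rfl⟩ := mem_support_mul _ _ _ hj
    obtain ⟨m, hm⟩ := hb2 j a ha
    refine ⟨m, ?_⟩
    filter_upwards [hm, hallβ j i b hb] with n hn1 hn2 v hv
    have hpp := place_of_mem hS hv
    rw [mon_add, av_mul hpp, ← mul_assoc ((bs t : ℚ) ^ m n), av_mul hpp _ (mon g e₁ n)]
    calc av v (mon g a n) * av v (mon g b n)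
        ≤ (Real.exp (B₀ * T n) * av v ((bs t : ℚ) ^ m n * ν n)) *
          (Real.exp ((2 * sb + 1) * T n) * av v (mon g e₁ n)) :=
          mul_le_mul (hn1 v hv) (hn2 v hv) (av_nonneg _ _)
            (mul_nonneg (Real.exp_pos _).le (av_nonneg _ _))
      _ = Real.exp ((B₀ + 2 * sb + 1) * T n) *
          (av v ((bs t : ℚ) ^ m n * ν n) * av v (mon g e₁ n)) := by
          rw [hexp, Real.exp_add]
          ring

end Pool.Agent.SBL
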