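import Pool.Agent.SBL.Stmts

/-!
# Squad SBL, module GEN: a good integer combination of finitely many rows of polynomials
-/

set_option autoImplicit false

namespace Pool.Agent.SBL

open Filter Pool.Agent.SBT

namespace GEN_

variable {r : ℕ} {J I : Type} [Fintype J]

/-- the linear map which sends coefficients to the combination of column `i` -/
noncomputable def lin (β : J → I → MvPolynomial (Fin r) ℚ) (i : I) :
    (J → ℚ) →ₗ[ℚ] MvPolynomial (Fin r) ℚ :=
  Fintype.linearCombination ℚ (fun j => β j i)

theorem lin_apply (β : J → I → MvPolynomial (Fin r) ℚ) (i : I) (c : J → ℚ) :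
    lin β i c = ∑ j, MvPolynomial.C (c j) * β j i := by
  simp only [lin, Fintype.linearCombination_apply, MvPolynomial.C_mul']

theorem lin_single [DecidableEq J] (β : J → I → MvPolynomial (Fin r) ℚ) (i : I) (j : J) :
    lin β i (Pi.single j 1) = β j i := by
  simp only [lin, Fintype.linearCombination_apply_single, one_smul]

/-- the coefficients for which `q` divides all the combinations -/
noncomputable def V (β : J → I → MvPolynomial (Fin r) ℚ) (q : MvPolynomial (Fin r) ℚ) :
    Subspace ℚ (J → ℚ) where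
  carrier := {c | ∀ i, q ∣ lin β i c}
  add_mem' := by
    intro a b ha hb i
    rw [map_add]
    exact dvd_add (ha i) (hb i)
  zero_mem' := by
    intro i
    rw [map_zero]
    exact dvd_zero _
  smul_mem' := by
    intro t a ha i
    rw [map_smul, MvPolynomial.smul_eq_C_mul]
    exact Dvd.dvd.mul_left (ha i) _

/-- the coefficients for which the coefficient at `e` of the combination of column `i` is zero -/
noncomputable def W (β : J → I → MvPolynomial (Fin r) ℚ) (i : I) (e : Fin r →₀ ℕ) :
    Subspace ℚ (J → ℚ) where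
  carrier := {c | (lin β i c).coeff e = 0}
  add_mem' := by
    intro a b ha hb
    change _ = _ at ha hb ⊢
    rw [map_add, MvPolynomial.coeff_add, ha, hb, add_zero]
  zero_mem' := by
    change _ = _
    rw [map_zero, MvPolynomial.coeff_zero]
  smul_mem' := by
    intro t a ha
    change _ = _ at ha ⊢
    rw [map_smul, MvPolynomial.coeff_smul, ha, smul_zero]

theorem mem_V (β : J → I → MvPolynomial (Fin r) ℚ) (q : MvPolynomial (Fin r) ℚ) (c : J → ℚ) :
    c ∈ V β q ↔ ∀ i, q ∣ lin β i c := Iff.rfl

theorem mem_W (β : J → I → MvPolynomial (Fin r) ℚ) (i : I) (e : Fin r →₀ ℕ) (c : J → ℚ) :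
    c ∈ W β i e ↔ (lin β i c).coeff e = 0 := Iff.rfl

/-- there are rational coefficients outside of all the bad subspaces -/
theorem exists_rat [Fintype I] (D : MvPolynomial (Fin r) ℚ) (β : J → I → MvPolynomial (Fin r) ℚ)
    (hD : ∀ A, A ∣ D → (∀ j i, A ∣ β j i) → IsUnit A) :
    ∃ c : J → ℚ, (∀ q ∈ UniqueFactorizationMonoid.factors D, c ∉ V β q) ∧
      ∀ j i, ∀ e ∈ (β j i).support, c ∉ W β i e := by
  classical
  let s : Finset (Subspace ℚ (J → ℚ)) :=
    ((UniqueFactorizationMonoid.factors D).toFinset.image (V β)) ∪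
      (Finset.univ : Finset (J × I)).biUnion
        (fun p => (β p.1 p.2).support.image (W β p.2))
  have hs : ⊤ ∉ s := by
    intro h
    rcases Finset.mem_union.mp h with h | h
    · obtain ⟨q, hq, hV⟩ := Finset.mem_image.mp h
      have hq' : q ∈ UniqueFactorizationMonoid.factors D := Multiset.mem_toFinset.mp hq
      have hu : IsUnit q := by
        refine hD q (UniqueFactorizationMonoid.dvd_of_mem_factors hq') ?_
        intro j i
        have h1 : (Pi.single j 1 : J → ℚ) ∈ V β q := by
          rw [hV]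
          exact Submodule.mem_top
        have h2 := (mem_V β q _).mp h1 i
        rwa [lin_single] at h2
      exact (UniqueFactorizationMonoid.irreducible_of_factor q hq').not_isUnit hu
    · obtain ⟨p, -, hp⟩ := Finset.mem_biUnion.mp h
      obtain ⟨e, he, hW⟩ := Finset.mem_image.mp hp
      have h1 : (Pi.single p.1 1 : J → ℚ) ∈ W β p.2 e := by
        rw [hW]
        exact Submodule.mem_top
      have h2 := (mem_W β p.2 e _).mp h1
      rw [lin_single] at h2
      exact (MvPolynomial.mem_support_iff.mp he) h2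
  have hne := Subspace.biUnion_ne_univ_of_top_notMem hs
  obtain ⟨c, hc⟩ := (Set.ne_univ_iff_exists_notMem _).mp hne
  refine ⟨c, ?_, ?_⟩
  · intro q hq hcV
    apply hc
    simp only [Set.mem_iUnion]
    refine ⟨V β q, ?_, hcV⟩
    exact Finset.mem_union_left _ (Finset.mem_image_of_mem _ (Multiset.mem_toFinset.mpr hq))
  · intro j i e he hcW
    apply hc
    simp only [Set.mem_iUnion]
    refine ⟨W β i e, ?_, hcW⟩
    refine Finset.mem_union_right _ ?_
    exact Finset.mem_biUnion.mpr ⟨(j, i), Finset.mem_univ _, Finset.mem_image_of_mem _ he⟩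

/-- clearing denominators -/
theorem exists_int (c : J → ℚ) : ∃ (b : ℤ) (c' : J → ℤ), b ≠ 0 ∧
    (fun j => (c' j : ℚ)) = (b : ℚ) • c := by
  obtain ⟨b, hb⟩ := IsLocalization.exist_integer_multiples_of_finite (nonZeroDivisors ℤ) c
  choose c' hc' using hb
  refine ⟨(b : ℤ), c', nonZeroDivisors.ne_zero b.2, ?_⟩
  funext j
  have h := hc' j
  rw [algebraMap_int_eq, eq_intCast, zsmul_eq_mul] at h
  rw [h, Pi.smul_apply, smul_eq_mul]

end GEN_

open GEN_ in
theorem gen_proof : Stmt_GEN := by
  intro r J I _ _ D β hD0 hD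
  obtain ⟨c, hcV, hcW⟩ := exists_rat D β hD
  obtain ⟨b, c', hb, hc'⟩ := exists_int c
  have hb' : (b : ℚ) ≠ 0 := by exact_mod_cast hb
  have key : ∀ i, ∑ j, MvPolynomial.C (c' j : ℚ) * β j i
      = MvPolynomial.C (b : ℚ) * lin β i c := by
    intro i
    have h := lin_apply β i (fun j => (c' j : ℚ))
    rw [← h, hc', map_smul, MvPolynomial.smul_eq_C_mul]
  refine ⟨c', ?_, ?_⟩
  · intro A hAD hA
    by_contra hu
    have hA0 : A ≠ 0 := by
      rintro rfl
      exact hD0 (zero_dvd_iff.mp hAD)
    obtain ⟨p, hp, hpA⟩ := WfDvdMonoid.exists_irreducible_factor hu hA0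
    obtain ⟨q, hq, hpq⟩ := UniqueFactorizationMonoid.exists_mem_factors_of_dvd hD0 hp
      (hpA.trans hAD)
    refine hcV q hq ?_
    rw [mem_V]
    intro i
    have h1 : q ∣ MvPolynomial.C (b : ℚ) * lin β i c := by
      rw [← key i]
      exact (hpq.symm.dvd.trans hpA).trans (hA i)
    have hunit : IsUnit (MvPolynomial.C (b : ℚ) : MvPolynomial (Fin r) ℚ) :=
      (isUnit_iff_ne_zero.mpr hb').map MvPolynomial.C
    exact (hunit.dvd_mul_left).mp h1
  · intro j i e he
    rw [key i, MvPolynomial.mem_support_iff, MvPolynomial.coeff_C_mul]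
    exact mul_ne_zero hb' (fun h => hcW j i e he ((mem_W β i e c).mpr h))

end Pool.Agent.SBL
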