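import Pool.Agent.SBL.Stmts
import Pool.Agent.SBT.SPX

/-!
# GPX: nodes or a period
-/

set_option autoImplicit false

namespace Pool.Agent.SBL

open Filter Pool.Agent.SBT

namespace GPX_

theorem spe_nod (u : ℕ → ℕ) (m X x : ℕ) (h : Spe u m X x) : Nod u m X x := by
  obtain ⟨hx, j, hj, hb, hu⟩ := h
  exact ⟨hx, Or.inl ⟨x, hx, j, hj, rfl, hb.symm, hu⟩⟩

theorem nonnod (u : ℕ → ℕ) (m X z h i j : ℕ) (hzi : z ≤ i) (hij : i < j) (hjh : j ≤ z + h)
    (h0 : blk u m i = blk u m j) (hsp : ∀ x, z ≤ x → x ≤ z + h → ¬ Nod u m X x)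
    (hns : ∀ x, z ≤ x → ¬ Spe u m X x) : ∀ x, z ≤ x → ¬ Nod u m X x := by
  intro x
  induction x using Nat.strong_induction_on with
  | _ x ih =>
    intro hzx
    by_cases hxh : x ≤ z + h
    · exact hsp x hzx hxh
    rintro ⟨hxX, hw⟩
    obtain ⟨t, rfl⟩ : ∃ t, x = j + t := ⟨x - j, by omega⟩
    have h1 : blk u m (i + t) = blk u m (j + t) :=
      SPX_.walk u m X i j hij h0 t (fun t' _ => hns (i + t') (by omega)) (by omega)
    refine ih (i + t) (by omega) (by omega) ⟨by omega, ?_⟩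
    rw [h1]
    exact hw

end GPX_

open GPX_ in
theorem gpx_proof : Stmt_GPX := by
  intro u m X z h hn hz
  by_cases hsp : ∃ x, z ≤ x ∧ x ≤ z + h ∧ Nod u m X x
  · exact Or.inl hsp
  right
  push Not at hsp
  obtain ⟨i, j, hzi, hij, hjh, h0⟩ := SPX_.pigeon u m X z h hn hz
  have hns : ∀ x, z ≤ x → ¬ Spe u m X x :=
    SPX_.nonspe u m X z h i j hzi hij hjh h0
      (fun x h1 h2 h3 => hsp x h1 h2 (spe_nod u m X x h3))
  have hnn : ∀ x, z ≤ x → ¬ Nod u m X x := nonnod u m X z h i j hzi hij hjh h0 hsp hns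
  refine ⟨j - i, by omega, by omega, ?_, hnn⟩
  intro y hy hyX
  have hyi : y + (j - i) = j + (y - i) := by omega
  rw [hyi]
  rcases Nat.lt_or_ge (y - i) m with h1 | h1
  · have h2 := congrFun h0 ⟨y - i, h1⟩
    simp only [blk] at h2
    rw [show i + (y - i) = y by omega] at h2
    exact h2
  · have h2 : blk u m (i + (y - i - m)) = blk u m (j + (y - i - m)) :=
      SPX_.walk u m X i j hij h0 _ (fun t' _ => hns _ (by omega)) (by omega)
    have h3 := SPX_.next u m X _ _ (by omega) (by omega) h2 (hns _ (by omega))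
    rw [show i + (y - i - m) + m = y by omega, show j + (y - i - m) + m = j + (y - i) by omega] at h3
    exact h3

end Pool.Agent.SBL
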