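import Pool.Agent.SBL.Stmts

set_option autoImplicit false

namespace Pool.Agent.SBL

open Finset Pool.Agent.SBT

theorem hmf_proof : Stmt_HMF := by
  classical
  intro u w n X hn
  obtain ⟨E, hE⟩ : ∃ E : Finset ℕ, E = (range (X + n)).filter (fun i => n ≤ i ∧ u i ≠ w i) :=
    ⟨_, rfl⟩
  obtain ⟨A, hA⟩ : ∃ A : Finset (Fin n → ℤ),
      A = (range X).image (fun i => fun j : Fin n => w (i + j)) := ⟨_, rfl⟩
  obtain ⟨G, hG⟩ : ∃ G : Finset ℕ, G = range n ∪ E.biUnion (fun e => Ioc (e - n) e) := ⟨_, rfl⟩
  have e1 : wds w n X = A.card := by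
    rw [wds, ← Set.ncard_coe_finset, hA]
    congr 1
    ext v
    simp only [Set.mem_setOf_eq, coe_image, coe_range, Set.mem_image, Set.mem_Iio]
    constructor
    · rintro ⟨i, hi, h⟩
      exact ⟨i, hi, funext fun j => (h j).symm⟩
    · rintro ⟨i, hi, rfl⟩
      exact ⟨i, hi, fun j => rfl⟩
  have hG2 : G.card ≤ n + n * E.card := by
    rw [hG]
    refine (card_union_le _ _).trans ?_
    rw [card_range]
    have h1 : (E.biUnion (fun e => Ioc (e - n) e)).card ≤ ∑ e ∈ E, (Ioc (e - n) e).card :=
      card_biUnion_le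
    have h2 : ∑ e ∈ E, (Ioc (e - n) e).card ≤ ∑ e ∈ E, n := by
      apply sum_le_sum
      intro e he
      rw [Nat.card_Ioc]
      omega
    rw [sum_const, smul_eq_mul, mul_comm] at h2
    omega
  have hsub : {v : Fin n → ℤ | ∃ i < X, ∀ j : Fin n, v j = u (i + j)} ⊆
      ((A ∪ G.image (fun i => fun j : Fin n => u (i + j)) : Finset (Fin n → ℤ)) :
        Set (Fin n → ℤ)) := by
    rintro v ⟨i, hi, hv⟩
    rw [mem_coe, mem_union]
    by_cases h : ∀ j : Fin n, u (i + j) = w (i + j)
    · left
      rw [hA, mem_image]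
      refine ⟨i, mem_range.2 hi, ?_⟩
      funext j
      rw [hv j, h j]
    · right
      rw [mem_image]
      refine ⟨i, ?_, funext fun j => (hv j).symm⟩
      push Not at h
      obtain ⟨j, hj⟩ := h
      have hj2 := j.2
      rw [hG, mem_union]
      by_cases h0 : i < n
      · exact Or.inl (mem_range.2 h0)
      · right
        rw [mem_biUnion]
        refine ⟨i + j, ?_, ?_⟩
        · rw [hE, mem_filter, mem_range]
          exact ⟨by omega, by omega, hj⟩
        · rw [mem_Ioc]
          omega
  have h1 : wds u n X ≤ (A ∪ G.image (fun i => fun j : Fin n => u (i + j))).card := by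
    rw [wds, ← Set.ncard_coe_finset (A ∪ G.image (fun i => fun j : Fin n => u (i + j)))]
    exact Set.ncard_le_ncard hsub (Finset.finite_toSet _)
  have h2 := card_union_le A (G.image (fun i => fun j : Fin n => u (i + j)))
  have h3 : (G.image (fun i => fun j : Fin n => u (i + j))).card ≤ G.card := card_image_le
  rw [← hE, e1]
  omega

end Pool.Agent.SBL
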