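import Pool.Agent.SBL.LZL

/-!
# HML: distance from the sequences of linear complexity
-/

set_option autoImplicit false

namespace Pool.Agent.SBL

open Filter Pool.Agent.SBT

/-- the windows are disjoint -/
theorem HML_sum (M : ℕ) (hM : 1 ≤ M) (N R i₀ : ℕ) (hR : M ^ R ≤ N) (P : ℕ → Prop)
    [DecidablePred P] :
    ∑ i ∈ Finset.Ico i₀ R,
      ((Finset.range (M ^ (i + 1))).filter (fun j => M ^ i ≤ j ∧ P j)).card ≤
      ((Finset.range N).filter P).card := by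
  rw [← Finset.card_biUnion]
  · apply Finset.card_le_card
    intro j hj
    rw [Finset.mem_biUnion] at hj
    obtain ⟨i, hi, hj⟩ := hj
    rw [Finset.mem_Ico] at hi
    rw [Finset.mem_filter, Finset.mem_range] at hj
    rw [Finset.mem_filter, Finset.mem_range]
    refine ⟨lt_of_lt_of_le hj.1 (le_trans (Nat.pow_le_pow_right hM hi.2) hR), hj.2.2⟩
  · intro x _ y _ hxy
    rw [Function.onFun, Finset.disjoint_left]
    intro j hx hy
    rw [Finset.mem_filter, Finset.mem_range] at hx hy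
    rcases lt_or_gt_of_ne hxy with h | h
    · have : M ^ (x + 1) ≤ M ^ y := Nat.pow_le_pow_right hM h
      omega
    · have : M ^ (y + 1) ≤ M ^ x := Nat.pow_le_pow_right hM h
      omega

/-- the choice of `Λ` -/
theorem HML_choice (c K D : ℝ) (hc : 0 < c) (hK : 0 ≤ K) (hD : 0 ≤ D) :
    ∃ Λ : ℕ, 1 ≤ Λ ∧ (K + 1) * Real.log ((Λ : ℝ) + 1) ≤ c * Λ - D := by
  have h1 := Real.isLittleO_log_id_atTop.bound (show (0 : ℝ) < c / (2 * (K + 1)) by positivity)
  have h2 : Tendsto (fun n : ℕ => (n : ℝ) + 1) atTop atTop :=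
    tendsto_atTop_add_const_right _ _ tendsto_natCast_atTop_atTop
  have h3 := h2.eventually h1
  have h4 : ∀ᶠ n : ℕ in atTop, (D + c / 2) * 2 / c ≤ (n : ℝ) :=
    tendsto_natCast_atTop_atTop.eventually (eventually_ge_atTop _)
  obtain ⟨Λ, ha, hb, hd⟩ := (h3.and (h4.and (eventually_ge_atTop 1))).exists
  refine ⟨Λ, hd, ?_⟩
  have e1 : Real.log ((Λ : ℝ) + 1) ≤ c / (2 * (K + 1)) * ((Λ : ℝ) + 1) := by
    have := ha
    simp only [id] at this
    rw [Real.norm_eq_abs, Real.norm_eq_abs, abs_of_nonneg (by positivity : (0:ℝ) ≤ (Λ:ℝ) + 1)] at this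
    exact le_trans (le_abs_self _) this
  have e2 : (K + 1) * Real.log ((Λ : ℝ) + 1) ≤ c / 2 * ((Λ : ℝ) + 1) := by
    calc (K + 1) * Real.log ((Λ : ℝ) + 1) ≤ (K + 1) * (c / (2 * (K + 1)) * ((Λ : ℝ) + 1)) :=
          mul_le_mul_of_nonneg_left e1 (by positivity)
      _ = c / 2 * ((Λ : ℝ) + 1) := by field_simp
  have e3 : (D + c / 2) * 2 ≤ c * Λ := by
    rw [div_le_iff₀ hc] at hb
    linarith
  linarith

theorem hml_proof (hCPL : Stmt_CPL) (hHMF : Stmt_HMF) : Stmt_HML := by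
  intro a b ξ μ ha hb hab hM w w' C hC K
  obtain ⟨c, hc, h1, _⟩ := hCPL a b ξ μ ha hb hab hM
  obtain ⟨Λ, hΛ, hch⟩ := HML_choice c |K| (2 * |C| + 2) hc (abs_nonneg K) (by positivity)
  obtain ⟨n₀, hn₀⟩ := eventually_atTop.mp (h1 Λ hΛ)
  set M : ℕ := Λ + 1 with hMdef
  have hM2 : 2 ≤ M := by omega
  have hMR : (1 : ℝ) < (M : ℝ) := by exact_mod_cast hM2
  have hlogM : 0 < Real.log (M : ℝ) := Real.log_pos hMR
  -- the first window
  set i₀ : ℕ := n₀ + 1 with hi₀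
  have hpow : ∀ i, i₀ ≤ i → n₀ ≤ M ^ i ∧ 2 ≤ M ^ i := by
    intro i hi
    have : i < M ^ i := Nat.lt_pow_self (by omega)
    omega
  set G : ℝ := c * Λ - (2 * |C| + 2) with hG
  have hchM : (|K| + 1) * Real.log (M : ℝ) ≤ G := by
    have : (M : ℝ) = (Λ : ℝ) + 1 := by rw [hMdef]; push_cast; ring
    rw [this]; exact hch
  have hGpos : 0 ≤ G := le_trans (by positivity) hchM
  have hev : ∀ᶠ N : ℕ in atTop, G * (1 + i₀) ≤ Real.log N ∧ M ^ (i₀ + 1) ≤ N := by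
    refine Filter.Eventually.and ?_ (eventually_ge_atTop _)
    exact (Real.tendsto_log_atTop.comp tendsto_natCast_atTop_atTop).eventually
      (eventually_ge_atTop _)
  filter_upwards [hev] with N hN
  obtain ⟨hN1, hN2⟩ := hN
  have hNpos : 0 < N := lt_of_lt_of_le (by positivity) hN2
  set R : ℕ := Nat.log M N with hR
  have hR1 : M ^ R ≤ N := Nat.pow_log_le_self M (by omega)
  have hR2 : N < M ^ (R + 1) := Nat.lt_pow_succ_log_self (by omega) N
  have hR0 : i₀ + 1 ≤ R := by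
    rw [hR]
    exact (Nat.le_log_iff_pow_le (by omega) (by omega)).mpr hN2
  -- the estimate in each window
  have hwin : ∀ i ∈ Finset.Ico i₀ R,
      G ≤ (((Finset.range (M ^ (i + 1))).filter
          (fun j => M ^ i ≤ j ∧ dg a ξ j ≠ w j)).card : ℝ) +
        (((Finset.range (M ^ (i + 1))).filter
          (fun j => M ^ i ≤ j ∧ dg b ξ j ≠ w' j)).card : ℝ) := by
    intro i hi
    rw [Finset.mem_Ico] at hi
    obtain ⟨hn1, hn2⟩ := hpow i hi.1
    have hle : Λ * M ^ i + M ^ i = M ^ (i + 1) := by rw [hMdef]; ring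
    have e1 := hHMF (dg a ξ) w (M ^ i) (Λ * M ^ i) (by omega)
    have e2 := hHMF (dg b ξ) w' (M ^ i) (Λ * M ^ i) (by omega)
    rw [LZL_wds, hle] at e1 e2
    have e3 := hn₀ (M ^ i) hn1
    obtain ⟨c1, c2⟩ := hC (M ^ i) (Λ * M ^ i) (by omega)
    set F := ((Finset.range (M ^ (i + 1))).filter
          (fun j => M ^ i ≤ j ∧ dg a ξ j ≠ w j)).card with hF
    set F' := ((Finset.range (M ^ (i + 1))).filter
          (fun j => M ^ i ≤ j ∧ dg b ξ j ≠ w' j)).card with hF'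
    have hpos : (0 : ℝ) < ((M ^ i : ℕ) : ℝ) := by
      have : 0 < M ^ i := by omega
      exact_mod_cast this
    have hCC : C * ((M ^ i : ℕ) : ℝ) ≤ |C| * ((M ^ i : ℕ) : ℝ) :=
      mul_le_mul_of_nonneg_right (le_abs_self C) hpos.le
    have e4 : (cnt a ξ (M ^ i) (Λ * M ^ i) : ℝ) ≤
        |C| * (M ^ i : ℕ) + (M ^ i : ℕ) + (M ^ i : ℕ) * (F : ℝ) := by
      have : (cnt a ξ (M ^ i) (Λ * M ^ i) : ℝ) ≤
          (wds w (M ^ i) (Λ * M ^ i) : ℝ) + (M ^ i : ℕ) + (M ^ i : ℕ) * (F : ℝ) := by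
        exact_mod_cast e1
      linarith
    have e5 : (cnt b ξ (M ^ i) (Λ * M ^ i) : ℝ) ≤
        |C| * (M ^ i : ℕ) + (M ^ i : ℕ) + (M ^ i : ℕ) * (F' : ℝ) := by
      have : (cnt b ξ (M ^ i) (Λ * M ^ i) : ℝ) ≤
          (wds w' (M ^ i) (Λ * M ^ i) : ℝ) + (M ^ i : ℕ) + (M ^ i : ℕ) * (F' : ℝ) := by
        exact_mod_cast e2
      linarith
    have e6 : c * ((Λ * M ^ i : ℕ) : ℝ) = ((M ^ i : ℕ) : ℝ) * (c * Λ) := by push_cast; ring
    have e7 : ((M ^ i : ℕ) : ℝ) * (c * Λ) ≤ ((M ^ i : ℕ) : ℝ) * (2 * |C| + 2 + F + F') := by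
      rw [← e6]
      calc c * ((Λ * M ^ i : ℕ) : ℝ) ≤ _ := e3
        _ ≤ (|C| * (M ^ i : ℕ) + (M ^ i : ℕ) + (M ^ i : ℕ) * (F : ℝ)) +
            (|C| * (M ^ i : ℕ) + (M ^ i : ℕ) + (M ^ i : ℕ) * (F' : ℝ)) :=
            add_le_add e4 e5
        _ = ((M ^ i : ℕ) : ℝ) * (2 * |C| + 2 + F + F') := by ring
    have e8 := le_of_mul_le_mul_left e7 hpos
    rw [hG]; linarith
  -- sum
  have hsum := Finset.sum_le_sum hwin
  rw [Finset.sum_const, Finset.sum_add_distrib, Nat.card_Ico, nsmul_eq_mul] at hsum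
  have hs1 : ∑ i ∈ Finset.Ico i₀ R,
      (((Finset.range (M ^ (i + 1))).filter
          (fun j => M ^ i ≤ j ∧ dg a ξ j ≠ w j)).card : ℝ) ≤ ham a ξ w N := by
    have := HML_sum M (by omega) N R i₀ hR1 (fun j => dg a ξ j ≠ w j)
    unfold ham
    exact_mod_cast this
  have hs2 : ∑ i ∈ Finset.Ico i₀ R,
      (((Finset.range (M ^ (i + 1))).filter
          (fun j => M ^ i ≤ j ∧ dg b ξ j ≠ w' j)).card : ℝ) ≤ ham b ξ w' N := by
    have := HML_sum M (by omega) N R i₀ hR1 (fun j => dg b ξ j ≠ w' j)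
    unfold ham
    exact_mod_cast this
  have hcast : ((R - i₀ : ℕ) : ℝ) = (R : ℝ) - i₀ := by
    rw [Nat.cast_sub (by omega)]
  rw [hcast] at hsum
  have hlogN : Real.log N ≤ (R + 1) * Real.log M := by
    have : (N : ℝ) ≤ (M : ℝ) ^ (R + 1) := by exact_mod_cast hR2.le
    have h5 := Real.log_le_log (by exact_mod_cast hNpos) this
    rw [Real.log_pow] at h5
    push_cast at h5
    exact h5
  have hlN0 : 0 ≤ Real.log N := Real.log_natCast_nonneg N
  -- (R + 1) G >= (|K| + 1) log N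
  have hfin : (|K| + 1) * Real.log N ≤ ((R : ℝ) + 1) * G := by
    calc (|K| + 1) * Real.log N ≤ (|K| + 1) * ((R + 1) * Real.log M) :=
          mul_le_mul_of_nonneg_left hlogN (by positivity)
      _ = ((R : ℝ) + 1) * ((|K| + 1) * Real.log M) := by ring
      _ ≤ ((R : ℝ) + 1) * G := mul_le_mul_of_nonneg_left hchM (by positivity)
  have hK : K * Real.log N ≤ |K| * Real.log N := mul_le_mul_of_nonneg_right (le_abs_self K) hlN0
  have : ((R : ℝ) + 1) * G = ((R : ℝ) - i₀) * G + G * (1 + i₀) := by ring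
  nlinarith

end Pool.Agent.SBL
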