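import Pool.Agent.SBL.Stmts

set_option autoImplicit false

namespace Pool.Agent.SBL

open Filter Pool.Agent.SBT

namespace LZF_

theorem mono {k : ℕ} {p : ℕ → ℕ} (h : ∀ j < k, p j < p (j + 1)) :
    ∀ i j, i ≤ j → j ≤ k → p i ≤ p j := by
  intro i j hij
  induction j, hij using Nat.le_induction with
  | base => intro _; exact le_rfl
  | succ j hij ih =>
    intro hj
    exact (ih (by omega)).trans (h j (by omega)).le

/-- the phrase which contains `i` -/
theorem phrase {N k : ℕ} {p : ℕ → ℕ} (h0 : p 0 = 0) (hk : p k = N)
    (i : ℕ) (hi : i < N) : ∃ j < k, p j ≤ i ∧ i < p (j + 1) := by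
  classical
  have hex : ∃ j, i < p j := ⟨k, by omega⟩
  have hm := Nat.find_spec hex
  have hmin := fun m => Nat.find_min (H := hex) (m := m)
  have hpos : Nat.find hex ≠ 0 := by
    intro h1
    rw [h1, h0] at hm
    omega
  have hle : Nat.find hex ≤ k := Nat.find_min' hex (by omega)
  refine ⟨Nat.find hex - 1, by omega, ?_, ?_⟩
  · have := hmin (Nat.find hex - 1) (by omega)
    omega
  · rw [Nat.sub_add_cancel (by omega)]
    exact hm

end LZF_

open LZF_ in
theorem lzf_proof : Stmt_LZF := by
  classical
  intro u N k p hcut n X hn hX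
  obtain ⟨h0, hk, hp⟩ := hcut
  have hlt : ∀ j < k, p j < p (j + 1) := fun j hj => (hp j hj).1
  -- irreducible places
  obtain ⟨I, hI⟩ : ∃ I : Finset ℕ, I = (Finset.range X).filter
    (fun i => ∃ j < k, i < p j ∧ p j ≤ i + n - 1) := ⟨_, rfl⟩
  have hred : ∀ i < X, ∃ i' ∈ I, ∀ t < n, u (i + t) = u (i' + t) := by
    intro i
    induction i using Nat.strong_induction_on with
    | _ i ih =>
      intro hi
      obtain ⟨j, hj, h1, h2⟩ := phrase h0 hk i (by omega)
      by_cases h3 : i + n ≤ p (j + 1)
      · rcases (hp j hj).2 with h4 | ⟨s, hs, h4⟩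
        · omega
        · obtain ⟨i', hi', h5⟩ := ih (i - (p j - s)) (by omega) (by omega)
          refine ⟨i', hi', fun t ht => ?_⟩
          rw [← h5 t ht]
          have h6 := h4 (i - p j + t) (by omega)
          rw [show s + (i - p j + t) = i - (p j - s) + t by omega,
            show p j + (i - p j + t) = i + t by omega] at h6
          exact h6.symm
      · refine ⟨i, ?_, fun t _ => rfl⟩
        rw [hI, Finset.mem_filter, Finset.mem_range]
        refine ⟨hi, j + 1, ?_, h2, by omega⟩
        by_contra h5
        have h6 : j + 1 = k := by omega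
        rw [h6, hk] at h3
        omega
  -- the number of irreducible places
  have hcard : I.card ≤ n + (n - 1) *
      ((Finset.range k).filter (fun j => n < p j ∧ p j < X + n)).card := by
    have hsub : I ⊆ Finset.range n ∪ ((Finset.range k).filter
        (fun j => n < p j ∧ p j < X + n)).biUnion (fun j => Finset.Ico (p j - (n - 1)) (p j)) := by
      intro i hi
      rw [hI, Finset.mem_filter, Finset.mem_range] at hi
      obtain ⟨hiX, j, hj, h1, h2⟩ := hi
      rw [Finset.mem_union, Finset.mem_range, Finset.mem_biUnion]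
      by_cases h3 : p j ≤ n
      · left; omega
      · right
        refine ⟨j, ?_, ?_⟩
        · rw [Finset.mem_filter, Finset.mem_range]
          exact ⟨hj, by omega, by omega⟩
        · rw [Finset.mem_Ico]
          omega
    refine (Finset.card_le_card hsub).trans ((Finset.card_union_le _ _).trans ?_)
    rw [Finset.card_range]
    apply Nat.add_le_add_left
    rw [mul_comm]
    apply Finset.card_biUnion_le_card_mul
    intro j _
    rw [Nat.card_Ico]
    omega
  -- the words
  refine le_trans ?_ hcard
  have hsub : {w : Fin n → ℤ | ∃ i < X, ∀ j : Fin n, w j = u (i + j)} ⊆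
      ((I.image (fun i => fun j : Fin n => u (i + j)) : Finset (Fin n → ℤ)) :
        Set (Fin n → ℤ)) := by
    rintro w ⟨i, hi, hw⟩
    obtain ⟨i', hi', h1⟩ := hred i hi
    rw [Finset.coe_image, Set.mem_image]
    refine ⟨i', hi', funext fun j => ?_⟩
    rw [hw j, h1 j j.2]
  calc wds u n X ≤ (I.image (fun i => fun j : Fin n => u (i + j))).card := by
        rw [← Set.ncard_coe_finset]
        exact Set.ncard_le_ncard hsub (Finset.finite_toSet _)
    _ ≤ I.card := Finset.card_image_le

end Pool.Agent.SBL
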