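import Pool.Agent.SBL.Stmts

/-!
Squad SBL, module MHD: short windows.
-/

set_option autoImplicit false

namespace Pool.Agent.SBL

open Filter Topology Pool.Agent.SBT

namespace MHD_

theorem nbl_zero (u : ℕ → ℕ) (X : ℕ) (hX : 0 < X) : 1 ≤ nbl u 0 X := by
  unfold nbl
  have hfin : (Set.image (blk u 0) (Set.Iio X)).Finite := (Set.finite_Iio X).image _
  rw [Nat.one_le_iff_ne_zero, Ne, Set.ncard_eq_zero hfin]
  exact Set.Nonempty.ne_empty ⟨blk u 0 0, 0, hX, rfl⟩

theorem exists_stop (f : ℕ → ℕ) (h : ℕ) (h0 : 1 ≤ f 0) (hh : f h ≤ h) :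
    ∃ m < h, f (m + 1) ≤ f m := by
  by_contra hc
  push Not at hc
  have key : ∀ j, j ≤ h → j + 1 ≤ f j := by
    intro j
    induction j with
    | zero => intro _; simpa using h0
    | succ j ih =>
      intro hj
      have h1 := ih (by omega)
      have h2 := hc j (by omega)
      omega
  have := key h le_rfl
  omega

theorem mono_of_step (f : ℕ → ℕ) (hf : ∀ j, f j ≤ f (j + 1)) {i j : ℕ} (hij : i ≤ j) :
    f i ≤ f j := monotone_nat_of_le_succ hf hij

end MHD_

open MHD_ in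
theorem mhd_proof (hTYC : Stmt_TYC) (hSPX : Stmt_SPX) (hDGT : Stmt_DGT) : Stmt_MHD := by
  intro b x μ hb hM
  obtain ⟨hd, -, hcnt, hper⟩ := hDGT b x hb
  obtain ⟨c, hc, hM⟩ := hM
  have hb2 : (2 : ℝ) ≤ b := by exact_mod_cast hb
  have hlim : ∀ᶠ n : ℕ in atTop, 2 / (2 : ℝ) ^ (n / (2 * μ + 3)) < c := by
    have h1 : Tendsto (fun n : ℕ => 2 / (2 : ℝ) ^ n) atTop (𝓝 0) :=
      tendsto_const_nhds.div_atTop (tendsto_pow_atTop_atTop_of_one_lt (by norm_num))
    have h2 : Tendsto (fun n : ℕ => n / (2 * μ + 3)) atTop atTop :=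
      Nat.tendsto_div_const_atTop (by omega)
    exact (h1.comp h2).eventually_lt_const hc
  filter_upwards [hlim, eventually_ge_atTop 1] with n hn hn1
  by_contra hcon
  push Not at hcon
  set u : ℕ → ℕ := fun i => (dig b x (i + 1)).toNat with hu_def
  have hu : ∀ i, ((u i : ℕ) : ℤ) = dig b x (i + 1) :=
    fun i => Int.toNat_of_nonneg (hd (i + 1)).1
  set h : ℕ := cnt b x n n with hh_def
  have hh : h = nbl u n n := hcnt n n
  have hrange : (Set.range u).Finite := by
    refine (Set.finite_Iio b).subset ?_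
    rintro _ ⟨i, rfl⟩
    have h1 := (hd (i + 1)).2
    have h2 := hu i
    show u i < b
    omega
  have hstep : ∀ j, nbl u j n ≤ nbl u (j + 1) n := fun j => (hTYC u j n hrange).1
  have hmono : ∀ {i j : ℕ}, i ≤ j → nbl u i n ≤ nbl u j n := fun hij =>
    mono_of_step (fun j => nbl u j n) hstep hij
  have hhn : h ≤ n / (2 * μ + 3) := by
    rw [Nat.le_div_iff_mul_le (by omega)]
    calc h * (2 * μ + 3) = (2 * μ + 3) * h := Nat.mul_comm _ _
      _ ≤ n := hcon.le
  have hkn : (2 * μ + 3) * (n / (2 * μ + 3)) ≤ n := Nat.mul_div_le _ _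
  have h3 : 3 * h ≤ (2 * μ + 3) * h := Nat.mul_le_mul_right h (by omega)
  have hh1 : h ≤ n := by omega
  obtain ⟨m, hmh, hm⟩ := exists_stop (fun j => nbl u j n) h (nbl_zero u n (by omega))
    (by
      show nbl u h n ≤ h
      calc nbl u h n ≤ nbl u n n := hmono hh1
        _ = h := hh.symm)
  have hm' : nbl u (m + 1) n ≤ nbl u m n := hm
  have htyp := (hTYC u m n hrange).2
  have hfin : (blk u (m + 1) '' {i | Spe u m n i}).Finite := by
    refine Set.Finite.image _ ((Set.finite_Iio n).subset ?_)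
    intro i hi
    exact hi.1
  have hempty : blk u (m + 1) '' {i | Spe u m n i} = ∅ := by
    rw [← Set.ncard_eq_zero hfin]
    omega
  have hnospe : ∀ i, ¬ Spe u m n i := by
    intro i hi
    have : blk u (m + 1) i ∈ blk u (m + 1) '' {i | Spe u m n i} := ⟨i, hi, rfl⟩
    rw [hempty] at this
    exact this
  have hmn : nbl u m n ≤ h := by
    rw [hh]
    exact hmono (by omega)
  have hpos : 0 < h := by omega
  have hhlt : 0 + h < n := by omega
  rcases hSPX u m n 0 h hmn hhlt with ⟨y, -, -, hy⟩ | ⟨per, hp1, hp2, hp, -⟩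
  · exact hnospe y hy
  · obtain ⟨p, hp3⟩ := hper h per n hp1 (fun i h1 h2 => by
      have h4 := hp i (by omega) (by omega)
      have h5 := hu i
      have h6 := hu (i + per)
      have h7 : i + 1 + per = i + per + 1 := by ring
      rw [h7, ← h5, ← h6]
      exact_mod_cast h4) (by omega)
    have hbper : 1 < b ^ per := Nat.one_lt_pow (by omega) (by omega)
    have hq0 : 0 < b ^ h * (b ^ per - 1) :=
      Nat.mul_pos (Nat.pow_pos (by omega)) (by omega)
    have h1 := hM (b ^ h * (b ^ per - 1)) p hq0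
    have hcast : ((b ^ h * (b ^ per - 1) : ℕ) : ℝ) = (b : ℝ) ^ h * ((b : ℝ) ^ per - 1) := by
      rw [Nat.cast_mul, Nat.cast_sub hbper.le]
      push_cast
      ring
    rw [hcast] at h1
    have hqle : (b : ℝ) ^ h * ((b : ℝ) ^ per - 1) ≤ (b : ℝ) ^ (2 * h) := by
      calc (b : ℝ) ^ h * ((b : ℝ) ^ per - 1) ≤ (b : ℝ) ^ h * (b : ℝ) ^ per := by
            refine mul_le_mul_of_nonneg_left ?_ (by positivity)
            linarith
        _ = (b : ℝ) ^ (h + per) := (pow_add _ _ _).symm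
        _ ≤ _ := pow_le_pow_right₀ (by linarith) (by omega)
    have hqnn : 0 ≤ (b : ℝ) ^ h * ((b : ℝ) ^ per - 1) := by
      rw [← hcast]
      positivity
    have h2 : c ≤ 2 / (b : ℝ) ^ n * ((b : ℝ) ^ (2 * h)) ^ μ := by
      refine h1.trans (mul_le_mul hp3 (pow_le_pow_left₀ hqnn hqle μ) (by positivity)
        (by positivity))
    have hexp : n / (2 * μ + 3) + 2 * h * μ ≤ n := by
      have e1 : 2 * μ * h ≤ 2 * μ * (n / (2 * μ + 3)) := Nat.mul_le_mul_left _ hhn
      have e2 : (2 * μ + 3) * (n / (2 * μ + 3)) =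
          2 * μ * (n / (2 * μ + 3)) + 3 * (n / (2 * μ + 3)) := by ring
      have e3 : 2 * h * μ = 2 * μ * h := by ring
      omega
    have h4 : 2 / (b : ℝ) ^ n * ((b : ℝ) ^ (2 * h)) ^ μ ≤ 2 / (b : ℝ) ^ (n / (2 * μ + 3)) := by
      rw [div_mul_eq_mul_div, div_le_div_iff₀ (by positivity) (by positivity), ← pow_mul,
        mul_assoc, ← pow_add]
      refine mul_le_mul_of_nonneg_left (pow_le_pow_right₀ (by linarith) ?_) (by norm_num)
      omega
    have h5 : 2 / (b : ℝ) ^ (n / (2 * μ + 3)) ≤ 2 / (2 : ℝ) ^ (n / (2 * μ + 3)) := by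
      apply div_le_div_of_nonneg_left (by norm_num) (by positivity)
      exact pow_le_pow_left₀ (by norm_num) hb2 _
    linarith

end Pool.Agent.SBL
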