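import Pool.Agent.SBL.Stmts

/-!
# PRM: a basis of the integers over the polynomials and primitive relations
-/

set_option autoImplicit false

namespace Pool.Agent.SBL

open Filter Pool.Agent.SBT

namespace PRM_

/-- minimum of a natural-valued function -/
theorem exists_min {α : Type*} (f : α → ℕ) (P : α → Prop) (h : ∃ a, P a) :
    ∃ a, P a ∧ ∀ b, P b → f a ≤ f b := by
  classical
  have h' : ∃ k, ∃ a, P a ∧ f a = k := by
    obtain ⟨a, ha⟩ := h
    exact ⟨f a, a, ha, rfl⟩
  obtain ⟨a, ha, hk⟩ := Nat.find_spec h'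
  refine ⟨a, ha, fun b hb => ?_⟩
  rw [hk]
  exact Nat.find_min' h' ⟨b, hb, rfl⟩

theorem ev_mul {r : ℕ} (g : Fin r → ℕ → ℚ) (n : ℕ) (P Q : MvPolynomial (Fin r) ℚ) :
    ev g n (P * Q) = ev g n P * ev g n Q := by simp [ev]

theorem ev_neg {r : ℕ} (g : Fin r → ℕ → ℚ) (n : ℕ) (P : MvPolynomial (Fin r) ℚ) :
    ev g n (-P) = -ev g n P := by simp [ev]

theorem ev_one {r : ℕ} (g : Fin r → ℕ → ℚ) (n : ℕ) :
    ev g n (1 : MvPolynomial (Fin r) ℚ) = 1 := by simp [ev]

theorem ev_zero {r : ℕ} (g : Fin r → ℕ → ℚ) (n : ℕ) :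
    ev g n (0 : MvPolynomial (Fin r) ℚ) = 0 := by simp [ev]

/-- relation -/
def Rel (U : Ultrafilter ℕ) {r d : ℕ} (g : Fin r → ℕ → ℚ) (Z : Fin d → ℕ → ℤ)
    (H : Fin d → MvPolynomial (Fin r) ℚ) : Prop :=
  ∀ᶠ n in (U : Filter ℕ), ∑ i, ev g n (H i) * (Z i n : ℚ) = 0

/-- the subfamily `W` is independent -/
def IndW (U : Ultrafilter ℕ) {r d : ℕ} (g : Fin r → ℕ → ℚ) (Z : Fin d → ℕ → ℤ)
    (W : Finset (Fin d)) : Prop :=
  ∀ H : Fin d → MvPolynomial (Fin r) ℚ, (∀ j, j ∉ W → H j = 0) → Rel U g Z H → H = 0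

/-- a maximal independent subfamily -/
theorem exists_maxW (U : Ultrafilter ℕ) {r d : ℕ} (g : Fin r → ℕ → ℚ) (Z : Fin d → ℕ → ℤ) :
    ∃ W : Finset (Fin d), IndW U g Z W ∧ ∀ j, j ∉ W → ¬ IndW U g Z (insert j W) := by
  classical
  obtain ⟨W, h1, h2⟩ := exists_min (fun W : Finset (Fin d) => d - W.card)
    (fun W => IndW U g Z W) ⟨∅, fun H hH _ => funext fun j => hH j (Finset.notMem_empty j)⟩
  refine ⟨W, h1, fun j hj hc => ?_⟩
  have h3 := h2 _ hc
  rw [Finset.card_insert_of_notMem hj] at h3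
  have h4 : (insert j W).card ≤ d := by
    have := Finset.card_le_univ (insert j W)
    simpa using this
  rw [Finset.card_insert_of_notMem hj] at h4
  omega

/-- the system: `D ≠ 0` and `D Z j = ∑ β j i Z (f i)` -/
def Sys (U : Ultrafilter ℕ) {r d d' : ℕ} (g : Fin r → ℕ → ℚ) (Z : Fin d → ℕ → ℤ)
    (f : Fin d' → Fin d)
    (x : MvPolynomial (Fin r) ℚ × (Fin d → Fin d' → MvPolynomial (Fin r) ℚ)) : Prop :=
  x.1 ≠ 0 ∧ ∀ j, ∀ᶠ n in (U : Filter ℕ),
    ev g n x.1 * (Z j n : ℚ) = ∑ i, ev g n (x.2 j i) * (Z (f i) n : ℚ)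

/-- a solution without common divisor -/
theorem exists_prim (U : Ultrafilter ℕ) {r d d' : ℕ} (g : Fin r → ℕ → ℚ) (Z : Fin d → ℕ → ℤ)
    (f : Fin d' → Fin d)
    (uni : ∀ H : MvPolynomial (Fin r) ℚ, (∀ᶠ n in (U : Filter ℕ), ev g n H = 0) → H = 0)
    (h : ∃ x, Sys U g Z f x) :
    ∃ (D : MvPolynomial (Fin r) ℚ) (β : Fin d → Fin d' → MvPolynomial (Fin r) ℚ),
      Sys U g Z f (D, β) ∧ ∀ A, A ∣ D → (∀ j i, A ∣ β j i) → IsUnit A := by
  obtain ⟨⟨D, β⟩, ⟨h1, h2⟩, h3⟩ := exists_min
    (fun x : MvPolynomial (Fin r) ℚ × (Fin d → Fin d' → MvPolynomial (Fin r) ℚ) =>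
      x.1.totalDegree) (fun x => Sys U g Z f x) h
  refine ⟨D, β, ⟨h1, h2⟩, ?_⟩
  intro A hA hβ
  obtain ⟨D₁, rfl⟩ := hA
  choose β₁ hβ₁ using hβ
  simp only at h1 h2 h3
  have hA0 : A ≠ 0 := left_ne_zero_of_mul h1
  have hD0 : D₁ ≠ 0 := right_ne_zero_of_mul h1
  have hA1 : ∀ᶠ n in (U : Filter ℕ), ¬ ev g n A = 0 := by
    rw [Ultrafilter.eventually_not]
    intro hc
    exact hA0 (uni A hc)
  have e2 : Sys U g Z f (D₁, β₁) := by
    refine ⟨hD0, fun j => ?_⟩
    filter_upwards [h2 j, hA1] with n hn hn1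
    have h10 : ev g n A * (ev g n D₁ * (Z j n : ℚ)) =
        ev g n A * ∑ i, ev g n (β₁ j i) * (Z (f i) n : ℚ) := by
      rw [← mul_assoc, ← ev_mul, hn, Finset.mul_sum]
      refine Finset.sum_congr rfl fun i _ => ?_
      rw [hβ₁ j i, ev_mul]
      ring
    exact mul_left_cancel₀ hn1 h10
  have e4 := h3 _ e2
  simp only at e4
  rw [MvPolynomial.totalDegree_mul_of_isDomain hA0 hD0] at e4
  have e7 : A.totalDegree = 0 := by omega
  have e8 := MvPolynomial.totalDegree_eq_zero_iff_eq_C.1 e7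
  rw [e8]
  have e9 : MvPolynomial.coeff 0 A ≠ 0 := by
    intro hc
    rw [hc, map_zero] at e8
    exact hA0 e8
  exact (isUnit_iff_ne_zero.2 e9).map MvPolynomial.C

end PRM_

open PRM_

theorem prm_proof (hUNI : Stmt_UNI) : Stmt_PRM := by
  intro U S T r d g Z hGd
  classical
  have uni : ∀ H : MvPolynomial (Fin r) ℚ, (∀ᶠ n in (U : Filter ℕ), ev g n H = 0) → H = 0 :=
    fun H hH => hUNI U S r g hGd.prime hGd.unit hGd.ind H hH
  obtain ⟨W, hW, hmax⟩ := exists_maxW U g Z
  let f : Fin W.card ↪o Fin d := W.orderEmbOfFin rfl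
  have hf1 : ∀ i, f i ∈ W := fun i => Finset.orderEmbOfFin_mem _ _ i
  have hf2 : ∀ j ∈ W, ∃ i, f i = j := by
    intro j hj
    have : j ∈ Set.range f := by
      rw [Finset.range_orderEmbOfFin]
      exact hj
    exact this
  have hsum : ∀ (F : Fin d → ℚ), (∀ j, j ∉ W → F j = 0) → ∑ i, F (f i) = ∑ j, F j := by
    intro F hF
    rw [← Finset.sum_subset (Finset.subset_univ W) fun j _ hj => hF j hj]
    refine Finset.sum_bij (fun i _ => f i) (fun i _ => hf1 i)
      (fun i _ j _ h => f.injective h) (fun j hj => ?_) fun i _ => rfl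
    obtain ⟨i, hi⟩ := hf2 j hj
    exact ⟨i, Finset.mem_univ _, hi⟩
  -- relations for every `j`
  have hrel : ∀ j, ∃ (E : MvPolynomial (Fin r) ℚ)
      (γ : Fin W.card → MvPolynomial (Fin r) ℚ), E ≠ 0 ∧
      ∀ᶠ n in (U : Filter ℕ), ev g n E * (Z j n : ℚ) =
        ∑ i, ev g n (γ i) * (Z (f i) n : ℚ) := by
    intro j
    by_cases hj : j ∈ W
    · obtain ⟨i₀, hi₀⟩ := hf2 j hj
      refine ⟨1, fun i => if i = i₀ then 1 else 0, one_ne_zero, Eventually.of_forall fun n => ?_⟩
      rw [Finset.sum_eq_single i₀]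
      · simp [ev_one, hi₀]
      · intro i _ hi
        simp [hi, ev_zero]
      · intro h
        exact absurd (Finset.mem_univ _) h
    · have h1 := hmax j hj
      unfold IndW at h1
      push Not at h1
      obtain ⟨H, h2, h3, h4⟩ := h1
      refine ⟨H j, fun i => -H (f i), ?_, ?_⟩
      · intro hc
        apply h4
        refine hW H (fun k hk => ?_) h3
        by_cases hkj : k = j
        · rw [hkj, hc]
        · exact h2 k (by simp [hkj, hk])
      · filter_upwards [h3] with n hn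
        have e1 : ∑ i, ev g n (-H (f i)) * (Z (f i) n : ℚ) =
            -∑ i, ev g n (H (f i)) * (Z (f i) n : ℚ) := by
          rw [← Finset.sum_neg_distrib]
          refine Finset.sum_congr rfl fun i _ => ?_
          rw [ev_neg]
          ring
        rw [e1]
        have e2 := hsum (fun k => if k = j then 0 else ev g n (H k) * (Z k n : ℚ)) (by
          intro k hk
          by_cases hkj : k = j
          · simp [hkj]
          · simp only [hkj, if_false]
            rw [h2 k (by simp [hkj, hk]), ev_zero, zero_mul])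
        have e3 : ∑ i, (if f i = j then 0 else ev g n (H (f i)) * (Z (f i) n : ℚ)) =
            ∑ i, ev g n (H (f i)) * (Z (f i) n : ℚ) := by
          refine Finset.sum_congr rfl fun i _ => ?_
          rw [if_neg]
          rintro rfl
          exact hj (hf1 i)
        have e4 : ∑ k, ev g n (H k) * (Z k n : ℚ) =
            ev g n (H j) * (Z j n : ℚ) +
              ∑ k, (if k = j then 0 else ev g n (H k) * (Z k n : ℚ)) := by
          rw [← Finset.add_sum_erase _ _ (Finset.mem_univ j)]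
          congr 1
          rw [← Finset.add_sum_erase Finset.univ
            (fun k => if k = j then (0 : ℚ) else ev g n (H k) * (Z k n : ℚ)) (Finset.mem_univ j)]
          simp only [if_true, zero_add]
          refine Finset.sum_congr rfl fun k hk => ?_
          rw [if_neg (Finset.ne_of_mem_erase hk)]
        rw [e4, ← e2, e3] at hn
        linarith
  choose E γ hE hEγ using hrel
  -- a system
  have hsys : ∃ x, Sys U g Z f x := by
    refine ⟨(∏ j, E j, fun j i => (∏ k ∈ Finset.univ.erase j, E k) * γ j i),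
      (Finset.prod_ne_zero_iff.2 fun j _ => hE j : ∏ j, E j ≠ 0), fun j => ?_⟩
    filter_upwards [hEγ j] with n hn
    show ev g n (∏ j, E j) * (Z j n : ℚ) =
      ∑ i, ev g n ((∏ k ∈ Finset.univ.erase j, E k) * γ j i) * (Z (f i) n : ℚ)
    rw [← Finset.prod_erase_mul Finset.univ E (Finset.mem_univ j), ev_mul, mul_assoc, hn,
      Finset.mul_sum]
    refine Finset.sum_congr rfl fun i _ => ?_
    rw [ev_mul]
    ring
  obtain ⟨D, β, ⟨h1, h2⟩, h3⟩ := exists_prim U g Z f uni hsys
  refine ⟨W.card, f, D, β, f.injective, ?_, h1, h2, h3⟩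
  -- independence
  intro H hH
  have e1 : (fun j => ∑ i, if f i = j then H i else 0) = (0 : Fin d → MvPolynomial (Fin r) ℚ) := by
    refine hW _ (fun j hj => ?_) ?_
    · refine Finset.sum_eq_zero fun i _ => ?_
      rw [if_neg]
      rintro rfl
      exact hj (hf1 i)
    · filter_upwards [hH] with n hn
      rw [← hn, ← hsum]
      · refine Finset.sum_congr rfl fun i _ => ?_
        congr 2
        rw [Finset.sum_eq_single i]
        · simp
        · intro k _ hk
          rw [if_neg]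
          intro hc
          exact hk (f.injective hc)
        · intro h
          exact absurd (Finset.mem_univ _) h
      · intro j hj
        have : (∑ i, if f i = j then H i else 0) = 0 := by
          refine Finset.sum_eq_zero fun i _ => ?_
          rw [if_neg]
          rintro rfl
          exact hj (hf1 i)
        rw [this, ev_zero, zero_mul]
  funext i
  have e2 := congrFun e1 (f i)
  simp only [Pi.zero_apply] at e2
  rw [Finset.sum_eq_single i] at e2
  · simpa using e2
  · intro k _ hk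
    rw [if_neg]
    intro hc
    exact hk (f.injective hc)
  · intro h
    exact absurd (Finset.mem_univ _) h

end Pool.Agent.SBL
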