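import Pool.Agent.SBL.Stmts
import Pool.Agent.SBT.RTN

/-!
# RTX: returns of nodes
-/

set_option autoImplicit false

namespace Pool.Agent.SBL

open Filter Pool.Agent.SBT

namespace RTX_

open Pool.Agent.SBT.RTN_

theorem blk_succ {u : ℕ → ℕ} {m i j : ℕ} (hb : blk u (m + 1) i = blk u (m + 1) j) :
    blk u m i = blk u m j := by
  rw [blk_eq]
  intro s hs
  exact blk_eq.1 hb s (by omega)

theorem nod_of_blk {u : ℕ → ℕ} {m X i j : ℕ} (h : Nod u m X i) (hj : j < X)
    (hb : blk u (m + 1) i = blk u (m + 1) j) : Nod u m X j := by
  refine ⟨hj, ?_⟩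
  rw [← blk_succ hb]
  exact h.2

section

variable {u : ℕ → ℕ} {m X K D : ℕ} {β : ℕ → ℕ}

/-- if the zone of a first return has a period `g` not larger than the return, then `g` is the
return time -/
theorem ret (hβ : ∀ i j, i < j → j < K → β i < β j)
    (hS : ∀ x, Nod u m X x ↔ ∃ k < K, β k = x) {k k' y g : ℕ} (hkk : k < k') (hk' : k' < K)
    (hfirst : ∀ j, k < j → j < k' → blk u (m + 1) (β k) ≠ blk u (m + 1) (β j))
    (hy : β k' + m < y) (hg0 : 1 ≤ g) (hg : g ≤ β k' - β k) (hP : Pd u (β k) y g) :
    g = β k' - β k := by
  have hlt := hβ k k' hkk hk'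
  have hb : blk u (m + 1) (β k) = blk u (m + 1) (β k + g) :=
    blk_of_pd hP le_rfl (by omega)
  have hsp : Nod u m X (β k) := (hS _).2 ⟨k, by omega, rfl⟩
  have hsp' : Nod u m X (β k') := (hS _).2 ⟨k', hk', rfl⟩
  have h2 : Nod u m X (β k + g) := nod_of_blk hsp (by have := hsp'.1; omega) hb
  obtain ⟨j, hj, hj2⟩ := (hS _).1 h2
  have h3 : k < j := lt_of hβ (by omega) (by omega)
  rcases Nat.lt_or_ge j k' with h4 | h4
  · exact absurd (by rw [hj2]; exact hb) (hfirst j h3 h4)
  · have := le_of hβ hj h4
    omega

end

end RTX_

open RTX_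

open Pool.Agent.SBT.RTN_ hiding ret in
theorem rtx_proof (hFWL : Stmt_FWL) : Stmt_RTX := by
  intro u m X K D β hβ hS hD
  refine ⟨?_, ?_, ?_⟩
  · intro k k' l l' hkk hk' hll hl' tk tl tkl dk dl fk fl
    have hk := hβ k k' hkk hk'
    have hl := hβ l l' hll hl'
    have zk := zone hk tk
    have zl := zone hl tl
    -- the period of the zone of l seen in the window at k
    have wk : Pd u (β k) (β k + m + 1) (β l' - β l) := by
      intro i hi hiy
      have h1 := blk_eq.1 tkl (i - β k) (by omega)
      have h2 := blk_eq.1 tkl (i - β k + (β l' - β l)) (by omega)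
      rw [show β k + (i - β k) = i by omega] at h1
      rw [show β k + (i - β k + (β l' - β l)) = i + (β l' - β l) by omega] at h2
      rw [h1, h2]
      rw [show β l + (i - β k + (β l' - β l)) = β l + (i - β k) + (β l' - β l) by omega]
      exact zl _ (by omega) (by omega)
    have wl : Pd u (β l) (β l + m + 1) (β k' - β k) := by
      intro i hi hiy
      have h1 := blk_eq.1 tkl (i - β l) (by omega)
      have h2 := blk_eq.1 tkl (i - β l + (β k' - β k)) (by omega)
      rw [show β l + (i - β l) = i by omega] at h1
      rw [show β l + (i - β l + (β k' - β k)) = i + (β k' - β k) by omega] at h2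
      rw [← h1, ← h2]
      rw [show β k + (i - β l + (β k' - β k)) = β k + (i - β l) + (β k' - β k) by omega]
      exact zk _ (by omega) (by omega)
    have gk := key hFWL hD (by omega) (by omega) (by omega) (by omega) zk le_rfl
      (by omega) wk
    have gl := key hFWL hD (by omega) (by omega) (by omega) (by omega) zl le_rfl
      (by omega) wl
    have ek := ret hβ hS hkk hk' fk (by omega) (Nat.gcd_pos_of_pos_left _ (by omega))
      (Nat.gcd_le_left _ (by omega)) gk
    have el := ret hβ hS hll hl' fl (by omega) (Nat.gcd_pos_of_pos_left _ (by omega))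
      (Nat.gcd_le_left _ (by omega)) gl
    rw [Nat.gcd_comm] at el
    rw [ek] at el
    omega
  · intro k k' hkk hk' tk dk fk i j hki hij hjk tij
    have hk := hβ k k' hkk hk'
    have zk := zone hk tk
    have hi := le_of hβ (by omega : i < K) hki
    have hj := hβ i j hij (by omega)
    have hj' := hβ j k' hjk hk'
    have zi := zone hj tij
    have gk := key hFWL hD (by omega) (by omega) (p := β j - β i) (by omega) (by omega) zk hi
      (by omega) (fun a ha ha2 => zi a ha (by omega))
    have ek := ret hβ hS hkk hk' fk (by omega) (Nat.gcd_pos_of_pos_left _ (by omega))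
      (Nat.gcd_le_left _ (by omega)) gk
    have := Nat.gcd_le_right (β k' - β k) (n := β j - β i) (by omega)
    omega
  · intro k k' k'' hkk hk'' hkK tk tk'' dk fk
    have hk := hβ k k' hkk (by omega)
    have hkk2 : k < k'' := by omega
    have hk2 := hβ k k'' hkk2 hkK
    have hle := le_of hβ hkK hk''
    have z2 := zone hk2 tk''
    have z1 := zone hk tk
    have gk := key hFWL hD (by omega) (by omega) (p := β k' - β k) (by omega) (by omega) z2
      le_rfl (by omega) (fun a ha ha2 => z1 a ha (by omega))
    have ek := ret hβ hS hkk (by omega) fk (by omega) (Nat.gcd_pos_of_pos_left _ (by omega))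
      (Nat.gcd_le_right _ (by omega)) gk
    rw [ek] at gk
    set q := β k' - β k with hq
    -- the shift
    have main : ∀ l, k ≤ l → l + (k' - k) ≤ k'' → β (l + (k' - k)) = β l + q := by
      intro l hl
      induction l, hl using Nat.le_induction with
      | base =>
        intro _
        rw [show k + (k' - k) = k' by omega]
        omega
      | succ l hl ih =>
        intro hl2
        have ih' := ih (by omega)
        have h1 := hβ (l + (k' - k)) (l + 1 + (k' - k)) (by omega) (by omega)
        have h2 := le_of hβ hkK hl2
        have h3 := hβ l (l + 1) (by omega) (by omega)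
        have h4 := le_of hβ (by omega : l < K) hl
        apply le_antisymm
        · -- β (l+1) + q is special
          have hle2 : β (l + 1) + q ≤ β (l + 1 + (k' - k)) := by
            have hb : blk u (m + 1) (β (l + 1 + (k' - k)) - q) =
                blk u (m + 1) (β (l + 1 + (k' - k)) - q + q) :=
              blk_of_pd gk (by omega) (by omega)
            rw [show β (l + 1 + (k' - k)) - q + q = β (l + 1 + (k' - k)) by omega] at hb
            have hs : Nod u m X (β (l + 1 + (k' - k))) := (hS _).2 ⟨_, by omega, rfl⟩
            have hs2 := nod_of_blk hs (j := β (l + 1 + (k' - k)) - q)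
              (by have := hs.1; omega) hb.symm
            obtain ⟨j, hj, hj2⟩ := (hS _).1 hs2
            have h5 : l < j := lt_of hβ (by omega) (by omega)
            have := le_of hβ hj (show l + 1 ≤ j by omega)
            omega
          have hb : blk u (m + 1) (β (l + 1)) = blk u (m + 1) (β (l + 1) + q) :=
            blk_of_pd gk (by omega) (by omega)
          have hs : Nod u m X (β (l + 1)) := (hS _).2 ⟨_, by omega, rfl⟩
          have hs3 : Nod u m X (β k'') := (hS _).2 ⟨_, hkK, rfl⟩
          have hs2 := nod_of_blk hs (j := β (l + 1) + q) (by have := hs3.1; omega) hb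
          obtain ⟨j, hj, hj2⟩ := (hS _).1 hs2
          have h5 : l + (k' - k) < j := lt_of hβ (by omega) (by omega)
          have := le_of hβ hj (show l + 1 + (k' - k) ≤ j by omega)
          omega
        · have hb : blk u (m + 1) (β (l + 1 + (k' - k)) - q) =
              blk u (m + 1) (β (l + 1 + (k' - k)) - q + q) :=
            blk_of_pd gk (by omega) (by omega)
          rw [show β (l + 1 + (k' - k)) - q + q = β (l + 1 + (k' - k)) by omega] at hb
          have hs : Nod u m X (β (l + 1 + (k' - k))) := (hS _).2 ⟨_, by omega, rfl⟩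
          have hs2 := nod_of_blk hs (j := β (l + 1 + (k' - k)) - q)
            (by have := hs.1; omega) hb.symm
          obtain ⟨j, hj, hj2⟩ := (hS _).1 hs2
          have h5 : l < j := lt_of hβ (by omega) (by omega)
          have := le_of hβ hj (show l + 1 ≤ j by omega)
          omega
    intro l hl hl2
    have e := main l hl hl2
    rw [e]
    have h2 := le_of hβ hkK hl2
    have h4 := le_of hβ (by omega : l < K) hl
    exact blk_of_pd gk h4 (by omega)

end Pool.Agent.SBL
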