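import Pool.Agent.SBL.Stmts
import Pool.Agent.SBT.S1T

/-!
# S1X: the height of a primitive relation, with individual exponents
-/

set_option autoImplicit false

namespace Pool.Agent.SBL

open Filter Pool.Agent.SBT

namespace S1X_

open Finset Pool.Agent.SBT.S1T_

theorem size {U : Ultrafilter ℕ} {S : Finset ℕ} {T : ℕ → ℝ} {r d : ℕ} {g : Fin r → ℕ → ℚ}
    {Z : Fin d → ℕ → ℤ} {B : Fin d → ℝ} (hG : Gd U S T g) (hB : ∀ i, 0 ≤ B i) (E Emax : Finset (Fin r →₀ ℕ))
    (eM : ℕ → Fin r →₀ ℕ) (iM : ℕ → Fin d) (hE : ∀ v ∈ pl S, ∀ a ∈ E, a + eM v ∈ Emax) (n : ℕ)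
    (hZ : ∀ i, |(Z i n : ℝ)| ≤ Real.exp (B i * T n)) (hT : 0 ≤ T n) :
    (∏ v ∈ pl S, ∏ j ∈ rem E Emax (eM v) (iM v), av v (xs Emax g Z j n)) *
      (∏ v ∈ pl S, av v (mon g (eM v) n)) ^ E.card ≤ Real.exp ((∑ i, B i) * T n) ^ Emax.card := by
  classical
  have hS := hG.prime
  have hU : ∀ f, ∏ v ∈ pl S, av v (mon g f n) = 1 := fun f => (isU_mon hS hG.unit f n).2
  have h1 : ∀ v ∈ pl S, (∏ j ∈ rem E Emax (eM v) (iM v), av v (mon g j.1.1 n)) *
      ∏ a ∈ E, av v (mon g (a + eM v) n) =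
      ∏ j : {f // f ∈ Emax} × Fin d, av v (mon g j.1.1 n) := fun v hv =>
    prod_rem E Emax (eM v) (iM v) (hE v hv) (fun f => av v (mon g f n))
  have h2 : (∏ v ∈ pl S, ∏ j ∈ rem E Emax (eM v) (iM v), av v (mon g j.1.1 n)) *
      (∏ v ∈ pl S, av v (mon g (eM v) n)) ^ E.card = 1 := by
    have e1 : ∏ v ∈ pl S, ∏ a ∈ E, av v (mon g (a + eM v) n) =
        (∏ v ∈ pl S, av v (mon g (eM v) n)) ^ E.card := by
      have : ∀ v ∈ pl S, ∏ a ∈ E, av v (mon g (a + eM v) n) =
          (∏ a ∈ E, av v (mon g a n)) * av v (mon g (eM v) n) ^ E.card := by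
        intro v hv
        rw [← Finset.prod_const, ← Finset.prod_mul_distrib]
        refine Finset.prod_congr rfl fun a _ => ?_
        rw [mon_add, av_mul (place_of_mem hS hv)]
      rw [Finset.prod_congr rfl this, Finset.prod_mul_distrib, Finset.prod_comm]
      simp only [hU, Finset.prod_const_one, one_mul]
      rw [Finset.prod_pow]
    have e2 : ∏ v ∈ pl S, ∏ j : {f // f ∈ Emax} × Fin d, av v (mon g j.1.1 n) = 1 := by
      rw [Finset.prod_comm]
      simp only [hU, Finset.prod_const_one]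
    rw [← e1, ← Finset.prod_mul_distrib, Finset.prod_congr rfl h1, e2]
  have h3 : ∏ v ∈ pl S, ∏ j ∈ rem E Emax (eM v) (iM v), av v (Z j.2 n : ℚ) ≤
      Real.exp ((∑ i, B i) * T n) ^ Emax.card := by
    rw [prod_pl hS]
    have e1 : ∏ p ∈ S, ∏ j ∈ rem E Emax (eM p) (iM p), av p (Z j.2 n : ℚ) ≤ 1 := by
      apply Finset.prod_le_one
      · intro p _
        exact Finset.prod_nonneg fun j _ => av_nonneg _ _
      · intro p hp
        apply Finset.prod_le_one
        · intro j _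
          exact av_nonneg _ _
        · intro j _
          exact av_int_le_one (hS p hp) _
    have e2 : ∏ j ∈ rem E Emax (eM 0) (iM 0), av 0 (Z j.2 n : ℚ) ≤
        Real.exp ((∑ i, B i) * T n) ^ Emax.card := by
      have h5 : ∏ j ∈ rem E Emax (eM 0) (iM 0), av 0 (Z j.2 n : ℚ) ≤
          ∏ j ∈ rem E Emax (eM 0) (iM 0), Real.exp (B j.2 * T n) := by
        apply Finset.prod_le_prod
        · intro j _
          exact av_nonneg _ _
        · intro j _
          rw [av_zero_eq, Rat.cast_intCast]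
          exact hZ _
      have h6 : ∏ j ∈ rem E Emax (eM 0) (iM 0), Real.exp (B j.2 * T n) ≤
          ∏ j : {f // f ∈ Emax} × Fin d, Real.exp (B j.2 * T n) := by
        apply Finset.prod_le_prod_of_subset_of_one_le (Finset.subset_univ _)
        · intro j _
          exact (Real.exp_pos _).le
        · intro j _ _
          exact Real.one_le_exp (mul_nonneg (hB _) hT)
      have h7 : ∏ j : {f // f ∈ Emax} × Fin d, Real.exp (B j.2 * T n) =
          Real.exp ((∑ i, B i) * T n) ^ Emax.card := by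
        rw [Fintype.prod_prod_type]
        change ∏ _x : {f // f ∈ Emax}, ∏ y : Fin d, Real.exp (B y * T n) = _
        rw [Finset.prod_const, Finset.card_univ, Fintype.card_coe,
          ← Real.exp_sum, Finset.sum_mul]
      exact (h5.trans h6).trans h7.le
    calc (∏ j ∈ rem E Emax (eM 0) (iM 0), av 0 (Z j.2 n : ℚ)) *
        ∏ p ∈ S, ∏ j ∈ rem E Emax (eM p) (iM p), av p (Z j.2 n : ℚ)
        ≤ Real.exp ((∑ i, B i) * T n) ^ Emax.card * 1 :=
          mul_le_mul e2 e1 (Finset.prod_nonneg fun p _ => Finset.prod_nonneg fun j _ =>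
            av_nonneg _ _) (by positivity)
      _ = _ := mul_one _
  have h4 : ∏ v ∈ pl S, ∏ j ∈ rem E Emax (eM v) (iM v), av v (xs Emax g Z j n) =
      (∏ v ∈ pl S, ∏ j ∈ rem E Emax (eM v) (iM v), av v (mon g j.1.1 n)) *
        ∏ v ∈ pl S, ∏ j ∈ rem E Emax (eM v) (iM v), av v (Z j.2 n : ℚ) := by
    rw [← Finset.prod_mul_distrib]
    refine Finset.prod_congr rfl fun v hv => ?_
    rw [← Finset.prod_mul_distrib]
    refine Finset.prod_congr rfl fun j _ => ?_
    unfold xs
    rw [av_mul (place_of_mem hS hv)]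
  rw [h4, mul_right_comm, h2, one_mul]
  exact h3

end S1X_

/-- the height of a primitive relation -/
theorem s1x_proof (hSBB : Stmt_SBB) (hSIM : Stmt_SIM) (hVOR : Stmt_VOR) (hLTM : Stmt_LTM) :
    Stmt_S1X := by
  classical
  intro U S T r d g Z B δ H hG hB hδ hZ hrel hprim hprop e he
  have hS := hG.prime
  -- the orders and the leading exponents
  have hord : ∀ v, ∃ (lt : (Fin r →₀ ℕ) → (Fin r →₀ ℕ) → Prop) (eM : Fin r →₀ ℕ) (iM : Fin d),
      v ∈ pl S → IsStrictTotalOrder (Fin r →₀ ℕ) lt ∧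
        (∀ e e' f, lt e e' → lt (e + f) (e' + f)) ∧
        (∀ e e', lt e e' → ∀ᶠ n in (U : Filter ℕ), av v (mon g e n) ≤ av v (mon g e' n)) ∧
        eM ∈ (H iM).support ∧ ∀ i, ∀ e' ∈ (H i).support, e' = eM ∨ lt e' eM := by
    intro v
    obtain ⟨i0, -⟩ := he 0 (zero_mem_pl S)
    by_cases hv : v ∈ pl S
    · obtain ⟨lt, hlt, hadd, hav⟩ := hVOR U v r g (place_of_mem hS hv) (fun i n => (hG.unit i n).1)
      obtain ⟨i1, hi1⟩ := he v hv
      obtain ⟨eM, heM, hmax⟩ := S1T_.exists_max lt hlt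
        (Finset.univ.biUnion fun i => (H i).support)
        ⟨e v, Finset.mem_biUnion.2 ⟨i1, Finset.mem_univ _, hi1⟩⟩
      obtain ⟨iM, -, hiM⟩ := Finset.mem_biUnion.1 heM
      exact ⟨lt, eM, iM, fun _ => ⟨hlt, hadd, hav, hiM, fun i e' he' =>
        hmax e' (Finset.mem_biUnion.2 ⟨i, Finset.mem_univ _, he'⟩)⟩⟩
    · exact ⟨fun _ _ => False, 0, i0, fun h => absurd h hv⟩
  choose lt eM iM hdat using hord
  -- a form of maximal degree
  obtain ⟨i0, hi0⟩ := he 0 (zero_mem_pl S)
  obtain ⟨i₁, -, hi₁⟩ := Finset.exists_max_image (Finset.univ : Finset (Fin d))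
    (fun i => (H i).totalDegree) ⟨i0, Finset.mem_univ _⟩
  obtain ⟨i₁, hi₁, hi₁0⟩ : ∃ i₁, (∀ i, (H i).totalDegree ≤ (H i₁).totalDegree) ∧ H i₁ ≠ 0 := by
    by_cases h0 : H i₁ = 0
    · refine ⟨i0, fun i => ?_, ?_⟩
      · refine (hi₁ i (Finset.mem_univ _)).trans ?_
        rw [h0]
        simp
      · intro h
        rw [h] at hi0
        simp at hi0
    · exact ⟨i₁, fun i => hi₁ i (Finset.mem_univ _), h0⟩
  obtain ⟨m, hm⟩ : ∃ m, m = (H i₁).totalDegree := ⟨_, rfl⟩
  obtain ⟨A, hA⟩ : ∃ A : ℝ, A = ∑ i, B i := ⟨_, rfl⟩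
  have hA0 : 0 ≤ A := by
    rw [hA]
    exact Finset.sum_nonneg fun i _ => hB i
  obtain ⟨δ', hδ', hδ'2⟩ : ∃ δ' : ℝ, 0 < δ' ∧ A * δ' ≤ δ / 2 := by
    refine ⟨δ / (2 * (A + 1)), by positivity, ?_⟩
    rw [mul_div_assoc', div_le_div_iff₀ (by positivity) (by norm_num)]
    nlinarith
  obtain ⟨h, hh⟩ := hSIM.2 r m δ' hδ'
  have hcard := hh h (le_refl _)
  have hEne : 0 < (Exs r h).card := by
    apply Finset.card_pos.2
    exact ⟨0, (hSIM.1 r h 0).2 (by simp)⟩
  have hEmem : ∀ v ∈ pl S, ∀ a ∈ Exs r h, a + eM v ∈ Exs r (h + m) := by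
    intro v hv a ha
    rw [hSIM.1] at ha ⊢
    have h1 : (H (iM v)).totalDegree ≤ m := by
      rw [hm]
      exact hi₁ _
    have h2 := (S1T_.totalDegree_le_iff m _).1 h1 (eM v) (hdat v hv).2.2.2.1
    simp only [Finsupp.add_apply, Finset.sum_add_distrib]
    omega
  obtain ⟨C, hC⟩ := hG.height
  have hTpos : ∀ᶠ n in (U : Filter ℕ), 0 < T n := ev_pos hG.lim
  -- the Subspace theorem
  have hsub := hSBB S U T ({f // f ∈ Exs r (h + m)} × Fin d) (S1T_.xs (Exs r (h + m)) g Z)
    (fun v => S1T_.rem (Exs r h) (Exs r (h + m)) (eM v) (iM v))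
    (d * (Exs r (h + m)).card - (Exs r h).card) (max C 0 * (h + m) + ∑ i, B i) (δ / 2) hS hG.lim
    (by
      filter_upwards with n
      intro j p hp hpS
      have h1 : SInt S (S1T_.xs (Exs r (h + m)) g Z j n) := by
        unfold S1T_.xs
        exact ((S1T_.isU_mon hS hG.unit _ n).sInt hS).mul (sInt_int S _)
      exact h1 p hp hpS)
    (by
      filter_upwards [hC, hTpos, hZ] with n hn hT hZn
      intro j v hv
      have hv' := place_of_mem hS hv
      unfold S1T_.xs
      rw [av_mul hv']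
      have e1 : av v (mon g j.1.1 n) ≤ Real.exp (max C 0 * (h + m) * T n) := by
        unfold mon
        rw [av_prod hv']
        have : ∀ i ∈ (Finset.univ : Finset (Fin r)), av v (g i n ^ (j.1.1 i)) ≤
            Real.exp (max C 0 * T n) ^ (j.1.1 i) := by
          intro i _
          rw [av_pow hv']
          apply pow_le_pow_left₀ (av_nonneg _ _)
          refine (hn i v hv).trans (Real.exp_le_exp.2 ?_)
          exact mul_le_mul_of_nonneg_right (le_max_left _ _) hT.le
        refine (Finset.prod_le_prod (fun i _ => av_nonneg _ _) this).trans ?_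
        rw [Finset.prod_pow_eq_pow_sum, ← Real.exp_nat_mul]
        apply Real.exp_le_exp.2
        have h1 : ((∑ i, j.1.1 i : ℕ) : ℝ) ≤ (h : ℝ) + m := by
          exact_mod_cast (hSIM.1 r (h + m) j.1.1).1 j.1.2
        have h2 : 0 ≤ max C 0 * T n := mul_nonneg (le_max_right _ _) hT.le
        calc ((∑ i, j.1.1 i : ℕ) : ℝ) * (max C 0 * T n) ≤ ((h : ℝ) + m) * (max C 0 * T n) :=
              mul_le_mul_of_nonneg_right h1 h2
          _ = _ := by ring
      have e2 : av v (Z j.2 n : ℚ) ≤ Real.exp ((∑ i, B i) * T n) := by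
        refine ((av_int_le_abs hv' _).trans (hZn _)).trans (Real.exp_le_exp.2 ?_)
        exact mul_le_mul_of_nonneg_right
          (Finset.single_le_sum (f := B) (fun i _ => hB i) (Finset.mem_univ _)) hT.le
      calc av v (mon g j.1.1 n) * av v (Z j.2 n : ℚ)
          ≤ Real.exp (max C 0 * (h + m) * T n) * Real.exp ((∑ i, B i) * T n) :=
            mul_le_mul e1 e2 (av_nonneg _ _) (Real.exp_pos _).le
        _ = _ := by
            rw [← Real.exp_add]
            congr 1
            ring)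
    (by
      intro v hv
      refine ⟨S1T_.li_rem hSIM hLTM hprim hprop h m i₁ hm.symm hi₁0 (lt v) (hdat v hv).1
        (hdat v hv).2.1 (eM v) (iM v) (hdat v hv).2.2.2.1 (hdat v hv).2.2.2.2, ?_⟩
      have := S1T_.card_rem (Exs r h) (Exs r (h + m)) (eM v) (iM v) (hEmem v hv)
      omega)
    (by
      intro B' hB'
      have := S1T_.card_le hSIM hrel h m (fun i => by rw [hm]; exact hi₁ i) i₁ hi₁0 B' hB'
      omega)
    (by positivity)
  -- comparison with the leading exponents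
  have hcmp : ∀ᶠ n in (U : Filter ℕ), ∀ v ∈ pl S, av v (mon g (e v) n) ≤ av v (mon g (eM v) n) := by
    rw [Filter.eventually_all_finset]
    intro v hv
    obtain ⟨i, hi⟩ := he v hv
    rcases (hdat v hv).2.2.2.2 i (e v) hi with h1 | h1
    · filter_upwards with n
      rw [h1]
    · exact (hdat v hv).2.2.1 _ _ h1
  filter_upwards [hsub, hcmp, hZ, hTpos] with n h1 h2 h3 h4
  have h5 := S1X_.size hG hB (Exs r h) (Exs r (h + m)) eM iM hEmem n h3 h4.le
  obtain ⟨W, hW⟩ : ∃ W : ℝ, W = ∏ v ∈ pl S, av v (mon g (eM v) n) := ⟨_, rfl⟩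
  rw [← hW] at h5
  have hW0 : 0 < W := by
    rw [hW]
    exact Finset.prod_pos fun v hv =>
      av_pos (place_of_mem hS hv) (S1T_.isU_mon hS hG.unit _ n).ne_zero
  have h6 : ∏ v ∈ pl S, av v (mon g (e v) n) ≤ W := by
    rw [hW]
    exact Finset.prod_le_prod (fun v _ => av_nonneg _ _) h2
  refine h6.trans ?_
  -- take logarithms
  rw [← hA] at h5 ⊢
  have h7 : Real.exp (-(δ / 2) * T n) * W ^ (Exs r h).card ≤
      Real.exp (A * T n) ^ (Exs r (h + m)).card :=
    (mul_le_mul_of_nonneg_right h1 (by positivity)).trans h5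
  have h8 : -(δ / 2) * T n + (Exs r h).card * Real.log W ≤
      ((Exs r (h + m)).card : ℝ) * (A * T n) := by
    have := Real.log_le_log (by positivity) h7
    rw [Real.log_mul (Real.exp_pos _).ne' (by positivity), Real.log_exp, Real.log_pow,
      ← Real.exp_nat_mul, Real.log_exp] at this
    linarith
  obtain ⟨M, hM⟩ : ∃ M : ℝ, M = (Exs r h).card := ⟨_, rfl⟩
  obtain ⟨M', hM'⟩ : ∃ M' : ℝ, M' = (Exs r (h + m)).card := ⟨_, rfl⟩
  rw [← hM, ← hM'] at h8
  rw [← hM, ← hM'] at hcard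
  have hM1 : 1 ≤ M := by
    rw [hM]
    exact_mod_cast hEne
  have h9 : Real.log W ≤ (A + δ) * T n := by
    have hAT : 0 ≤ A * T n := mul_nonneg hA0 h4.le
    have e1 : M' * (A * T n) ≤ ((1 + δ') * M) * (A * T n) :=
      mul_le_mul_of_nonneg_right hcard hAT
    have e3 : A * δ' * T n * M ≤ δ / 2 * T n * M := by
      apply mul_le_mul_of_nonneg_right _ (by linarith)
      exact mul_le_mul_of_nonneg_right hδ'2 h4.le
    have e4 : δ / 2 * T n ≤ δ / 2 * T n * M := by
      have : 0 ≤ δ / 2 * T n := by positivity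
      nlinarith
    have e2 : M * Real.log W ≤ M * ((A + δ) * T n) := by
      calc M * Real.log W ≤ ((1 + δ') * M) * (A * T n) + δ / 2 * T n := by linarith
        _ = A * T n * M + A * δ' * T n * M + δ / 2 * T n := by ring
        _ ≤ A * T n * M + δ / 2 * T n * M + δ / 2 * T n * M := by linarith
        _ = M * ((A + δ) * T n) := by ring
    exact le_of_mul_le_mul_left e2 (by linarith)
  calc W = Real.exp (Real.log W) := (Real.exp_log hW0).symm
    _ ≤ _ := Real.exp_le_exp.2 h9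

end Pool.Agent.SBL
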