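import Pool.Agent.SBL.Stmts
import Pool.Agent.SBT.S2T

/-!
# SBL, module S2X: a linear form in independent integers is not small, individual exponents
-/

set_option autoImplicit false

namespace Pool.Agent.SBL

open Filter Pool.Agent.SBT

namespace S2X_

open Pool.Agent.SBT.S2Tp

/-- the leading term -/
theorem core (hSBB : Stmt_SBB) (hSIM : Stmt_SIM) (hLTM : Stmt_LTM) (U : Ultrafilter ℕ)
    (S : Finset ℕ) (T : ℕ → ℝ) (r d : ℕ) (g : Fin r → ℕ → ℚ) (Z : Fin d → ℕ → ℤ) (Bi : Fin d → ℝ)
    (δ : ℝ) (D : Fin d → MvPolynomial (Fin r) ℚ) (hG : Gd U S T g) (hBi : ∀ i, 0 ≤ Bi i)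
    (hδ : 0 < δ) (hZi : ∀ᶠ n in (U : Filter ℕ), ∀ i, |(Z i n : ℝ)| ≤ Real.exp (Bi i * T n))
    (hI : Indp U g Z) (lt : (Fin r →₀ ℕ) → (Fin r →₀ ℕ) → Prop)
    (hlt : IsStrictTotalOrder (Fin r →₀ ℕ) lt)
    (hadd : ∀ e e' f, lt e e' → lt (e + f) (e' + f)) (i₀ : Fin d) (a : Fin r →₀ ℕ)
    (ha : a ∈ (D i₀).support) (hmax : ∀ e ∈ (D i₀).support, e = a ∨ lt e a) :
    ∀ᶠ n in (U : Filter ℕ), av 0 (mon g a n) ≤
        Real.exp ((∑ i, Bi i + δ) * T n) * |((∑ i, ev g n (D i) * (Z i n : ℚ) : ℚ) : ℝ)| := by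
  classical
  have hS := hG.prime
  obtain ⟨B, hBdef⟩ : ∃ B : ℝ, B = ∑ i, Bi i := ⟨_, rfl⟩
  have hB : 0 ≤ B := by rw [hBdef]; exact Finset.sum_nonneg fun i _ => hBi i
  have hBle : ∀ i, Bi i ≤ B := by
    intro i
    rw [hBdef]
    exact Finset.single_le_sum (f := Bi) (fun j _ => hBi j) (Finset.mem_univ i)
  have hZ : ∀ᶠ n in (U : Filter ℕ), ∀ i, |(Z i n : ℝ)| ≤ Real.exp (B * T n) := by
    filter_upwards [hZi, ev_pos hG.lim] with n h1 h2 i
    exact (h1 i).trans (Real.exp_le_exp.mpr (mul_le_mul_of_nonneg_right (hBle i) h2.le))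
  rw [← hBdef]
  obtain ⟨q, hq, hqD⟩ := exq D
  obtain ⟨m, hm⟩ : ∃ m : ℕ, ∀ i, ∀ e ∈ (D i).support, ∑ j, e j ≤ m := by
    refine ⟨Finset.univ.sup fun i => (D i).support.sup fun e => ∑ j, e j, fun i e he => ?_⟩
    exact (Finset.le_sup (f := fun e : Fin r →₀ ℕ => ∑ j, e j) he).trans
      (Finset.le_sup (f := fun i => (D i).support.sup fun e : Fin r →₀ ℕ => ∑ j, e j)
        (Finset.mem_univ i))
  set δ' : ℝ := δ / (4 * (B + 1)) with hδ'
  have hδ'p : 0 < δ' := by positivity
  obtain ⟨h, hh⟩ := hSIM.2 r m δ' hδ'p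
  have hcard := hh h le_rfl
  set E := Exs r (h + m) with hE
  set F := Exs r h with hF
  have hEm : ∀ e, e ∈ E ↔ ∑ i, e i ≤ h + m := fun e => hSIM.1 r (h + m) e
  have hFm : ∀ e, e ∈ F ↔ ∑ i, e i ≤ h := fun e => hSIM.1 r h e
  have hFpos : 0 < F.card := by
    refine Finset.card_pos.mpr ⟨0, (hFm 0).mpr (by simp)⟩
  -- the coefficients
  set A : (Fin d × {e // e ∈ E}) ⊕ {f // f ∈ F} → (Fin d × {e // e ∈ E}) → ℚ :=
    Sum.elim (fun k k' => if k' = k then 1 else 0)
      (fun f k => MvPolynomial.coeff k.2.1 (MvPolynomial.monomial f.1 (q : ℚ) * D k.1)) with hA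
  set x : (Fin d × {e // e ∈ E}) ⊕ {f // f ∈ F} → ℕ → ℚ :=
    fun j n => ∑ k, A j k * y E g Z k n with hx
  have hxl : ∀ k n, x (Sum.inl k) n = y E g Z k n := by
    intro k n
    simp [hx, hA]
  have hsub : ∀ (f : {f // f ∈ F}) (i : Fin d),
      (MvPolynomial.monomial f.1 (q : ℚ) * D i).support ⊆ E := by
    intro f i e he
    rw [MvPolynomial.mem_support_iff, MvPolynomial.coeff_monomial_mul'] at he
    by_cases hfe : f.1 ≤ e
    · rw [if_pos hfe] at he
      have h1 : e - f.1 ∈ (D i).support := by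
        rw [MvPolynomial.mem_support_iff]
        exact right_ne_zero_of_mul he
      have h2 := hm i _ h1
      have h3 := (hFm f.1).mp f.2
      rw [hEm]
      have h4 : ∑ j, e j = ∑ j, f.1 j + ∑ j, (e - f.1) j := by
        rw [← Finset.sum_add_distrib]
        refine Finset.sum_congr rfl fun j _ => ?_
        have := hfe j
        rw [Finsupp.tsub_apply]
        omega
      omega
    · rw [if_neg hfe] at he
      exact absurd rfl he
  have hxr : ∀ (f : {f // f ∈ F}) n, x (Sum.inr f) n =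
      (q : ℚ) * mon g f.1 n * ∑ i, ev g n (D i) * (Z i n : ℚ) := by
    intro f n
    have h1 : x (Sum.inr f) n = ∑ i, ev g n (pol (fun k => A (Sum.inr f) k) i) * (Z i n : ℚ) :=
      y_sum g Z (fun k => A (Sum.inr f) k) n
    rw [h1, Finset.mul_sum]
    refine Finset.sum_congr rfl fun i _ => ?_
    have h2 : ev g n (pol (fun k => A (Sum.inr f) k) i) =
        ev g n (MvPolynomial.monomial f.1 (q : ℚ) * D i) := by
      rw [ev_pol, ev_eq g n _ E (hsub f i), ← Finset.sum_coe_sort E]
      rfl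
    rw [h2, ev_mul, ev_monomial]
    ring
  have hAint : ∀ j k, ∃ z : ℤ, A j k = z := by
    rintro (k' | f) k
    · by_cases hk : k = k'
      · exact ⟨1, by simp [hA, hk]⟩
      · exact ⟨0, by simp [hA, hk]⟩
    · simp only [hA, Sum.elim_inr, MvPolynomial.coeff_monomial_mul']
      split
      · exact hqD k.1 _
      · exact ⟨0, by simp⟩
  -- independence
  have hyI : ∀ c : Fin d × {e // e ∈ E} → ℚ,
      (∀ᶠ n in (U : Filter ℕ), ∑ k, c k * y E g Z k n = 0) → ∀ k, c k = 0 :=
    fun c hc k => y_ind hI c hc k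
  have haE : ∀ f : {f // f ∈ F}, a + f.1 ∈ E := by
    intro f
    rw [hEm]
    have h2 := hm i₀ _ ha
    have h3 := (hFm f.1).mp f.2
    have h4 : ∑ j, (a + f.1) j = ∑ j, a j + ∑ j, f.1 j := by
      rw [← Finset.sum_add_distrib]
      rfl
    omega
  set sp : Finset (Fin d × {e // e ∈ E}) :=
    Finset.univ.image (fun f : {f // f ∈ F} => (i₀, (⟨a + f.1, haE f⟩ : {e // e ∈ E}))) with hsp
  have hspinj : Function.Injective
      (fun f : {f // f ∈ F} => ((i₀, (⟨a + f.1, haE f⟩ : {e // e ∈ E})) :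
        Fin d × {e // e ∈ E})) := by
    intro f f' hff
    have h1 : a + f.1 = a + f'.1 := congrArg (fun z => z.2.1) hff
    exact Subtype.ext (add_left_cancel h1)
  have hspcard : sp.card = F.card := by
    rw [hsp, Finset.card_image_of_injective _ hspinj, Finset.card_univ, Fintype.card_coe]
  set B0 : Finset ((Fin d × {e // e ∈ E}) ⊕ {f // f ∈ F}) :=
    (Finset.univ \ sp).disjSum Finset.univ with hB0
  set B1 : Finset ((Fin d × {e // e ∈ E}) ⊕ {f // f ∈ F}) :=
    (Finset.univ : Finset (Fin d × {e // e ∈ E})).disjSum ∅ with hB1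
  have hKcard : Fintype.card (Fin d × {e // e ∈ E}) = d * E.card := by
    rw [Fintype.card_prod, Fintype.card_fin, Fintype.card_coe]
  have hspK : sp.card ≤ d * E.card := by
    rw [← hKcard]
    exact Finset.card_le_univ sp
  have hB0card : B0.card = d * E.card := by
    rw [hB0, Finset.card_disjSum, Finset.card_sdiff_of_subset (Finset.subset_univ sp),
      Finset.card_univ, hKcard, Finset.card_univ, Fintype.card_coe]
    omega
  have hB1card : B1.card = d * E.card := by
    rw [hB1, Finset.card_disjSum, Finset.card_univ, hKcard, Finset.card_empty]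
    omega
  have hLI1 : LI U x B1 := by
    refine LI_of hyI A x (fun j n => rfl) B1 ?_
    intro c hc j hj
    rw [hB1, Finset.mem_disjSum] at hj
    rcases hj with ⟨k, -, rfl⟩ | ⟨f, hf, -⟩
    · have h1 := hc k
      rw [hB1, Finset.sum_disjSum, Finset.sum_empty, add_zero] at h1
      simpa [hA] using h1
    · exact absurd hf (Finset.notMem_empty f)
  have hLI0 : LI U x B0 := by
    refine LI_of hyI A x (fun j n => rfl) B0 ?_
    intro c hc
    have hc' : ∀ k, (∑ k' ∈ Finset.univ \ sp, c (Sum.inl k') * A (Sum.inl k') k) +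
        ∑ f, c (Sum.inr f) * A (Sum.inr f) k = 0 := by
      intro k
      have h1 := hc k
      rw [hB0, Finset.sum_disjSum] at h1
      exact h1
    -- the second part vanishes
    have hr : ∀ f, c (Sum.inr f) = 0 := by
      by_contra hcon
      push Not at hcon
      obtain ⟨f₁, hf₁⟩ := hcon
      set P : MvPolynomial (Fin r) ℚ :=
        ∑ f : {f // f ∈ F}, MvPolynomial.monomial f.1 (c (Sum.inr f)) with hP
      have hPc : ∀ f : {f // f ∈ F}, MvPolynomial.coeff f.1 P = c (Sum.inr f) := by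
        intro f
        rw [hP, MvPolynomial.coeff_sum, Finset.sum_eq_single f]
        · rw [MvPolynomial.coeff_monomial, if_pos rfl]
        · intro e' _ hne
          rw [MvPolynomial.coeff_monomial, if_neg fun h => hne (Subtype.ext h)]
        · intro h
          exact absurd (Finset.mem_univ f) h
      have hPs : ∀ e ∈ P.support, e ∈ F := by
        intro e he
        by_contra hne
        rw [MvPolynomial.mem_support_iff, hP, MvPolynomial.coeff_sum] at he
        apply he
        refine Finset.sum_eq_zero fun f _ => ?_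
        rw [MvPolynomial.coeff_monomial, if_neg]
        rintro rfl
        exact hne f.2
      have hPne : P.support.Nonempty := by
        refine ⟨f₁.1, ?_⟩
        rw [MvPolynomial.mem_support_iff, hPc]
        exact hf₁
      obtain ⟨e, heP, hemax⟩ := exmax hlt P.support hPne
      have heF := hPs e heP
      have h1 := hLTM r lt hlt hadd (D i₀) P a e hmax hemax
      have h2 : MvPolynomial.coeff (a + e) (D i₀ * P) ≠ 0 := by
        rw [h1]
        exact mul_ne_zero (MvPolynomial.mem_support_iff.mp ha)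
          (MvPolynomial.mem_support_iff.mp heP)
      -- evaluate the relation
      set k : Fin d × {e // e ∈ E} := (i₀, ⟨a + e, haE ⟨e, heF⟩⟩) with hk
      have hksp : k ∈ sp := by
        rw [hsp, Finset.mem_image]
        exact ⟨⟨e, heF⟩, Finset.mem_univ _, rfl⟩
      have h3 := hc' k
      have h4 : ∑ k' ∈ Finset.univ \ sp, c (Sum.inl k') * A (Sum.inl k') k = 0 := by
        refine Finset.sum_eq_zero fun k' hk' => ?_
        have h5 : k ≠ k' := by
          rintro rfl
          exact (Finset.mem_sdiff.mp hk').2 hksp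
        simp [hA, h5]
      rw [h4, zero_add] at h3
      have h6 : ∑ f, c (Sum.inr f) * A (Sum.inr f) k =
          q * MvPolynomial.coeff (a + e) (D i₀ * P) := by
        rw [hP, Finset.mul_sum, MvPolynomial.coeff_sum, Finset.mul_sum]
        refine Finset.sum_congr rfl fun f _ => ?_
        have h7 : D i₀ * MvPolynomial.monomial f.1 (c (Sum.inr f)) =
            MvPolynomial.monomial f.1 (c (Sum.inr f)) * D i₀ := mul_comm _ _
        rw [h7, MvPolynomial.coeff_monomial_mul']
        have h8 : A (Sum.inr f) k =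
            if f.1 ≤ a + e then (q : ℚ) * MvPolynomial.coeff (a + e - f.1) (D i₀) else 0 := by
          simp only [hA, Sum.elim_inr, hk]
          rw [MvPolynomial.coeff_monomial_mul']
        rw [h8]
        split <;> ring
      rw [h6] at h3
      have hq0 : (q : ℚ) ≠ 0 := by exact_mod_cast hq.ne'
      exact h2 ((mul_eq_zero.mp h3).resolve_left hq0)
    intro j hj
    rw [hB0, Finset.mem_disjSum] at hj
    rcases hj with ⟨k, hk, rfl⟩ | ⟨f, hf, rfl⟩
    · have h1 := hc' k
      have h2 : ∑ f, c (Sum.inr f) * A (Sum.inr f) k = 0 :=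
        Finset.sum_eq_zero fun f _ => by rw [hr f, zero_mul]
      rw [h2, add_zero, Finset.sum_eq_single k] at h1
      · simpa [hA] using h1
      · intro k' _ hne
        simp [hA, Ne.symm hne]
      · intro h
        exact absurd hk h
    · exact hr f
  -- the Subspace theorem
  obtain ⟨C, hC0, hC⟩ := mon_le hG (h + m)
  have hyle : ∀ᶠ n in (U : Filter ℕ), ∀ k, ∀ v ∈ pl S,
      av v (y E g Z k n) ≤ Real.exp ((C + B) * T n) := by
    filter_upwards [hC, hZ] with n hn hZn k v hv
    have hp := place_of_mem hS hv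
    unfold y
    rw [av_mul hp, add_mul, Real.exp_add]
    refine mul_le_mul (hn k.2.1 ((hEm _).mp k.2.2) v hv) ?_ (av_nonneg _ _)
      (Real.exp_pos _).le
    exact (av_int_le_abs hp _).trans (hZn k.1)
  have hxle := fam_le hS hG.lim (y E g Z) A x (fun j n => rfl) (C + B) hyle
  have hint : ∀ᶠ n in (U : Filter ℕ), ∀ j, ∀ p : ℕ, p.Prime → p ∉ S →
      padicNorm p (x j n) ≤ 1 := by
    refine Filter.Eventually.of_forall fun n j => ?_
    refine SInt.sum _ _ fun k _ => ?_
    obtain ⟨z, hz⟩ := hAint j k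
    rw [hz]
    refine (sInt_int S z).mul ?_
    exact ((mon_isU hS hG.unit _ _).sInt hS).mul (sInt_int S _)
  have hsbb := hSBB S U T ((Fin d × {e // e ∈ E}) ⊕ {f // f ∈ F}) x
    (fun v => if v = 0 then B0 else B1) (d * E.card) (C + B + 1) (δ / 4) hS hG.lim hint hxle
    (by
      intro v _
      by_cases hv0 : v = 0
      · simp only [hv0, if_true]
        exact ⟨hLI0, hB0card⟩
      · simp only [hv0, if_false]
        exact ⟨hLI1, hB1card⟩)
    (by
      intro B' hB'
      have := LI_card (y E g Z) A x (fun j n => rfl) B' hB'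
      rw [hKcard] at this
      exact this) (by positivity)
  filter_upwards [hsbb, hZi, ev_const_le_exp hG.lim (by positivity : 0 < δ / 4) (q : ℝ),
    ev_pos hG.lim] with n hn hZn hqn hTn
  set Dn : ℝ := |((∑ i, ev g n (D i) * (Z i n : ℚ) : ℚ) : ℝ)| with hDn
  have hDn0 : 0 ≤ Dn := abs_nonneg _
  set G0 : (Fin r →₀ ℕ) → ℝ := fun e => av 0 (mon g e n) with hG0
  have hmne : ∀ e, mon g e n ≠ 0 := fun e => (mon_isU hS hG.unit e n).ne_zero
  have hG0pos : ∀ e, 0 < G0 e := fun e => av_pos (Or.inl rfl) (hmne e)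
  -- the infinite place
  have hinf : ∏ j ∈ B0, av 0 (x j n) ≤
      (∏ k : Fin d × {e // e ∈ E}, G0 k.2.1) *
        (Real.exp (B * T n * E.card) * ((q : ℝ) * Dn / G0 a) ^ F.card) := by
    rw [hB0, Finset.prod_disjSum]
    have h1 : ∏ k ∈ Finset.univ \ sp, av 0 (x (Sum.inl k) n) ≤
        (∏ k ∈ Finset.univ \ sp, G0 k.2.1) * Real.exp (B * T n * E.card) := by
      calc ∏ k ∈ Finset.univ \ sp, av 0 (x (Sum.inl k) n)
          ≤ ∏ k ∈ Finset.univ \ sp, (G0 k.2.1 * Real.exp (Bi k.1 * T n)) := by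
            refine Finset.prod_le_prod (fun k _ => av_nonneg _ _) fun k _ => ?_
            rw [hxl]
            unfold y
            rw [av_mul (Or.inl rfl)]
            refine mul_le_mul_of_nonneg_left ?_ (hG0pos _).le
            exact (av_int_le_abs (Or.inl rfl) _).trans (hZn k.1)
        _ ≤ _ := by
            rw [Finset.prod_mul_distrib]
            refine mul_le_mul_of_nonneg_left ?_ (Finset.prod_nonneg fun k _ => (hG0pos _).le)
            rw [← Real.exp_sum]
            apply Real.exp_le_exp.mpr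
            calc ∑ k ∈ Finset.univ \ sp, Bi k.1 * T n
                ≤ ∑ k : Fin d × {e // e ∈ E}, Bi k.1 * T n :=
                  Finset.sum_le_sum_of_subset_of_nonneg (Finset.subset_univ _)
                    fun k _ _ => mul_nonneg (hBi _) hTn.le
              _ = B * T n * E.card := by
                  rw [Fintype.sum_prod_type]
                  simp only [Finset.sum_const, Finset.card_univ, Fintype.card_coe, nsmul_eq_mul]
                  rw [← Finset.mul_sum, ← Finset.sum_mul, ← hBdef]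
                  ring
    have h2 : ∏ f : {f // f ∈ F}, av 0 (x (Sum.inr f) n) =
        (∏ k ∈ sp, G0 k.2.1) * ((q : ℝ) * Dn / G0 a) ^ F.card := by
      have h3 : ∏ k ∈ sp, G0 k.2.1 = ∏ f : {f // f ∈ F}, (G0 a * G0 f.1) := by
        rw [hsp, Finset.prod_image fun _ _ _ _ h => hspinj h]
        refine Finset.prod_congr rfl fun f _ => ?_
        show av 0 (mon g (a + f.1) n) = _
        rw [mon_add, av_mul (Or.inl rfl)]
      have h4 : ((q : ℝ) * Dn / G0 a) ^ F.card =
          ∏ f : {f // f ∈ F}, ((q : ℝ) * Dn / G0 a) := by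
        rw [Finset.prod_const, Finset.card_univ, Fintype.card_coe]
      rw [h3, h4, ← Finset.prod_mul_distrib]
      refine Finset.prod_congr rfl fun f _ => ?_
      rw [hxr, av_mul (Or.inl rfl), av_mul (Or.inl rfl)]
      have h5 : av 0 (q : ℚ) = q := by
        rw [av_zero_eq]
        simp
      have h6 : av 0 (∑ i, ev g n (D i) * (Z i n : ℚ)) = Dn := av_zero_eq _
      rw [h5, h6]
      have h7 := (hG0pos a).ne'
      show (q : ℝ) * G0 f.1 * Dn = G0 a * G0 f.1 * ((q : ℝ) * Dn / G0 a)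
      field_simp
    rw [h2]
    have h8 : ∏ k : Fin d × {e // e ∈ E}, G0 k.2.1 =
        (∏ k ∈ Finset.univ \ sp, G0 k.2.1) * ∏ k ∈ sp, G0 k.2.1 :=
      (Finset.prod_sdiff (Finset.subset_univ sp)).symm
    rw [h8]
    have h9 : 0 ≤ (∏ k ∈ sp, G0 k.2.1) * ((q : ℝ) * Dn / G0 a) ^ F.card := by
      have : 0 ≤ ∏ k ∈ sp, G0 k.2.1 := Finset.prod_nonneg fun k _ => (hG0pos _).le
      have h10 : 0 ≤ (q : ℝ) * Dn / G0 a := div_nonneg (by positivity) (hG0pos a).le
      positivity
    calc (∏ k ∈ Finset.univ \ sp, av 0 (x (Sum.inl k) n)) *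
          ((∏ k ∈ sp, G0 k.2.1) * ((q : ℝ) * Dn / G0 a) ^ F.card)
        ≤ ((∏ k ∈ Finset.univ \ sp, G0 k.2.1) * Real.exp (B * T n * E.card)) *
          ((∏ k ∈ sp, G0 k.2.1) * ((q : ℝ) * Dn / G0 a) ^ F.card) :=
          mul_le_mul_of_nonneg_right h1 h9
      _ = _ := by ring
  -- the finite places
  have hfin : ∀ p ∈ S, ∏ j ∈ B1, av p (x j n) ≤
      ∏ k : Fin d × {e // e ∈ E}, av p (mon g k.2.1 n) := by
    intro p hp
    have hpp : p.Prime := hS p hp
    rw [hB1, Finset.prod_disjSum, Finset.prod_empty, mul_one]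
    refine Finset.prod_le_prod (fun k _ => av_nonneg _ _) fun k _ => ?_
    rw [hxl]
    unfold y
    rw [av_mul (Or.inr hpp)]
    exact mul_le_of_le_one_right (av_nonneg _ _) (av_int_le_one hpp _)
  have hone : (∏ k : Fin d × {e // e ∈ E}, G0 k.2.1) *
      ∏ p ∈ S, ∏ k : Fin d × {e // e ∈ E}, av p (mon g k.2.1 n) = 1 := by
    rw [← prod_pl hS (fun v => ∏ k : Fin d × {e // e ∈ E}, av v (mon g k.2.1 n)),
      Finset.prod_comm]
    exact Finset.prod_eq_one fun k _ => (mon_isU hS hG.unit k.2.1 n).2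
  have htot : Real.exp (-(δ / 4) * T n) ≤
      Real.exp (B * T n * E.card) * ((q : ℝ) * Dn / G0 a) ^ F.card := by
    refine hn.trans ?_
    rw [prod_pl hS]
    simp only [if_true]
    have h1 : ∏ p ∈ S, ∏ j ∈ (if p = 0 then B0 else B1), av p (x j n) ≤
        ∏ p ∈ S, ∏ k : Fin d × {e // e ∈ E}, av p (mon g k.2.1 n) := by
      refine Finset.prod_le_prod (fun p _ => Finset.prod_nonneg fun j _ => av_nonneg _ _)
        fun p hp => ?_
      rw [if_neg (hS p hp).ne_zero]
      exact hfin p hp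
    have h2 : 0 ≤ ∏ p ∈ S, ∏ j ∈ (if p = 0 then B0 else B1), av p (x j n) :=
      Finset.prod_nonneg fun p _ => Finset.prod_nonneg fun j _ => av_nonneg _ _
    have h10 : 0 ≤ (q : ℝ) * Dn / G0 a := div_nonneg (by positivity) (hG0pos a).le
    have hprodn : 0 ≤ ∏ k : Fin d × {e // e ∈ E}, G0 k.2.1 :=
      Finset.prod_nonneg fun k _ => (hG0pos _).le
    calc (∏ j ∈ B0, av 0 (x j n)) * ∏ p ∈ S, ∏ j ∈ (if p = 0 then B0 else B1), av p (x j n)
        ≤ ((∏ k : Fin d × {e // e ∈ E}, G0 k.2.1) *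
          (Real.exp (B * T n * E.card) * ((q : ℝ) * Dn / G0 a) ^ F.card)) *
          ∏ p ∈ S, ∏ k : Fin d × {e // e ∈ E}, av p (mon g k.2.1 n) :=
          mul_le_mul hinf h1 h2 (by positivity)
      _ = ((∏ k : Fin d × {e // e ∈ E}, G0 k.2.1) *
          ∏ p ∈ S, ∏ k : Fin d × {e // e ∈ E}, av p (mon g k.2.1 n)) *
          (Real.exp (B * T n * E.card) *
            ((q : ℝ) * Dn / G0 a) ^ F.card) := by ring
      _ = _ := by rw [hone, one_mul]
  -- the root
  have hFr : (1 : ℝ) ≤ F.card := by exact_mod_cast hFpos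
  have hroot : Real.exp (-(δ / 4 + B * (1 + δ')) * T n) ≤ (q : ℝ) * Dn / G0 a := by
    have h10 : 0 ≤ (q : ℝ) * Dn / G0 a := div_nonneg (by positivity) (hG0pos a).le
    refine le_of_pow_le_pow_left₀ hFpos.ne' h10 ?_
    have h1 : Real.exp (B * T n * E.card) ≤
        Real.exp (B * (1 + δ') * T n * F.card) := by
      apply Real.exp_le_exp.mpr
      have h3 : 0 ≤ B * T n := mul_nonneg hB hTn.le
      calc B * T n * E.card ≤ B * T n * ((1 + δ') * F.card) :=
            mul_le_mul_of_nonneg_left hcard h3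
        _ = B * (1 + δ') * T n * F.card := by ring
    have h4 : Real.exp (-(δ / 4) * T n) ≤ Real.exp (B * (1 + δ') * T n * F.card) *
        ((q : ℝ) * Dn / G0 a) ^ F.card :=
      htot.trans (mul_le_mul_of_nonneg_right h1 (by positivity))
    rw [← Real.exp_nat_mul]
    have h5 : Real.exp ((F.card : ℝ) * (-(δ / 4 + B * (1 + δ')) * T n)) ≤
        Real.exp (-(δ / 4) * T n) * Real.exp (-(B * (1 + δ') * T n * F.card)) := by
      rw [← Real.exp_add]
      apply Real.exp_le_exp.mpr
      have h6 : 0 ≤ δ / 4 * T n := by positivity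
      nlinarith
    refine h5.trans ?_
    rw [Real.exp_neg, ← div_eq_mul_inv, div_le_iff₀ (Real.exp_pos _)]
    calc Real.exp (-(δ / 4) * T n) ≤ _ := h4
      _ = _ := by ring
  -- conclusion
  have hGa := hG0pos a
  rw [le_div_iff₀ hGa] at hroot
  show G0 a ≤ Real.exp ((B + δ) * T n) * Dn
  have h1 : G0 a ≤ Real.exp ((δ / 4 + B * (1 + δ')) * T n) * ((q : ℝ) * Dn) := by
    have h2 := mul_le_mul_of_nonneg_left hroot
      (Real.exp_pos ((δ / 4 + B * (1 + δ')) * T n)).le
    rw [← mul_assoc, ← Real.exp_add] at h2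
    have h3 : (δ / 4 + B * (1 + δ')) * T n + -(δ / 4 + B * (1 + δ')) * T n = 0 := by
      ring
    rw [h3, Real.exp_zero, one_mul] at h2
    exact h2
  refine h1.trans ?_
  have h4 : B * δ' ≤ δ / 4 := by
    rw [hδ']
    rw [mul_div_assoc', div_le_div_iff₀ (by positivity) (by norm_num)]
    nlinarith
  calc Real.exp ((δ / 4 + B * (1 + δ')) * T n) * ((q : ℝ) * Dn)
      ≤ Real.exp ((δ / 4 + B * (1 + δ')) * T n) * (Real.exp (δ / 4 * T n) * Dn) := by
        refine mul_le_mul_of_nonneg_left ?_ (Real.exp_pos _).le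
        exact mul_le_mul_of_nonneg_right hqn hDn0
    _ = Real.exp ((δ / 4 + B * (1 + δ')) * T n + δ / 4 * T n) * Dn := by
        rw [Real.exp_add]; ring
    _ ≤ Real.exp ((B + δ) * T n) * Dn := by
        refine mul_le_mul_of_nonneg_right ?_ hDn0
        apply Real.exp_le_exp.mpr
        nlinarith

end S2X_

open S2X_ in
/-- module S2X -/
theorem s2x_proof (hSBB : Stmt_SBB) (hSIM : Stmt_SIM) (hVOR : Stmt_VOR) (hLTM : Stmt_LTM) :
    Stmt_S2X := by
  intro U S T r d g Z B δ D hG hB hδ hZ hI i e he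
  obtain ⟨lt, hlt, hadd, hle⟩ := hVOR U 0 r g (Or.inl rfl) fun i n => (hG.unit i n).pos
  obtain ⟨a, ha, hmax⟩ := S2Tp.exmax hlt (D i).support ⟨e, he⟩
  have h1 := core hSBB hSIM hLTM U S T r d g Z B δ D hG hB hδ hZ hI lt hlt hadd i a ha hmax
  rcases hmax e he with rfl | hea
  · exact h1
  · filter_upwards [h1, hle e a hea] with n hn hn2
    exact hn2.trans hn

end Pool.Agent.SBL
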