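import Pool.Agent.SBL.Stmts
import Pool.Agent.SBT.STF

/-!
# Squad SBL, module STL: the structure theorem, linear version
-/

set_option autoImplicit false

namespace Pool.Agent.SBL

open Filter Pool.Agent.SBT

namespace STL_

theorem nbl_mono (hTYL : Stmt_TYL) (u : ℕ → ℕ) (X m j : ℕ) :
    nbl u m X ≤ nbl u (m + j) X := by
  induction j with
  | zero => exact le_refl _
  | succ j ih => exact ih.trans (hTYL u (m + j) X).1

/-- the sum of the gaps of chosen places of different types -/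
theorem sum_gap {E : ℕ} (β : ℕ → ℕ) (ty : ℕ → Fin E) (K₁ B : ℕ)
    (hJ : ∀ J : Finset ℕ, (∀ k ∈ J, k + 1 < K₁) → (∀ k ∈ J, ∀ l ∈ J, ty k = ty l → k = l) →
      ∑ k ∈ J, (β (k + 1) - β k - 1) ≤ B) :
    ∃ kt : Fin E → ℕ, ∃ l : Fin E → ℕ,
      (∀ t, (∃ k, k + 1 < K₁ ∧ ty k = t) →
        kt t + 1 < K₁ ∧ ty (kt t) = t ∧ l t = β (kt t + 1) - β (kt t)) ∧
      ∑ t, l t ≤ B + E := by
  classical
  obtain ⟨kt, hkt⟩ : ∃ kt : Fin E → ℕ, ∀ t, (∃ k, k + 1 < K₁ ∧ ty k = t) →
      kt t + 1 < K₁ ∧ ty (kt t) = t := by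
    refine ⟨fun t => if h : ∃ k, k + 1 < K₁ ∧ ty k = t then h.choose else 0, ?_⟩
    intro t ht
    simp only [dif_pos ht]
    exact ht.choose_spec
  obtain ⟨G, hG⟩ : ∃ G : Finset (Fin E), ∀ t, t ∈ G ↔ ∃ k, k + 1 < K₁ ∧ ty k = t :=
    ⟨Finset.univ.filter (fun t => ∃ k, k + 1 < K₁ ∧ ty k = t), by simp⟩
  refine ⟨kt, fun t => if t ∈ G then β (kt t + 1) - β (kt t) else 0, ?_, ?_⟩
  · intro t ht
    obtain ⟨h1, h2⟩ := hkt t ht
    exact ⟨h1, h2, if_pos ((hG t).2 ht)⟩
  · rw [← Finset.sum_filter]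
    have e1 : Finset.univ.filter (fun t => t ∈ G) = G := by ext t; simp
    rw [e1]
    have h1 : ∑ k ∈ G.image kt, (β (k + 1) - β k - 1) =
        ∑ t ∈ G, (β (kt t + 1) - β (kt t) - 1) := by
      apply Finset.sum_image
      intro t ht t' ht' h
      have g1 := (hkt t ((hG t).1 ht)).2
      have g2 := (hkt t' ((hG t').1 ht')).2
      rw [← g1, ← g2, h]
    have h2 := hJ (G.image kt) (by
      intro k hk
      obtain ⟨t, ht, rfl⟩ := Finset.mem_image.1 hk
      exact (hkt t ((hG t).1 ht)).1) (by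
      intro k hk l hl hkl
      obtain ⟨t, ht, rfl⟩ := Finset.mem_image.1 hk
      obtain ⟨t', ht', rfl⟩ := Finset.mem_image.1 hl
      have g1 := (hkt t ((hG t).1 ht)).2
      have g2 := (hkt t' ((hG t').1 ht')).2
      rw [g1, g2] at hkl
      rw [hkl])
    rw [h1] at h2
    have h3 : ∑ t ∈ G, (β (kt t + 1) - β (kt t)) ≤
        ∑ t ∈ G, ((β (kt t + 1) - β (kt t) - 1) + 1) :=
      Finset.sum_le_sum (fun t _ => by omega)
    rw [Finset.sum_add_distrib, Finset.sum_const, smul_eq_mul, mul_one] at h3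
    have h4 : G.card ≤ E := by
      have := Finset.card_le_univ G
      rwa [Fintype.card_fin] at this
    omega

end STL_

open STL_ STF_ in
theorem stl_proof (hTYL : Stmt_TYL) (hDTN : Stmt_DTN) (hGPX : Stmt_GPX) (hRTX : Stmt_RTX)
    (hARC : Stmt_ARC) (hSTV : Stmt_STV) : Stmt_STL := by
  classical
  refine ⟨30, ?_⟩
  intro C hC
  refine ⟨9 * C + 1 + 1, ?_⟩
  intro Λ
  obtain ⟨N₀, hN₀⟩ := hSTV (9 * C + 1 + 1) (6 * Λ)
  refine ⟨N₀ + 3 * (Λ + (9 * C + 1 + 1)), ?_⟩
  intro a n u P ha hn hu hP hnbl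
  obtain ⟨X, hX⟩ : ∃ X, X = Λ * n := ⟨_, rfl⟩
  rw [← hX] at hnbl ⊢
  have hCn : C ≤ C * n := Nat.le_mul_of_pos_right _ (by omega)
  have hnC : n ≤ C * n := Nat.le_mul_of_pos_left _ (by omega)
  have h8C : 8 * C ≤ C * n := by
    have := Nat.mul_le_mul_left C hn
    omega
  have h30 : 30 * C * n = 30 * (C * n) := by ring
  rw [h30]
  -- the length
  obtain ⟨m, hm1, hm2, hm3⟩ := len_exists (fun m => nbl u m X) C n hn hnbl
  have hm4 : nbl u m X ≤ C * n := by
    obtain ⟨d, rfl⟩ := Nat.exists_eq_add_of_le (Nat.le_of_succ_le hm2)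
    exact (nbl_mono hTYL u X m d).trans hnbl
  -- the enumeration
  obtain ⟨K₁, β, hβ, hSp⟩ := enum_exists (Nod u m X) X (fun x hx => hx.1)
  have hSβ : ∀ k < K₁, Nod u m X (β k) := fun k hk => (hSp _).2 ⟨k, hk, rfl⟩
  have hβX : ∀ k < K₁, β k < X := fun k hk => (hSβ k hk).1
  have hβm : ∀ i j, i ≤ j → j < K₁ → β i ≤ β j := by
    intro i j hij hj
    rcases Nat.eq_or_lt_of_le hij with h | h
    · rw [h]
    · exact (hβ i j h hj).le
  -- a node after `β k` is at least `β (k + 1)`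
  have hnext : ∀ k, k + 1 < K₁ → ∀ x, β k < x → Nod u m X x → β (k + 1) ≤ x := by
    intro k hk x hx hxs
    obtain ⟨k', hk', rfl⟩ := (hSp x).1 hxs
    apply hβm _ _ _ hk'
    by_contra hlt
    have := hβm k' k (by omega) (by omega)
    omega
  have hgap0 : 0 < K₁ → β 0 ≤ C * n := by
    intro hK
    by_cases hc : 0 + C * n < X
    · rcases hGPX u m X 0 (C * n) hm4 hc with ⟨x, hx1, hx2, hx3⟩ | ⟨_, _, _, _, hno⟩
      · obtain ⟨k', hk', rfl⟩ := (hSp x).1 hx3
        have := hβm 0 k' (Nat.zero_le _) hk'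
        omega
      · exact absurd (hSβ 0 hK) (hno _ (Nat.zero_le _))
    · have := hβX 0 hK
      omega
  -- the types
  have hTfin : (blk u (m + 1) '' {i | Nod u m X i}).Finite :=
    ((Set.finite_Iio X).subset (fun x hx => hx.1)).image _
  have hTcard : (blk u (m + 1) '' {i | Nod u m X i}).ncard ≤ 9 * C + 1 := by
    have := (hTYL u m X).2
    omega
  obtain ⟨enc, henc⟩ := enc_exists _ hTfin (9 * C + 1) hTcard (Nat.succ_pos _)
  obtain ⟨ty, hty⟩ : ∃ ty : ℕ → Fin (9 * C + 1), ∀ k, ty k = enc (blk u (m + 1) (β k)) :=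
    ⟨_, fun _ => rfl⟩
  have htyiff : ∀ k k', k < K₁ → k' < K₁ →
      (ty k = ty k' ↔ blk u (m + 1) (β k) = blk u (m + 1) (β k')) := by
    intro k k' hk hk'
    rw [hty, hty]
    constructor
    · intro h
      exact henc ⟨β k, hSβ k hk, rfl⟩ ⟨β k', hSβ k' hk', rfl⟩ h
    · intro h
      rw [h]
  -- the gap depends only on the type
  have hdet1 : ∀ k k', k + 1 < K₁ → k' + 1 < K₁ → ty k = ty k' →
      β (k + 1) + β k' ≤ β (k' + 1) + β k →
      β (k + 1) + β k' = β (k' + 1) + β k ∧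
        P (β (k + 1) + m) - (a : ℤ) ^ (β (k + 1) - β k) * P (β k + m) =
        P (β (k' + 1) + m) - (a : ℤ) ^ (β (k' + 1) - β k') * P (β k' + m) := by
    intro k k' hk hk' hkk hle
    have hb := (htyiff k k' (by omega) (by omega)).1 hkk
    have h1 := hβ k (k + 1) (by omega) hk
    have h2 := hβ k' (k' + 1) (by omega) hk'
    obtain ⟨t, ht⟩ : ∃ t, β (k + 1) = β k + t := ⟨β (k + 1) - β k, by omega⟩
    have hX1 := hβX (k + 1) hk
    have hX2 := hβX (k' + 1) hk'
    obtain ⟨h3, h4⟩ := hDTN u m X (β k) (β k') t hb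
      (by omega) (by omega) (by omega) (by
        intro l hl1 hl2 hl3
        have := hnext k hk (β k + l) (by omega) hl3
        omega)
    have h5 : Nod u m X (β k' + t) := by
      rw [← h4, ← ht]
      exact hSβ (k + 1) hk
    have h6 := hnext k' hk' (β k' + t) (by omega) h5
    have h7 : β (k' + 1) = β k' + t := by omega
    refine ⟨by omega, ?_⟩
    have h8 := val_dep hP (β k + m) (β k' + m) t (by
      intro l hl
      have := congrFun h3 ⟨m + l, by omega⟩
      simp only [blk] at this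
      rw [Nat.add_assoc, Nat.add_assoc]
      exact this)
    rw [ht, h7]
    have e1 : β k + t - β k = t := by omega
    have e2 : β k' + t - β k' = t := by omega
    rw [e1, e2, show β k + t + m = β k + m + t by ring, show β k' + t + m = β k' + m + t by ring]
    exact h8
  have hdet : ∀ k k', k + 1 < K₁ → k' + 1 < K₁ → ty k = ty k' →
      β (k + 1) + β k' = β (k' + 1) + β k ∧
        P (β (k + 1) + m) - (a : ℤ) ^ (β (k + 1) - β k) * P (β k + m) =
        P (β (k' + 1) + m) - (a : ℤ) ^ (β (k' + 1) - β k') * P (β k' + m) := by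
    intro k k' hk hk' hkk
    rcases le_total (β (k + 1) + β k') (β (k' + 1) + β k) with h | h
    · exact hdet1 k k' hk hk' hkk h
    · obtain ⟨h1, h2⟩ := hdet1 k' k hk' hk hkk.symm h
      exact ⟨h1.symm, h2.symm⟩
  have ha0 : (1 : ℤ) ≤ a := by exact_mod_cast (by omega : 1 ≤ a)
  -- the arcs
  obtain ⟨kt, lt, hkt, hsum⟩ := sum_gap β ty K₁ (nbl u m X) (by
    intro J hJ1 hJ2
    exact hARC u m X K₁ β J (by omega) hβ hSp hJ1 (fun k hk l hl h =>
      hJ2 k hk l hl ((htyiff k l (by have := hJ1 k hk; omega)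
        (by have := hJ1 l hl; omega)).2 h)))
  have hvw : ∀ t : Fin (9 * C + 1), ∃ (v : ℕ) (w : ℤ), 1 ≤ v ∧ |w| ≤ (a : ℤ) ^ (lt t) ∧
      ∀ k, k + 1 < K₁ → ty k = t → β (k + 1) = β k + v ∧
        P (β (k + 1) + m) = (a : ℤ) ^ v * P (β k + m) + w := by
    intro t
    by_cases hex : ∃ k, k + 1 < K₁ ∧ ty k = t
    · obtain ⟨hk₀, hk₀t, hlt⟩ := hkt t hex
      obtain ⟨k₀, hk₀e⟩ : ∃ k₀, k₀ = kt t := ⟨_, rfl⟩
      rw [← hk₀e] at hk₀ hk₀t hlt
      have h1 := hβ k₀ (k₀ + 1) (by omega) hk₀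
      refine ⟨β (k₀ + 1) - β k₀,
        P (β (k₀ + 1) + m) - (a : ℤ) ^ (β (k₀ + 1) - β k₀) * P (β k₀ + m), by omega, ?_, ?_⟩
      · rw [hlt]
        obtain ⟨v, hv⟩ : ∃ v, β (k₀ + 1) = β k₀ + v := ⟨β (k₀ + 1) - β k₀, by omega⟩
        obtain ⟨h3, h4⟩ := val_bd hu hP (β k₀ + m) v
        rw [hv, show β k₀ + v - β k₀ = v by omega, show β k₀ + v + m = β k₀ + m + v by ring,
          abs_of_nonneg h3]
        linarith
      · intro k hk hkt'
        obtain ⟨h3, h4⟩ := hdet k k₀ hk hk₀ (hkt'.trans hk₀t.symm)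
        have h5 := hβ k (k + 1) (by omega) hk
        have h6 : β (k + 1) - β k = β (k₀ + 1) - β k₀ := by omega
        refine ⟨by omega, ?_⟩
        rw [← h4, h6]
        ring
    · push Not at hex
      refine ⟨1, 0, le_refl _, ?_, ?_⟩
      · rw [abs_zero]
        positivity
      · intro k hk hkt'
        exact absurd hkt' (hex k hk)
  choose len w hlen1 hw hlenw using hvw
  -- returns
  have hD1 : 2 * (m / 2) ≤ m := by omega
  obtain ⟨D, hD⟩ : ∃ D, D = m / 2 := ⟨_, rfl⟩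
  rw [← hD] at hD1
  obtain ⟨hR1, hR2, hR3⟩ := hRTX u m X K₁ D β hβ hSp hD1
  have hqq : ∀ t : Fin (9 * C + 1), ∃ q : ℕ, 1 ≤ q ∧ q ≤ D ∧
      ∀ k k', k < k' → k' < K₁ → ty k = ty k' → ty k = t → β k' ≤ β k + D →
        (∀ j, k < j → j < k' → ty k ≠ ty j) → β k' = β k + q := by
    intro t
    by_cases hex : ∃ k k', k < k' ∧ k' < K₁ ∧ ty k = ty k' ∧ ty k = t ∧ β k' ≤ β k + D ∧
        (∀ j, k < j → j < k' → ty k ≠ ty j)
    · obtain ⟨l, l', h1, h2, h3, h4, h5, h6⟩ := hex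
      have h7 := hβ l l' h1 h2
      refine ⟨β l' - β l, by omega, by omega, ?_⟩
      intro k k' g1 g2 g3 g4 g5 g6
      have := hR1 k k' l l' g1 g2 h1 h2
        ((htyiff k k' (by omega) g2).1 g3) ((htyiff l l' (by omega) h2).1 h3)
        ((htyiff k l (by omega) (by omega)).1 (g4.trans h4.symm)) g5 h5
        (fun j j1 j2 hj => g6 j j1 j2 ((htyiff k j (by omega) (by omega)).2 hj))
        (fun j j1 j2 hj => h6 j j1 j2 ((htyiff l j (by omega) (by omega)).2 hj))
      omega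
    · refine ⟨1, le_refl _, by omega, ?_⟩
      intro k k' g1 g2 g3 g4 g5 g6
      exact absurd ⟨k, k', g1, g2, g3, g4, g5, g6⟩ hex
  choose q hq1 hqD hq using hqq
  -- the first value
  have hP0 : ∀ t, |P t| ≤ (|P 0| + 1) * (a : ℤ) ^ t := by
    intro t
    obtain ⟨h1, h2⟩ := val_bd hu hP 0 t
    rw [Nat.zero_add] at h1 h2
    have h3 : (0 : ℤ) ≤ (a : ℤ) ^ t := by positivity
    have h4 : |P t| ≤ |(a : ℤ) ^ t * P 0| + |P t - (a : ℤ) ^ t * P 0| := by
      have := abs_add_le ((a : ℤ) ^ t * P 0) (P t - (a : ℤ) ^ t * P 0)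
      simpa using this
    rw [abs_mul, abs_of_nonneg h3, abs_of_nonneg h1] at h4
    nlinarith
  have hy0 : ∃ (y₀ : ℤ) (l₀ : ℕ), |y₀| ≤ (|P 0| + 1) * (a : ℤ) ^ l₀ ∧ l₀ ≤ C * n + n ∧
      (0 < K₁ → y₀ = P (β 0 + m)) := by
    by_cases hK : 0 < K₁
    · refine ⟨P (β 0 + m), β 0 + m, hP0 _, ?_, fun _ => rfl⟩
      have := hgap0 hK
      omega
    · exact ⟨0, 0, by rw [abs_zero]; positivity, Nat.zero_le _, fun h => absurd h hK⟩
  obtain ⟨y₀, l₀, hy₀, hl₀, hy₀'⟩ := hy0
  refine ⟨m, Fin.cons 1 q, Fin.cons l₀ lt, Fin.cons y₀ w, hm1, by omega, ?_, ?_, ?_, ?_, ?_, ?_⟩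
  · intro i
    refine Fin.cases ?_ (fun i => ?_) i
    · rw [Fin.cons_zero]
    · rw [Fin.cons_succ]
      exact hq1 i
  · rw [Fin.sum_univ_succ]
    simp only [Fin.cons_zero, Fin.cons_succ]
    have h1 : ∑ i, q i ≤ ∑ _i : Fin (9 * C + 1), D := Finset.sum_le_sum (fun i _ => hqD i)
    rw [Finset.sum_const, Finset.card_univ, Fintype.card_fin, smul_eq_mul] at h1
    have h2 : (9 * C + 1) * D ≤ (9 * C + 1) * n := Nat.mul_le_mul_left _ (by omega)
    have h3 : (9 * C + 1) * n = 9 * (C * n) + n := by ring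
    omega
  · intro i
    refine Fin.cases ?_ (fun i => ?_) i
    · rw [Fin.cons_zero, Fin.cons_zero]
      exact hy₀
    · rw [Fin.cons_succ, Fin.cons_succ]
      refine (hw i).trans ?_
      have h1 : (0 : ℤ) ≤ (a : ℤ) ^ (lt i) := by positivity
      have h2 : (0 : ℤ) ≤ |P 0| := abs_nonneg _
      nlinarith
  · rw [Fin.sum_univ_succ]
    simp only [Fin.cons_zero, Fin.cons_succ]
    omega
  · intro x hx
    obtain ⟨K, hK, rfl⟩ := (hSp x).1 hx
    have hy : y₀ = P (β 0 + m) := hy₀' (by omega)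
    obtain ⟨F₀, F, hF₀, hF, hFeq⟩ := hN₀ a D X K (X + (9 * C + 1 + 1) * D) (fun k => (ty k).succ) β
      (Fin.cons 0 w) (Fin.cons 1 len) (Fin.cons 1 q) (fun l => P (β l + m)) ha (by omega)
      (by
        have h1 : n ≤ 6 * D := by omega
        have h2 := Nat.mul_le_mul_left Λ h1
        rw [hX]
        calc Λ * n ≤ Λ * (6 * D) := h2
          _ = 6 * Λ * D := by ring)
      (by
        intro i
        refine Fin.cases ?_ (fun i => ?_) i
        · rw [Fin.cons_zero]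
          omega
        · rw [Fin.cons_succ]
          exact ⟨hq1 i, hqD i⟩)
      (by
        intro l hl
        rw [Fin.cons_succ]
        exact (hlenw (ty l) l (by omega) rfl).1)
      (by
        intro l hl
        rw [Fin.cons_succ]
        exact hlen1 _)
      (hβX K hK) (le_refl _)
      (by
        intro l hl
        rw [Fin.cons_succ, Fin.cons_succ]
        exact (hlenw (ty l) l (by omega) rfl).2)
      (by
        intro k k' h1 h2 h3 h4 h5
        have h3' : ty k = ty k' := Fin.succ_injective _ h3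
        have h5' : ∀ j, k < j → j < k' → ty k ≠ ty j := fun j j1 j2 hj =>
          h5 j j1 j2 (congrArg Fin.succ hj)
        refine ⟨?_, ?_⟩
        · rw [Fin.cons_succ]
          exact hq (ty k) k k' h1 (by omega) h3' rfl h4 h5'
        · intro i j i1 i2 i3 hij
          refine hR2 k k' h1 (by omega) ((htyiff k k' (by omega) (by omega)).1 h3') h4
            (fun j j1 j2 hj => h5' j j1 j2 ((htyiff k j (by omega) (by omega)).2 hj))
            i j i1 i2 i3 ((htyiff i j (by omega) (by omega)).1 (Fin.succ_injective _ hij)))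
      (by
        intro k k' k'' h1 h2 h3 h4 h5 h6 h7 l h8 h9
        refine congrArg Fin.succ ((htyiff l (l + (k' - k)) (by omega) (by omega)).2 ?_)
        exact hR3 k k' k'' h1 h2 (by omega)
          ((htyiff k k' (by omega) (by omega)).1 (Fin.succ_injective _ h4))
          ((htyiff k k'' (by omega) (by omega)).1 (Fin.succ_injective _ h5)) h6
          (fun j j1 j2 hj => h7 j j1 j2
            (congrArg Fin.succ ((htyiff k j (by omega) (by omega)).2 hj))) l h8 h9)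
    have hMM : 3 * (X + (9 * C + 1 + 1) * D) ≤ (N₀ + 3 * (Λ + (9 * C + 1 + 1))) * n := by
      have h1 : D ≤ n := by omega
      have h2 := Nat.mul_le_mul_left (9 * C + 1 + 1) h1
      calc 3 * (X + (9 * C + 1 + 1) * D) ≤ 3 * (Λ * n + (9 * C + 1 + 1) * n) := by omega
        _ ≤ N₀ * n + 3 * (Λ * n + (9 * C + 1 + 1) * n) := Nat.le_add_left _ _
        _ = (N₀ + 3 * (Λ + (9 * C + 1 + 1))) * n := by ring
    refine ⟨Fin.cons F₀ (fun i => F i.succ), ?_, ?_⟩
    · intro i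
      refine Fin.cases ?_ (fun i => ?_) i
      · rw [Fin.cons_zero]
        exact rep_mono (by omega) hMM hF₀
      · rw [Fin.cons_succ]
        exact rep_mono (by omega) hMM (hF _)
    · have e1 : ∑ i, F i * (Fin.cons 0 w : Fin (9 * C + 1 + 1) → ℤ) i =
          ∑ i : Fin (9 * C + 1), F i.succ * w i := by
        rw [Fin.sum_univ_succ]
        simp only [Fin.cons_zero, Fin.cons_succ, mul_zero, zero_add]
      have e2 : ∑ i, (Fin.cons F₀ (fun i => F i.succ) : Fin (9 * C + 1 + 1) → ℤ) i *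
          (Fin.cons y₀ w : Fin (9 * C + 1 + 1) → ℤ) i =
          F₀ * y₀ + ∑ i : Fin (9 * C + 1), F i.succ * w i := by
        rw [Fin.sum_univ_succ]
        simp only [Fin.cons_zero, Fin.cons_succ]
      rw [hFeq, e1, e2, hy]
  · intro z hz
    rcases hGPX u m X z (C * n) hm4 (by omega) with
      ⟨x, hx1, hx2, hx3⟩ | ⟨per, hp1, hp2, hp3, _⟩
    · exact Or.inl ⟨x, hx1, hx2.trans (by omega), hx3⟩
    · refine Or.inr ⟨per, hp1, hp2.trans (by omega), ?_⟩
      intro i hi1 hi2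
      exact hp3 i (le_trans (by omega) hi1) (by omega)

end Pool.Agent.SBL
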