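import Pool.Agent.SBL.Stmts

set_option autoImplicit false

namespace Pool.Agent.SBL

open Finset Pool.Agent.SBT

namespace TYL_

/-- counting with fibres -/
theorem fib_count {α β : Type*} [DecidableEq α] [DecidableEq β] (A : Finset α) (I : Finset β)
    (f : α → β) (hmaps : ∀ w ∈ A, f w ∈ I) (hfib : ∀ v ∈ I, 1 ≤ (A.filter (fun w => f w = v)).card) :
    I.card + (I.filter (fun v => 2 ≤ (A.filter (fun w => f w = v)).card)).card ≤ A.card := by
  have hsum : A.card = ∑ v ∈ I, (A.filter (fun w => f w = v)).card :=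
    card_eq_sum_card_fiberwise hmaps
  rw [hsum, card_filter, card_eq_sum_ones I, ← sum_add_distrib]
  apply sum_le_sum
  intro v hv
  have h2 := hfib v hv
  split_ifs with h <;> omega

end TYL_

open TYL_

theorem tyl_proof : Stmt_TYL := by
  classical
  intro u m X
  obtain ⟨A, hA⟩ : ∃ A : Finset (Fin (m + 1) → ℕ), A = (range X).image (blk u (m + 1)) := ⟨_, rfl⟩
  obtain ⟨B, hB⟩ : ∃ B : Finset (Fin m → ℕ), B = (range X).image (blk u m) := ⟨_, rfl⟩
  have eA : nbl u (m + 1) X = A.card := by
    rw [nbl, hA, ← Set.ncard_coe_finset, coe_image, coe_range]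
  have eB : nbl u m X = B.card := by
    rw [nbl, hB, ← Set.ncard_coe_finset, coe_image, coe_range]
  obtain ⟨pr, hpr⟩ : ∃ pr : (Fin (m + 1) → ℕ) → (Fin m → ℕ), pr = fun w t => w t.castSucc :=
    ⟨_, rfl⟩
  obtain ⟨sf, hsf⟩ : ∃ sf : (Fin (m + 1) → ℕ) → (Fin m → ℕ), sf = fun w t => w t.succ :=
    ⟨_, rfl⟩
  have prb : ∀ i, pr (blk u (m + 1) i) = blk u m i := by
    intro i
    rw [hpr]
    funext t
    simp [blk]
  have sfb : ∀ i, sf (blk u (m + 1) i) = blk u m (i + 1) := by
    intro i
    rw [hsf]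
    funext t
    simp only [blk, Fin.val_succ]
    congr 1
    omega
  have memA : ∀ i, i < X → blk u (m + 1) i ∈ A := by
    intro i hi
    rw [hA]
    exact mem_image_of_mem _ (mem_range.2 hi)
  have hmaps : ∀ w ∈ A, pr w ∈ B := by
    intro w hw
    rw [hA, mem_image] at hw
    obtain ⟨i, hi, rfl⟩ := hw
    rw [prb, hB]
    exact mem_image_of_mem _ hi
  have hfib : ∀ v ∈ B, 1 ≤ (A.filter (fun w => pr w = v)).card := by
    intro v hv
    rw [hB, mem_image] at hv
    obtain ⟨i, hi, rfl⟩ := hv
    exact card_pos.2 ⟨blk u (m + 1) i, mem_filter.2 ⟨memA i (mem_range.1 hi), prb i⟩⟩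
  have h1 := fib_count A B pr hmaps hfib
  -- the suffixes
  obtain ⟨I, hI⟩ : ∃ I : Finset (Fin m → ℕ), I = A.image sf := ⟨_, rfl⟩
  have h2 := fib_count A I sf (fun w hw => by rw [hI]; exact mem_image_of_mem _ hw) (by
    intro v hv
    rw [hI, mem_image] at hv
    obtain ⟨w, hw, hwv⟩ := hv
    exact card_pos.2 ⟨w, mem_filter.2 ⟨hw, hwv⟩⟩)
  have h3 : B.card ≤ I.card + 1 := by
    have hsub : B ⊆ insert (blk u m 0) I := by
      intro v hv
      rw [hB, mem_image] at hv
      obtain ⟨i, hi, rfl⟩ := hv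
      rw [mem_insert]
      rcases Nat.eq_zero_or_pos i with h0 | h0
      · left; rw [h0]
      · right
        have hi' : i - 1 < X := by have := mem_range.1 hi; omega
        rw [hI, mem_image]
        refine ⟨blk u (m + 1) (i - 1), memA _ hi', ?_⟩
        rw [sfb]
        congr 1
        omega
    exact (card_le_card hsub).trans (card_insert_le _ _)
  obtain ⟨R, hR⟩ : ∃ R : Finset (Fin m → ℕ),
    R = B.filter (fun v => 2 ≤ (A.filter (fun w => pr w = v)).card) := ⟨_, rfl⟩
  obtain ⟨L, hL⟩ : ∃ L : Finset (Fin m → ℕ),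
    L = I.filter (fun v => 2 ≤ (A.filter (fun w => sf w = v)).card) := ⟨_, rfl⟩
  rw [← hR] at h1
  rw [← hL] at h2
  -- the types over right special words
  obtain ⟨T, hT⟩ : ∃ T : Finset (Fin (m + 1) → ℕ), T = A.filter (fun w => pr w ∈ R) := ⟨_, rfl⟩
  have hTB : T.card + 2 * B.card ≤ 2 * A.card := by
    have h5 : T.card = ∑ v ∈ B, (T.filter (fun w => pr w = v)).card := by
      apply card_eq_sum_card_fiberwise
      intro w hw
      rw [hT, coe_filter] at hw
      exact hmaps w hw.1
    have hsum : A.card = ∑ v ∈ B, (A.filter (fun w => pr w = v)).card :=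
      card_eq_sum_card_fiberwise hmaps
    rw [h5, hsum, mul_sum, card_eq_sum_ones, mul_sum, ← sum_add_distrib]
    apply sum_le_sum
    intro v hv
    have h6 := hfib v hv
    by_cases h7 : 2 ≤ (A.filter (fun w => pr w = v)).card
    · have h4 : (T.filter (fun w => pr w = v)).card ≤ (A.filter (fun w => pr w = v)).card := by
        apply card_le_card
        intro w hw
        rw [mem_filter] at hw ⊢
        rw [hT, mem_filter] at hw
        exact ⟨hw.1.1, hw.2⟩
      omega
    · have h4 : (T.filter (fun w => pr w = v)).card = 0 := by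
        rw [card_eq_zero, filter_eq_empty_iff]
        intro w hw hwv
        rw [hT, mem_filter, hR, mem_filter, hwv] at hw
        exact h7 hw.2.2
      omega
  -- the types over words which are left special and not right special
  obtain ⟨W, hW⟩ : ∃ W : Finset (Fin (m + 1) → ℕ),
    W = A.filter (fun w => pr w ∈ L ∧ pr w ∉ R) := ⟨_, rfl⟩
  have hWL : W.card ≤ L.card := by
    apply card_le_card_of_injOn pr
    · intro w hw
      rw [hW, coe_filter] at hw
      exact hw.2.1
    · intro w hw w' hw' hww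
      rw [hW, coe_filter] at hw hw'
      by_contra hne
      apply hw.2.2
      rw [hR, mem_filter]
      refine ⟨hmaps w hw.1, ?_⟩
      have hss : ({w, w'} : Finset (Fin (m + 1) → ℕ)) ⊆ A.filter (fun z => pr z = pr w) := by
        intro z hz
        rw [mem_insert, mem_singleton] at hz
        rcases hz with rfl | rfl
        · exact mem_filter.2 ⟨hw.1, rfl⟩
        · exact mem_filter.2 ⟨hw'.1, hww.symm⟩
      calc 2 = ({w, w'} : Finset (Fin (m + 1) → ℕ)).card := (card_pair hne).symm
        _ ≤ _ := card_le_card hss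
  have hRS : ∀ v ∈ RS u m X, v ∈ R := by
    rintro v ⟨i, hi, j, hj, h5, h6, h7⟩
    rw [hR, mem_filter]
    have hne : blk u (m + 1) i ≠ blk u (m + 1) j := by
      intro h
      apply h7
      have := congrFun h (Fin.last m)
      simpa [blk] using this
    refine ⟨?_, ?_⟩
    · rw [hB, ← h5]
      exact mem_image_of_mem _ (mem_range.2 hi)
    · have hss : ({blk u (m + 1) i, blk u (m + 1) j} : Finset (Fin (m + 1) → ℕ)) ⊆
          A.filter (fun w' => pr w' = v) := by
        intro w hw
        rw [mem_insert, mem_singleton] at hw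
        rcases hw with rfl | rfl
        · exact mem_filter.2 ⟨memA i hi, by rw [prb, h5]⟩
        · exact mem_filter.2 ⟨memA j hj, by rw [prb, h6]⟩
      calc 2 = ({blk u (m + 1) i, blk u (m + 1) j} : Finset (Fin (m + 1) → ℕ)).card :=
            (card_pair hne).symm
        _ ≤ _ := card_le_card hss
  have hLS : ∀ v ∈ LS u m X, v ∈ L := by
    rintro v ⟨i, hi, j, hj, h5, h6, h7⟩
    rw [hL, mem_filter]
    have hne : blk u (m + 1) i ≠ blk u (m + 1) j := by
      intro h
      apply h7
      have := congrFun h 0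
      simpa [blk] using this
    refine ⟨?_, ?_⟩
    · rw [hI, mem_image]
      exact ⟨blk u (m + 1) i, memA i hi, by rw [sfb, h5]⟩
    · have hss : ({blk u (m + 1) i, blk u (m + 1) j} : Finset (Fin (m + 1) → ℕ)) ⊆
          A.filter (fun w' => sf w' = v) := by
        intro w hw
        rw [mem_insert, mem_singleton] at hw
        rcases hw with rfl | rfl
        · exact mem_filter.2 ⟨memA i hi, by rw [sfb, h5]⟩
        · exact mem_filter.2 ⟨memA j hj, by rw [sfb, h6]⟩
      calc 2 = ({blk u (m + 1) i, blk u (m + 1) j} : Finset (Fin (m + 1) → ℕ)).card :=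
            (card_pair hne).symm
        _ ≤ _ := card_le_card hss
  have hsub : blk u (m + 1) '' {i | Nod u m X i} ⊆ ((T ∪ W : Finset (Fin (m + 1) → ℕ)) :
      Set (Fin (m + 1) → ℕ)) := by
    rintro _ ⟨i, ⟨hi, h5⟩, rfl⟩
    rw [mem_coe, mem_union, hT, hW, mem_filter, mem_filter, prb]
    by_cases h6 : blk u m i ∈ R
    · exact Or.inl ⟨memA i hi, h6⟩
    · rcases h5 with h5 | h5
      · exact absurd (hRS _ h5) h6
      · exact Or.inr ⟨memA i hi, hLS _ h5, h6⟩
  refine ⟨by rw [eA, eB]; omega, ?_⟩
  rw [eA, eB]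
  have h5 : (blk u (m + 1) '' {i | Nod u m X i}).ncard ≤ (T ∪ W).card := by
    rw [← Set.ncard_coe_finset (T ∪ W)]
    exact Set.ncard_le_ncard hsub (T ∪ W).finite_toSet
  have h6 := card_union_le T W
  omega

end Pool.Agent.SBL
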