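import Pool.Agent.SBT.Pi
import Pool.Agent.SBL.S1X
import Pool.Agent.SBL.S2X
import Pool.Agent.SBL.GEN
import Pool.Agent.SBL.PRM
import Pool.Agent.SBL.ELX
import Pool.Agent.SBL.APY
import Pool.Agent.SBL.CRX
import Pool.Agent.SBL.TYL
import Pool.Agent.SBL.DTN
import Pool.Agent.SBL.GPX
import Pool.Agent.SBL.RTX
import Pool.Agent.SBL.ARC
import Pool.Agent.SBL.STL
import Pool.Agent.SBL.LZF
import Pool.Agent.SBL.HMF
import Pool.Agent.SBL.MHD
import Pool.Agent.SBL.CPC
import Pool.Agent.SBL.CPL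
import Pool.Agent.SBL.LZL
import Pool.Agent.SBL.HML

/-!
# Squad SBL: assembly
-/

set_option autoImplicit false

namespace Pool.Agent.SBL

open Pool.Agent.SBT

theorem S1X_ : Stmt_S1X := s1x_proof SBB_ sim_proof vor_proof ltm_proof
theorem S2X_ : Stmt_S2X := s2x_proof SBB_ sim_proof vor_proof ltm_proof
theorem ELX_ : Stmt_ELX := elx_proof S1X_ gen_proof (prm_proof UNI_)
theorem APY_ : Stmt_APY := apy_proof UNI_ S2X_ vin_proof
theorem CRX_ : Stmt_CRX := crx_proof bas_proof ini_proof ELX_ APY_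
theorem RTX_ : Stmt_RTX := rtx_proof fwl_proof
theorem STL_ : Stmt_STL := stl_proof tyl_proof dtn_proof gpx_proof RTX_ arc_proof STV_
theorem CPC_ : Stmt_CPC := cpc_proof CRX_ STL_ dgt_proof
theorem MHD_ : Stmt_MHD := mhd_proof tyc_proof spx_proof dgt_proof
theorem CPL_ : Stmt_CPL := cpl_proof CPC_ MHD_ tyc_proof dgt_proof
theorem LZL_ : Stmt_LZL := lzl_proof CPL_ lzf_proof
theorem HML_ : Stmt_HML := hml_proof CPL_ hmf_proof

end Pool.Agent.SBL
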