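import Pool.Agent.SBT.StmtsD

/-!
# Squad SBL: the linear version of the theorem on two bases (MP_57632f_nt)
# Exact statements.  Recipes: /team-store/MP_57632f_SBL.md
-/

set_option autoImplicit false

namespace Pool.Agent.SBL

open Filter Pool.Agent.SBT

/-! ## Definitions -/

/-- the right special words of length `m` (with respect to the places `< X`) -/
def RS (u : ℕ → ℕ) (m X : ℕ) : Set (Fin m → ℕ) :=
  {w | ∃ i < X, ∃ j < X, blk u m i = w ∧ blk u m j = w ∧ u (i + m) ≠ u (j + m)}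

/-- the left special words of length `m` -/
def LS (u : ℕ → ℕ) (m X : ℕ) : Set (Fin m → ℕ) :=
  {w | ∃ i < X, ∃ j < X, blk u m (i + 1) = w ∧ blk u m (j + 1) = w ∧ u i ≠ u j}

/-- `x` is a node: the word of length `m` at `x` is right special or left special -/
def Nod (u : ℕ → ℕ) (m X x : ℕ) : Prop :=
  x < X ∧ (blk u m x ∈ RS u m X ∨ blk u m x ∈ LS u m X)

/-- the first `N` letters of `u` are a product of `k` words, each of which is one letter or has an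
earlier occurrence (overlaps allowed); `p` are the cutting points -/
def Cut (u : ℕ → ℤ) (N k : ℕ) (p : ℕ → ℕ) : Prop :=
  p 0 = 0 ∧ p k = N ∧ ∀ j < k, p j < p (j + 1) ∧
    (p (j + 1) = p j + 1 ∨ ∃ s < p j, ∀ i, p j + i < p (j + 1) → u (s + i) = u (p j + i))

/-- the digits of `x` in base `b`, as a sequence indexed from `0` -/
noncomputable def dg (b : ℕ) (x : ℝ) (i : ℕ) : ℤ := dig b x (i + 1)

/-- the number of different words of length `n` which start at the places `< X` of `u` -/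
noncomputable def wds (u : ℕ → ℤ) (n X : ℕ) : ℕ :=
  Set.ncard {w : Fin n → ℤ | ∃ i < X, ∀ j : Fin n, w j = u (i + j)}

/-- the number of places `i < N` at which the digits of `x` in base `b` differ from `w` -/
noncomputable def ham (b : ℕ) (x : ℝ) (w : ℕ → ℤ) (N : ℕ) : ℕ :=
  ((Finset.range N).filter (fun i => dg b x i ≠ w i)).card

/-! ## A. Units, with individual exponents -/

/-- S1X: the height of a primitive relation. Uses SBB, SIM, VOR, LTM. -/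
def Stmt_S1X : Prop :=
  ∀ (U : Ultrafilter ℕ) (S : Finset ℕ) (T : ℕ → ℝ) (r d : ℕ) (g : Fin r → ℕ → ℚ)
    (Z : Fin d → ℕ → ℤ) (B : Fin d → ℝ) (δ : ℝ) (H : Fin d → MvPolynomial (Fin r) ℚ),
    Gd U S T g → (∀ i, 0 ≤ B i) → 0 < δ →
    (∀ᶠ n in (U : Filter ℕ), ∀ i, |(Z i n : ℝ)| ≤ Real.exp (B i * T n)) →
    (∀ᶠ n in (U : Filter ℕ), ∑ i, ev g n (H i) * (Z i n : ℚ) = 0) →
    (∀ A, (∀ i, A ∣ H i) → IsUnit A) →
    (∀ G : Fin d → MvPolynomial (Fin r) ℚ,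
      (∀ᶠ n in (U : Filter ℕ), ∑ i, ev g n (G i) * (Z i n : ℚ) = 0) →
      ∀ i j, G i * H j = G j * H i) →
    ∀ e : ℕ → (Fin r →₀ ℕ), (∀ v ∈ pl S, ∃ i, e v ∈ (H i).support) →
      ∀ᶠ n in (U : Filter ℕ),
        ∏ v ∈ pl S, av v (mon g (e v) n) ≤ Real.exp ((∑ i, B i + δ) * T n)

/-- S2X: a linear form in independent integers is not small. Uses SBB, SIM, VOR, LTM. -/
def Stmt_S2X : Prop :=
  ∀ (U : Ultrafilter ℕ) (S : Finset ℕ) (T : ℕ → ℝ) (r d : ℕ) (g : Fin r → ℕ → ℚ)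
    (Z : Fin d → ℕ → ℤ) (B : Fin d → ℝ) (δ : ℝ) (D : Fin d → MvPolynomial (Fin r) ℚ),
    Gd U S T g → (∀ i, 0 ≤ B i) → 0 < δ →
    (∀ᶠ n in (U : Filter ℕ), ∀ i, |(Z i n : ℝ)| ≤ Real.exp (B i * T n)) →
    Indp U g Z → ∀ i, ∀ e ∈ (D i).support, ∀ᶠ n in (U : Filter ℕ),
      av 0 (mon g e n) ≤
        Real.exp ((∑ i, B i + δ) * T n) * |((∑ i, ev g n (D i) * (Z i n : ℚ) : ℚ) : ℝ)|

/-- GEN: a generic combination of the numerators. Uses nothing. -/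
def Stmt_GEN : Prop :=
  ∀ (r : ℕ) (J I : Type) [Fintype J] [Fintype I] (D : MvPolynomial (Fin r) ℚ)
    (β : J → I → MvPolynomial (Fin r) ℚ), D ≠ 0 →
    (∀ A, A ∣ D → (∀ j i, A ∣ β j i) → IsUnit A) →
    ∃ c : J → ℤ, (∀ A, A ∣ D → (∀ i, A ∣ ∑ j, MvPolynomial.C (c j : ℚ) * β j i) → IsUnit A) ∧
      ∀ j i, ∀ e ∈ (β j i).support, e ∈ (∑ j, MvPolynomial.C (c j : ℚ) * β j i).support

/-- PRM: a basis of the integers over the polynomials and primitive relations. Uses UNI. -/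
def Stmt_PRM : Prop :=
  ∀ (U : Ultrafilter ℕ) (S : Finset ℕ) (T : ℕ → ℝ) (r d : ℕ) (g : Fin r → ℕ → ℚ)
    (Z : Fin d → ℕ → ℤ), Gd U S T g →
    ∃ (d' : ℕ) (f : Fin d' → Fin d) (D : MvPolynomial (Fin r) ℚ)
      (β : Fin d → Fin d' → MvPolynomial (Fin r) ℚ), Function.Injective f ∧
      Indp U g (fun i => Z (f i)) ∧ D ≠ 0 ∧
      (∀ j, ∀ᶠ n in (U : Filter ℕ),
        ev g n D * (Z j n : ℚ) = ∑ i, ev g n (β j i) * (Z (f i) n : ℚ)) ∧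
      (∀ A, A ∣ D → (∀ j i, A ∣ β j i) → IsUnit A)

/-- ELX: elimination in one step. Uses S1X, GEN, PRM. -/
def Stmt_ELX : Prop :=
  ∀ (U : Ultrafilter ℕ) (S : Finset ℕ) (T : ℕ → ℝ) (r d : ℕ) (ι : Type) (g : Fin r → ℕ → ℚ)
    (bs : ι → ℕ) (Z : Fin d → ℕ → ℤ) (R : ι → ℕ → ℤ) (B : Fin d → ℝ) (B₀ : ℝ), Gd U S T g →
    (∀ i, 0 ≤ B i) →
    (∀ᶠ n in (U : Filter ℕ), ∀ i, |(Z i n : ℝ)| ≤ Real.exp (B i * T n)) →
    (∀ t, Dsc U S T g (bs t) Z (R t) B₀) →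
    ∃ (d' : ℕ) (f : Fin d' → Fin d), Function.Injective f ∧ Indp U g (fun i => Z (f i)) ∧
      ∀ t, Dsc U S T g (bs t) (fun i => Z (f i)) (R t) (B₀ + 2 * ∑ i, B i + 1)

/-- APY: a rational approximation, with linear constants. Uses UNI, S2X, VIN. -/
def Stmt_APY : Prop :=
  ∀ (a b : ℕ) (S : Finset ℕ), 2 ≤ a → 2 ≤ b → Indep a b →
    (∀ p : ℕ, p.Prime → p ∣ a * b → p ∈ S) →
    ∃ K : ℝ, 0 < K ∧ ∀ (U : Ultrafilter ℕ) (T : ℕ → ℝ) (r d : ℕ) (g : Fin r → ℕ → ℚ)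
      (Z : Fin d → ℕ → ℤ) (B : Fin d → ℝ) (B₀ B₁ ξ Λ : ℝ) (L L' : ℕ → ℕ), (∀ i, 0 ≤ B i) →
      0 ≤ B₀ → 0 ≤ B₁ → Gd U S T g →
      (∀ᶠ n in (U : Filter ℕ), ∀ i, |(Z i n : ℝ)| ≤ Real.exp (B i * T n)) → Indp U g Z →
      Dsc U S T g a Z (fun n => ⌊ξ * (a : ℝ) ^ L n⌋) B₀ →
      Dsc U S T g b Z (fun n => ⌊ξ * (b : ℝ) ^ L' n⌋) B₀ →
      (∃ (κ : ℚ) (e : Fin r → ℤ), 0 < κ ∧
        ∀ᶠ n in (U : Filter ℕ), (a : ℚ) ^ L n = κ * ∏ i, g i n ^ e i) →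
      (∃ (κ : ℚ) (e : Fin r → ℤ), 0 < κ ∧
        ∀ᶠ n in (U : Filter ℕ), (b : ℚ) ^ L' n = κ * ∏ i, g i n ^ e i) →
      (∀ᶠ n in (U : Filter ℕ), |L n * Real.log a - Λ * T n| ≤ B₁ * T n) →
      (∀ᶠ n in (U : Filter ℕ), |L' n * Real.log b - Λ * T n| ≤ B₁ * T n) →
      ∃ (X : ℕ → ℤ) (Q : ℕ → ℕ), ∀ᶠ n in (U : Filter ℕ), 0 < Q n ∧
        (Q n : ℝ) ≤ Real.exp (K * (∑ i, B i + B₀ + B₁ + 1) * T n) ∧
        |ξ - X n / Q n| ≤ Real.exp ((K * (∑ i, B i + B₀ + B₁ + 1) - Λ) * T n)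

/-- CRX: the core theorem, linear version. Uses BAS, INI, ELX, APY. -/
def Stmt_CRX : Prop :=
  ∀ (bs : Fin 2 → ℕ) (ξ : ℝ) (μ : ℕ), (∀ r, 2 ≤ bs r) → Indep (bs 0) (bs 1) → Meas ξ μ →
    ∃ K : ℝ, 0 < K ∧ ∀ (s : ℕ) (b : Fin s → ℝ) (B Λ : ℝ), (∀ i, 0 ≤ b i) → 0 ≤ B →
      K * (∑ i, b i + B + 1) ≤ Λ →
      ∀ (U : Ultrafilter ℕ) (T : ℕ → ℝ) (y : Fin s → ℕ → ℤ) (L : Fin 2 → ℕ → ℕ)
        (N : ℕ) (C : ℝ) (c₀ : Fin 2 → Fin N → ℤ) (m₀ : Fin 2 → Fin N → ℕ → ℕ)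
        (c : Fin 2 → Fin s → Fin N → ℤ) (m : Fin 2 → Fin s → Fin N → ℕ → ℕ),
        Tendsto T (U : Filter ℕ) atTop →
        (∀ᶠ n in (U : Filter ℕ), ∀ i, |(y i n : ℝ)| ≤ Real.exp (b i * T n)) →
        (∀ r, ∀ᶠ n in (U : Filter ℕ), |L r n * Real.log (bs r) - Λ * T n| ≤ B * T n) →
        (∀ r, ∀ᶠ n in (U : Filter ℕ),
          (∑ t, c₀ r t * (bs r : ℤ) ^ m₀ r t n) * ⌊ξ * (bs r : ℝ) ^ L r n⌋ =
            ∑ i, (∑ t, c r i t * (bs r : ℤ) ^ m r i t n) * y i n) →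
        (∀ r, ∀ᶠ n in (U : Filter ℕ), ∑ t, c₀ r t * (bs r : ℤ) ^ m₀ r t n ≠ 0) →
        (∀ r t, ∀ᶠ n in (U : Filter ℕ),
          (m₀ r t n : ℝ) * Real.log (bs r) ≤ B * T n) →
        (∀ r i t, ∀ᶠ n in (U : Filter ℕ), (m r i t n : ℝ) ≤ C * T n) → False

/-! ## B. Words -/

/-- TYL: the number of types of nodes. Uses nothing. -/
def Stmt_TYL : Prop :=
  ∀ (u : ℕ → ℕ) (m X : ℕ), nbl u m X ≤ nbl u (m + 1) X ∧
    (blk u (m + 1) '' {i | Nod u m X i}).ncard ≤ 3 * (nbl u (m + 1) X - nbl u m X) + 1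

/-- DTN: determinism. Uses nothing. -/
def Stmt_DTN : Prop :=
  ∀ (u : ℕ → ℕ) (m X i j t : ℕ), blk u (m + 1) i = blk u (m + 1) j → i + t < X → j + t < X →
    1 ≤ t → (∀ l, 1 ≤ l → l < t → ¬ Nod u m X (i + l)) →
    blk u (m + t) i = blk u (m + t) j ∧ (Nod u m X (i + t) ↔ Nod u m X (j + t))

/-- GPX: nodes or a period. Uses nothing. -/
def Stmt_GPX : Prop :=
  ∀ (u : ℕ → ℕ) (m X z h : ℕ), nbl u m X ≤ h → z + h < X →
    (∃ x, z ≤ x ∧ x ≤ z + h ∧ Nod u m X x) ∨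
    ∃ per, 1 ≤ per ∧ per ≤ h ∧ (∀ i, z + h ≤ i → i + per < X + m → u i = u (i + per)) ∧
      ∀ i, z ≤ i → ¬ Nod u m X i

/-- RTX: returns of nodes. `β` enumerates the nodes, the type of `k` is `blk u (m + 1) (β k)`.
Uses FWL. -/
def Stmt_RTX : Prop :=
  ∀ (u : ℕ → ℕ) (m X K D : ℕ) (β : ℕ → ℕ), (∀ i j, i < j → j < K → β i < β j) →
    (∀ x, Nod u m X x ↔ ∃ k < K, β k = x) → 2 * D ≤ m →
    -- the first return depends only on the type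
    (∀ k k' l l', k < k' → k' < K → l < l' → l' < K →
      blk u (m + 1) (β k) = blk u (m + 1) (β k') → blk u (m + 1) (β l) = blk u (m + 1) (β l') →
      blk u (m + 1) (β k) = blk u (m + 1) (β l) → β k' ≤ β k + D → β l' ≤ β l + D →
      (∀ j, k < j → j < k' → blk u (m + 1) (β k) ≠ blk u (m + 1) (β j)) →
      (∀ j, l < j → j < l' → blk u (m + 1) (β l) ≠ blk u (m + 1) (β j)) →
      β k' + β l = β l' + β k) ∧
    -- the types between two returns are different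
    (∀ k k', k < k' → k' < K → blk u (m + 1) (β k) = blk u (m + 1) (β k') → β k' ≤ β k + D →
      (∀ j, k < j → j < k' → blk u (m + 1) (β k) ≠ blk u (m + 1) (β j)) →
      ∀ i j, k ≤ i → i < j → j < k' → blk u (m + 1) (β i) ≠ blk u (m + 1) (β j)) ∧
    -- periodicity of the types between a place and a later place of the same type
    (∀ k k' k'', k < k' → k' ≤ k'' → k'' < K →
      blk u (m + 1) (β k) = blk u (m + 1) (β k') → blk u (m + 1) (β k) = blk u (m + 1) (β k'') →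
      β k'' ≤ β k + D →
      (∀ j, k < j → j < k' → blk u (m + 1) (β k) ≠ blk u (m + 1) (β j)) →
      ∀ l, k ≤ l → l + (k' - k) ≤ k'' →
        blk u (m + 1) (β l) = blk u (m + 1) (β (l + (k' - k))))

/-- ARC: the total length of the arcs. Uses nothing. -/
def Stmt_ARC : Prop :=
  ∀ (u : ℕ → ℕ) (m X K : ℕ) (β : ℕ → ℕ) (J : Finset ℕ), 1 ≤ m →
    (∀ i j, i < j → j < K → β i < β j) → (∀ x, Nod u m X x ↔ ∃ k < K, β k = x) →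
    (∀ k ∈ J, k + 1 < K) →
    (∀ k ∈ J, ∀ l ∈ J, blk u (m + 1) (β k) = blk u (m + 1) (β l) → k = l) →
    ∑ k ∈ J, (β (k + 1) - β k - 1) ≤ nbl u m X

/-- STL: the structure theorem, linear version. Uses TYL, DTN, GPX, RTX, ARC, STV. -/
def Stmt_STL : Prop :=
  ∃ K : ℕ, ∀ C : ℕ, 1 ≤ C → ∃ s : ℕ, ∀ Λ : ℕ, ∃ N : ℕ, ∀ (a n : ℕ) (u : ℕ → ℕ) (P : ℕ → ℤ),
    2 ≤ a → 8 ≤ n → (∀ i, u i < a) → (∀ i, P (i + 1) = a * P i + u i) →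
    nbl u n (Λ * n) ≤ C * n →
    ∃ (m : ℕ) (q l : Fin s → ℕ) (y : Fin s → ℤ), n ≤ 2 * m ∧ m ≤ n ∧
      (∀ i, 1 ≤ q i) ∧ ∑ i, q i ≤ K * C * n ∧
      (∀ i, |y i| ≤ (|P 0| + 1) * (a : ℤ) ^ l i) ∧ ∑ i, l i ≤ K * C * n ∧
      (∀ x, Nod u m (Λ * n) x → ∃ F : Fin s → ℤ, (∀ i, Rep a N (N * n) (F i)) ∧
        (∏ i, ((a : ℤ) ^ q i - 1)) * P (x + m) = ∑ i, F i * y i) ∧
      ∀ z, z + K * C * n < Λ * n →
        (∃ x, z ≤ x ∧ x ≤ z + K * C * n ∧ Nod u m (Λ * n) x) ∨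
        ∃ per, 1 ≤ per ∧ per ≤ K * C * n ∧
          ∀ i, z + K * C * n ≤ i → i + per < Λ * n → u i = u (i + per)

/-- LZF: a factorisation bounds the number of words. Uses nothing. -/
def Stmt_LZF : Prop :=
  ∀ (u : ℕ → ℤ) (N k : ℕ) (p : ℕ → ℕ), Cut u N k p → ∀ n X : ℕ, 2 ≤ n → X + n ≤ N →
    wds u n X ≤ n + (n - 1) * ((Finset.range k).filter (fun j => n < p j ∧ p j < X + n)).card

/-- HMF: few changes do not create many words. Uses nothing. -/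
def Stmt_HMF : Prop :=
  ∀ (u w : ℕ → ℤ) (n X : ℕ), 1 ≤ n →
    wds u n X ≤ wds w n X + n +
      n * ((Finset.range (X + n)).filter (fun i => n ≤ i ∧ u i ≠ w i)).card

/-! ## C. The theorems -/

/-- MHD: short windows. Uses TYC, SPX, DGT. -/
def Stmt_MHD : Prop :=
  ∀ (b : ℕ) (x : ℝ) (μ : ℕ), 2 ≤ b → Meas x μ →
    ∀ᶠ n : ℕ in atTop, n ≤ (2 * μ + 3) * cnt b x n n

/-- CPC: the core of the theorem. Uses CRX, STL, DGT. -/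
def Stmt_CPC : Prop :=
  ∀ (a b : ℕ) (ξ : ℝ) (μ : ℕ), 2 ≤ a → 2 ≤ b → Indep a b → Meas ξ μ →
    ∃ K : ℕ, 1 ≤ K ∧ ∀ C Λ : ℕ, 1 ≤ C → K * C ≤ Λ → ∀ᶠ n : ℕ in atTop,
      C * n < cnt a ξ n (Λ * n) + cnt b ξ n (Λ * n)

/-- CPL: a positive proportion of the words are different. Uses CPC, MHD, TYC, DGT. -/
def Stmt_CPL : Prop :=
  ∀ (a b : ℕ) (ξ : ℝ) (μ : ℕ), 2 ≤ a → 2 ≤ b → Indep a b → Meas ξ μ →
    ∃ c : ℝ, 0 < c ∧
      (∀ Λ : ℕ, 1 ≤ Λ → ∀ᶠ n : ℕ in atTop,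
        c * (Λ * n : ℕ) ≤ cnt a ξ n (Λ * n) + cnt b ξ n (Λ * n)) ∧
      ∀ ε : ℝ, 0 < ε → ∀ᶠ N : ℕ in atTop, ∀ n : ℕ, ε * N ≤ n →
        c * N ≤ cnt a ξ n N + cnt b ξ n N

/-- LZL: Lempel-Ziv factorisations. Uses CPL, LZF. -/
def Stmt_LZL : Prop :=
  ∀ (a b : ℕ) (ξ : ℝ) (μ : ℕ), 2 ≤ a → 2 ≤ b → Indep a b → Meas ξ μ →
    ∀ K : ℝ, ∀ᶠ N : ℕ in atTop, ∀ (k k' : ℕ) (p p' : ℕ → ℕ), Cut (dg a ξ) N k p →
      Cut (dg b ξ) N k' p' → K * Real.log N ≤ k + k'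

/-- HML: distance from the sequences of linear complexity. Uses CPL, HMF. -/
def Stmt_HML : Prop :=
  ∀ (a b : ℕ) (ξ : ℝ) (μ : ℕ), 2 ≤ a → 2 ≤ b → Indep a b → Meas ξ μ →
    ∀ (w w' : ℕ → ℤ) (C : ℝ),
      (∀ n X : ℕ, 1 ≤ n → (wds w n X : ℝ) ≤ C * n ∧ (wds w' n X : ℝ) ≤ C * n) →
      ∀ K : ℝ, ∀ᶠ N : ℕ in atTop, K * Real.log N ≤ ham a ξ w N + ham b ξ w' N

end Pool.Agent.SBL
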